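import Pool.Agent.XMN.Nhds

/-!
# XMN: circuits with piecewise analytic gates
-/

set_option autoImplicit false
set_option linter.unusedSectionVars false

namespace Pool.XMN

open Finset MeasureTheory Topology Filter

/-- piecewise analytic functions: the pieces are given by the signs of finitely many analytic
functions -/
def PA {w : ℕ} (f : (Fin w → ℝ) → ℝ) : Prop :=
  ∃ (k : ℕ) (h : Fin k → (Fin w → ℝ) → ℝ) (G : (Fin k → SignType) → (Fin w → ℝ) → ℝ),
    ∀ y, (∀ j, AnalyticAt ℝ (h j) y) ∧ AnalyticAt ℝ (G fun j => SignType.sign (h j y)) y ∧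
      f y = G (fun j => SignType.sign (h j y)) y

/-- circuits with piecewise analytic gates -/
def IsCircuitP {σ : Type} [Fintype σ] (d w : ℕ) {s : ℕ} (P : Fin s → (σ → ℝ) → ℝ) : Prop :=
  ∃ depth : Fin s → ℕ, ∀ g, depth g ≤ d ∧
    ((∃ (a₀ : ℝ) (a : σ → ℝ) (c : Fin s → ℝ), (∀ h, c h ≠ 0 → h < g ∧ depth h ≤ depth g) ∧
        ∀ x, P g x = a₀ + ∑ v, a v * x v + ∑ h, c h * P h x) ∨
     (∃ (a₀ : ℝ) (a : σ → ℕ) (e : Fin s → ℕ), 0 < depth g ∧
        (∀ h, e h ≠ 0 → h < g ∧ depth h < depth g) ∧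
        ∀ x, P g x = a₀ * (∏ v, x v ^ a v) * ∏ h, P h x ^ e h) ∨
     (∃ (t : Fin w → Fin s) (f : (Fin w → ℝ) → ℝ), 0 < depth g ∧ PA f ∧
        (∀ i, t i < g ∧ depth (t i) < depth g) ∧ ∀ x, P g x = f fun i => P (t i) x))

section data

variable {σ : Type} [Fintype σ] {s w : ℕ}

/-- the data of a gate -/
inductive GD (σ : Type) (s w : ℕ) : Type
  | sum (a₀ : ℝ) (a : σ → ℝ) (c : Fin s → ℝ) : GD σ s w
  | prod (a₀ : ℝ) (a : σ → ℕ) (e : Fin s → ℕ) : GD σ s w
  | fn (t : Fin w → Fin s) (k : ℕ) (h : Fin k → (Fin w → ℝ) → ℝ)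
      (G : (Fin k → SignType) → (Fin w → ℝ) → ℝ) : GD σ s w

/-- the number of the tests of a gate -/
def GD.k : GD σ s w → ℕ
  | .sum _ _ _ => 0
  | .prod _ _ _ => 0
  | .fn _ k _ _ => k

/-- the values of the tests of a gate -/
def GD.te : (D : GD σ s w) → (Fin s → ℝ) → Fin D.k → ℝ
  | .sum _ _ _, _, j => Fin.elim0 j
  | .prod _ _ _, _, j => Fin.elim0 j
  | .fn t _ h _, v, j => h j fun i => v (t i)

/-- the value of a gate with a fixed branch -/
noncomputable def GD.ev : (D : GD σ s w) → (Fin D.k → SignType) → (Fin s → ℝ) → (σ → ℝ) → ℝ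
  | .sum a₀ a c, _, v, x => a₀ + ∑ u, a u * x u + ∑ h, c h * v h
  | .prod a₀ a e, _, v, x => a₀ * (∏ u, x u ^ a u) * ∏ h, v h ^ e h
  | .fn t _ _ G, τ, v, _ => G τ fun i => v (t i)

/-- analyticity of a gate with a fixed branch -/
def GD.an : (D : GD σ s w) → (Fin D.k → SignType) → (Fin s → ℝ) → Prop
  | .sum _ _ _, _, _ => True
  | .prod _ _ _, _, _ => True
  | .fn t _ _ G, τ, v => AnalyticAt ℝ (G τ) fun i => v (t i)

/-- the conditions on the data of the gate `g` -/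
def GD.ok (depth : Fin s → ℕ) (g : Fin s) : GD σ s w → Prop
  | .sum _ _ c => ∀ h, c h ≠ 0 → h < g ∧ depth h ≤ depth g
  | .prod _ _ e => 0 < depth g ∧ ∀ h, e h ≠ 0 → h < g ∧ depth h < depth g
  | .fn t _ h G => 0 < depth g ∧ (∀ i, t i < g ∧ depth (t i) < depth g) ∧
      ∀ y, (∀ j, AnalyticAt ℝ (h j) y) ∧ AnalyticAt ℝ (G fun j => SignType.sign (h j y)) y

theorem GD.ev_congr {depth : Fin s → ℕ} {g : Fin s} {D : GD σ s w} (hD : D.ok depth g)
    (τ : Fin D.k → SignType) {v v' : Fin s → ℝ} (hv : ∀ h, h < g → v h = v' h) (x : σ → ℝ) :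
    D.ev τ v x = D.ev τ v' x := by
  cases D with
  | sum a₀ a c =>
    show a₀ + ∑ u, a u * x u + ∑ h, c h * v h = a₀ + ∑ u, a u * x u + ∑ h, c h * v' h
    congr 1
    refine Finset.sum_congr rfl fun h _ => ?_
    by_cases hc : c h = 0
    · rw [hc, zero_mul, zero_mul]
    · rw [hv h (hD h hc).1]
  | prod a₀ a e =>
    show a₀ * (∏ u, x u ^ a u) * ∏ h, v h ^ e h = a₀ * (∏ u, x u ^ a u) * ∏ h, v' h ^ e h
    congr 1
    refine Finset.prod_congr rfl fun h _ => ?_
    by_cases hc : e h = 0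
    · rw [hc, pow_zero, pow_zero]
    · rw [hv h (hD.2 h hc).1]
  | fn t k h G =>
    show G τ (fun i => v (t i)) = G τ (fun i => v' (t i))
    congr 1
    funext i
    exact hv _ (hD.2.1 i).1

theorem GD.te_congr {depth : Fin s → ℕ} {g : Fin s} {D : GD σ s w} (hD : D.ok depth g)
    {v v' : Fin s → ℝ} (hv : ∀ h, h < g → v h = v' h) (j : Fin D.k) :
    D.te v j = D.te v' j := by
  cases D with
  | sum a₀ a c => exact Fin.elim0 j
  | prod a₀ a e => exact Fin.elim0 j
  | fn t k h G =>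
    show h j (fun i => v (t i)) = h j (fun i => v' (t i))
    congr 1
    funext i
    exact hv _ (hD.2.1 i).1

/-- a fixed point of a triangular system -/
theorem exists_fix (Ψ : Fin s → (Fin s → ℝ) → ℝ)
    (hΨ : ∀ g v v', (∀ h, h < g → v h = v' h) → Ψ g v = Ψ g v') :
    ∃ q : Fin s → ℝ, ∀ g, q g = Ψ g q := by
  let it : ℕ → Fin s → ℝ := fun k => Nat.rec (fun _ => 0) (fun _ v g => Ψ g v) k
  have hit : ∀ k, it (k + 1) = fun g => Ψ g (it k) := fun k => rfl
  have key : ∀ (m : ℕ) (g : Fin s), (g : ℕ) = m → ∀ k k', m < k → m < k' → it k g = it k' g := by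
    intro m
    induction m using Nat.strong_induction_on with
    | _ m ih =>
      intro g hg k k' hk hk'
      obtain ⟨k, rfl⟩ : ∃ l, k = l + 1 := ⟨k - 1, by omega⟩
      obtain ⟨k', rfl⟩ : ∃ l, k' = l + 1 := ⟨k' - 1, by omega⟩
      rw [hit, hit]
      refine hΨ g _ _ fun h hh => ?_
      have h1 : (h : ℕ) < m := by rw [← hg]; exact hh
      exact ih h h1 h rfl k k' (by omega) (by omega)
  refine ⟨it s, fun g => ?_⟩
  have h1 := key g g rfl s (s + 1) g.2 (by have := g.2; omega)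
  rw [h1, hit]

/-- the functions of the circuit with a fixed branch -/
theorem exists_branch (D : Fin s → GD σ s w) {depth : Fin s → ℕ} (hD : ∀ g, (D g).ok depth g)
    (τ : ∀ g, Fin (D g).k → SignType) :
    ∃ Q : Fin s → (σ → ℝ) → ℝ, ∀ g x, Q g x = (D g).ev (τ g) (fun h => Q h x) x := by
  have h1 := fun x : σ → ℝ => exists_fix (fun g v => (D g).ev (τ g) v x)
    fun g v v' hv => GD.ev_congr (hD g) (τ g) hv x
  choose q hq using h1
  exact ⟨fun g x => q x g, fun g x => hq x g⟩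

theorem GD.an_congr {depth : Fin s → ℕ} {g : Fin s} {D : GD σ s w} (hD : D.ok depth g)
    (τ : Fin D.k → SignType) {v v' : Fin s → ℝ} (hv : ∀ h, h < g → v h = v' h) :
    D.an τ v ↔ D.an τ v' := by
  cases D with
  | sum a₀ a c => exact Iff.rfl
  | prod a₀ a e => exact Iff.rfl
  | fn t k h G =>
    have h1 : (fun i => v (t i)) = fun i => v' (t i) := funext fun i => hv _ (hD.2.1 i).1
    show AnalyticAt ℝ (G τ) (fun i => v (t i)) ↔ AnalyticAt ℝ (G τ) (fun i => v' (t i))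
    rw [h1]

theorem GD.an_of_ok {depth : Fin s → ℕ} {g : Fin s} {D : GD σ s w} (hD : D.ok depth g)
    (v : Fin s → ℝ) : D.an (fun j => SignType.sign (D.te v j)) v := by
  cases D with
  | sum a₀ a c => exact trivial
  | prod a₀ a e => exact trivial
  | fn t k h G => exact (hD.2.2 fun i => v (t i)).2

theorem GD.an_eventually (D : GD σ s w) (τ : Fin D.k → SignType) (v : (σ → ℝ) → Fin s → ℝ)
    (x : σ → ℝ) (hv : ∀ h, ContinuousAt (fun y => v y h) x) (h : D.an τ (v x)) :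
    ∀ᶠ y in 𝓝 x, D.an τ (v y) := by
  cases D with
  | sum a₀ a c => exact Eventually.of_forall fun _ => trivial
  | prod a₀ a e => exact Eventually.of_forall fun _ => trivial
  | fn t k h' G =>
    have h1 : ContinuousAt (fun y => fun i => v y (t i)) x :=
      continuousAt_pi.2 fun i => hv (t i)
    have h2 : AnalyticAt ℝ (G τ) fun i => v x (t i) := h
    exact h1.eventually h2.eventually_analyticAt

theorem GD.ev_analytic {depth : Fin s → ℕ} {g : Fin s} {D : GD σ s w} (hD : D.ok depth g)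
    (τ : Fin D.k → SignType) (Q : Fin s → (σ → ℝ) → ℝ) (x : σ → ℝ)
    (hQ : ∀ h, h < g → AnalyticAt ℝ (Q h) x) (han : D.an τ fun h => Q h x) :
    AnalyticAt ℝ (fun y => D.ev τ (fun h => Q h y) y) x := by
  cases D with
  | sum a₀ a c =>
    show AnalyticAt ℝ (fun y => a₀ + ∑ v, a v * y v + ∑ h, c h * Q h y) x
    refine AnalyticAt.add (AnalyticAt.add analyticAt_const ?_) ?_
    · refine Finset.analyticAt_fun_sum _ fun v _ => ?_
      exact analyticAt_const.mul ((ContinuousLinearMap.proj (R := ℝ) v).analyticAt x)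
    · refine Finset.analyticAt_fun_sum _ fun h _ => ?_
      by_cases hch : c h = 0
      · simp only [hch, zero_mul]
        exact analyticAt_const
      · exact analyticAt_const.mul (hQ h (hD h hch).1)
  | prod a₀ a e =>
    show AnalyticAt ℝ (fun y => a₀ * (∏ v, y v ^ a v) * ∏ h, Q h y ^ e h) x
    refine AnalyticAt.mul (AnalyticAt.mul analyticAt_const ?_) ?_
    · refine Finset.analyticAt_fun_prod _ fun v _ => ?_
      exact ((ContinuousLinearMap.proj (R := ℝ) v).analyticAt x).pow _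
    · refine Finset.analyticAt_fun_prod _ fun h _ => ?_
      by_cases hch : e h = 0
      · simp only [hch, pow_zero]
        exact analyticAt_const
      · exact (hQ h (hD.2 h hch).1).pow _
  | fn t k h G =>
    show AnalyticAt ℝ (fun y => G τ fun i => Q (t i) y) x
    have h1 : AnalyticAt ℝ (fun y => fun i => Q (t i) y) x :=
      analyticAt_pi_iff.2 fun i => hQ (t i) (hD.2.1 i).1
    have h2 : AnalyticAt ℝ (G τ) ((fun y => fun i => Q (t i) y) x) := han
    exact AnalyticAt.comp (g := G τ) (f := fun y => fun i => Q (t i) y) h2 h1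

/-- the clause of the gate `g` of a circuit on `U` -/
def ClauseOn (U : Set (σ → ℝ)) (w : ℕ) (depth : Fin s → ℕ) (P : Fin s → (σ → ℝ) → ℝ)
    (g : Fin s) : Prop :=
  ((∃ (a₀ : ℝ) (a : σ → ℝ) (c : Fin s → ℝ), (∀ h, c h ≠ 0 → h < g ∧ depth h ≤ depth g) ∧
        ∀ x ∈ U, P g x = a₀ + ∑ v, a v * x v + ∑ h, c h * P h x) ∨
     (∃ (a₀ : ℝ) (a : σ → ℕ) (e : Fin s → ℕ), 0 < depth g ∧
        (∀ h, e h ≠ 0 → h < g ∧ depth h < depth g) ∧
        ∀ x ∈ U, P g x = a₀ * (∏ v, x v ^ a v) * ∏ h, P h x ^ e h) ∨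
     (∃ (t : Fin w → Fin s) (f : (Fin w → ℝ) → ℝ), 0 < depth g ∧
        (∀ i, t i < g ∧ depth (t i) < depth g) ∧
        ∀ x ∈ U, AnalyticAt ℝ f (fun i => P (t i) x) ∧ P g x = f fun i => P (t i) x))

theorem GD.clause {U : Set (σ → ℝ)} {depth : Fin s → ℕ} {g : Fin s} {D : GD σ s w}
    (hD : D.ok depth g) (τ : Fin D.k → SignType) {P : Fin s → (σ → ℝ) → ℝ}
    (han : ∀ x ∈ U, D.an τ fun h => P h x)
    (hP : ∀ x ∈ U, P g x = D.ev τ (fun h => P h x) x) : ClauseOn U w depth P g := by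
  cases D with
  | sum a₀ a c => exact Or.inl ⟨a₀, a, c, hD, hP⟩
  | prod a₀ a e => exact Or.inr (Or.inl ⟨a₀, a, e, hD.1, hD.2, hP⟩)
  | fn t k h G =>
    exact Or.inr (Or.inr ⟨t, G τ, hD.1, hD.2.1, fun x hx => ⟨han x hx, hP x hx⟩⟩)

/-- the tests of a gate as gates -/
theorem GD.clause_te {U : Set (σ → ℝ)} {depth : Fin s → ℕ} {g : Fin s} {D : GD σ s w}
    (hD : D.ok depth g) (j : Fin D.k) {P : Fin s → (σ → ℝ) → ℝ}
    (hP : ∀ x ∈ U, P g x = D.te (fun h => P h x) j) : ClauseOn U w depth P g := by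
  cases D with
  | sum a₀ a c => exact Fin.elim0 j
  | prod a₀ a e => exact Fin.elim0 j
  | fn t k h G =>
    exact Or.inr (Or.inr ⟨t, h j, hD.1, hD.2.1, fun x hx =>
      ⟨(hD.2.2 fun i => P (t i) x).1 j, hP x hx⟩⟩)

/-- the set on which a branch of the circuit is analytic -/
def dom (D : Fin s → GD σ s w) (τ : ∀ g, Fin (D g).k → SignType) (Q : Fin s → (σ → ℝ) → ℝ) :
    Set (σ → ℝ) :=
  {x | ∀ g, AnalyticAt ℝ (Q g) x ∧ (D g).an (τ g) fun h => Q h x}

theorem isOpen_dom (D : Fin s → GD σ s w) (τ : ∀ g, Fin (D g).k → SignType)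
    (Q : Fin s → (σ → ℝ) → ℝ) : IsOpen (dom D τ Q) := by
  rw [isOpen_iff_eventually]
  intro x hx
  have h1 : ∀ᶠ y in 𝓝 x, ∀ g, AnalyticAt ℝ (Q g) y :=
    eventually_all.2 fun g => (hx g).1.eventually_analyticAt
  have h2 : ∀ᶠ y in 𝓝 x, ∀ g, (D g).an (τ g) fun h => Q h y :=
    eventually_all.2 fun g => GD.an_eventually (D g) (τ g) (fun y h => Q h y) x
      (fun h => (hx h).1.continuousAt) (hx g).2
  filter_upwards [h1, h2] with y a b g
  exact ⟨a g, b g⟩

/-- a branch of the circuit is a circuit with analytic gates -/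
theorem branch_circuit {d : ℕ} {D : Fin s → GD σ s w} {depth : Fin s → ℕ}
    (hD : ∀ g, (D g).ok depth g) (hd : ∀ g, depth g ≤ d) (τ : ∀ g, Fin (D g).k → SignType)
    {Q : Fin s → (σ → ℝ) → ℝ} (hQ : ∀ g x, Q g x = (D g).ev (τ g) (fun h => Q h x) x) :
    IsCircuitOn (dom D τ Q) d w Q :=
  ⟨depth, fun g => ⟨hd g, GD.clause (hD g) (τ g) (fun _ hx => (hx g).2) fun x _ => hQ g x⟩⟩

/-- the circuit of a test -/
noncomputable def tst (D : Fin s → GD σ s w) (Q : Fin s → (σ → ℝ) → ℝ) (g : Fin s)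
    (j : Fin (D g).k) (h : Fin s) (x : σ → ℝ) : ℝ :=
  if h = g then (D g).te (fun h => Q h x) j else if h < g then Q h x else 0

theorem tst_circuit {d : ℕ} {D : Fin s → GD σ s w} {depth : Fin s → ℕ}
    (hD : ∀ g, (D g).ok depth g) (hd : ∀ g, depth g ≤ d) (τ : ∀ g, Fin (D g).k → SignType)
    {Q : Fin s → (σ → ℝ) → ℝ} (hQ : ∀ g x, Q g x = (D g).ev (τ g) (fun h => Q h x) x)
    (g : Fin s) (j : Fin (D g).k) :
    IsCircuitOn (dom D τ Q) d w (tst D Q g j) := by
  have hlt : ∀ h, h < g → ∀ x, tst D Q g j h x = Q h x := by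
    intro h hh x
    unfold tst
    rw [if_neg (ne_of_lt hh), if_pos hh]
  refine ⟨depth, fun g' => ⟨hd g', ?_⟩⟩
  rcases lt_trichotomy g' g with h1 | h1 | h1
  · refine GD.clause (hD g') (τ g') (fun x hx => ?_) fun x _ => ?_
    · rw [GD.an_congr (hD g') (τ g') (v' := fun h => Q h x) fun h hh => hlt h (hh.trans h1) x]
      exact (hx g').2
    · rw [hlt g' h1 x, hQ g' x]
      exact GD.ev_congr (hD g') (τ g') (fun h hh => (hlt h (hh.trans h1) x).symm) x
  · subst h1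
    refine GD.clause_te (hD g') j fun x _ => ?_
    have h2 : tst D Q g' j g' x = (D g').te (fun h => Q h x) j := by
      unfold tst
      rw [if_pos rfl]
    rw [h2]
    exact GD.te_congr (hD g') (fun h hh => (hlt h hh x).symm) j
  · refine Or.inl ⟨0, 0, 0, fun h hh => absurd rfl hh, fun x _ => ?_⟩
    have h2 : tst D Q g j g' x = 0 := by
      unfold tst
      rw [if_neg (ne_of_gt h1), if_neg (not_lt.2 h1.le)]
    rw [h2]
    simp

/-- **the argument at a point** -/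
theorem at_point {D : Fin s → GD σ s w} {depth : Fin s → ℕ}
    (hD : ∀ g, (D g).ok depth g) {P : Fin s → (σ → ℝ) → ℝ}
    (hP : ∀ g x, P g x = (D g).ev (fun j => SignType.sign ((D g).te (fun h => P h x) j))
      (fun h => P h x) x) (x₀ : σ → ℝ)
    (Qf : (∀ g, Fin (D g).k → SignType) → Fin s → (σ → ℝ) → ℝ)
    (hQf : ∀ τ g x, Qf τ g x = (D g).ev (τ g) (fun h => Qf τ h x) x)
    (hyp : ∀ τ : ∀ g, Fin (D g).k → SignType, x₀ ∈ dom D τ (Qf τ) →
        (∀ g, ∀ᶠ y in 𝓝 x₀, SignType.sign (Qf τ g y) = SignType.sign (Qf τ g x₀)) ∧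
        ∀ g j, ∀ᶠ y in 𝓝 x₀, SignType.sign ((D g).te (fun h => Qf τ h y) j) =
          SignType.sign ((D g).te (fun h => Qf τ h x₀) j)) (g : Fin s) :
    ∀ᶠ y in 𝓝 x₀, SignType.sign (P g y) = SignType.sign (P g x₀) := by
  set τ : ∀ g, Fin (D g).k → SignType :=
    fun g j => SignType.sign ((D g).te (fun h => P h x₀) j) with hτ
  obtain ⟨Q, hQe⟩ : ∃ Q, Q = Qf τ := ⟨_, rfl⟩
  have hQ : ∀ g x, Q g x = (D g).ev (τ g) (fun h => Q h x) x := by
    rw [hQe]
    exact hQf τ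
  -- the values at the point
  have h1 : ∀ g, Q g x₀ = P g x₀ := by
    intro g
    induction hm : (g : ℕ) using Nat.strong_induction_on generalizing g with
    | _ m ih =>
      rw [hQ g, hP g]
      exact GD.ev_congr (hD g) (τ g) (fun h hh => ih h (by rw [← hm]; exact hh) h rfl) x₀
  have h1' : (fun h => Q h x₀) = fun h => P h x₀ := funext h1
  -- the point is in the domain
  have han : ∀ g, (D g).an (τ g) fun h => Q h x₀ := by
    intro g
    rw [h1']
    exact GD.an_of_ok (hD g) _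
  have h2 : x₀ ∈ dom D τ Q := by
    intro g
    refine ⟨?_, han g⟩
    induction hm : (g : ℕ) using Nat.strong_induction_on generalizing g with
    | _ m ih =>
      have h3 := GD.ev_analytic (hD g) (τ g) Q x₀
        (fun h hh => ih h (by rw [← hm]; exact hh) h rfl) (han g)
      exact h3.congr (Eventually.of_forall fun y => (hQ g y).symm)
  obtain ⟨h3, h4⟩ := hyp τ (by rw [← hQe]; exact h2)
  rw [← hQe] at h3 h4
  -- the circuit agrees with its branch near the point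
  have h5 : ∀ g, ∀ᶠ y in 𝓝 x₀, P g y = Q g y := by
    intro g
    induction hm : (g : ℕ) using Nat.strong_induction_on generalizing g with
    | _ m ih =>
      have h6 : ∀ᶠ y in 𝓝 x₀, ∀ h, h < g → P h y = Q h y := by
        refine eventually_all.2 fun h => ?_
        by_cases hh : h < g
        · filter_upwards [ih h (by rw [← hm]; exact hh) h rfl] with t ht _
          exact ht
        · exact Eventually.of_forall fun t ht => absurd ht hh
      have h7 : ∀ᶠ y in 𝓝 x₀, ∀ j, SignType.sign ((D g).te (fun h => Q h y) j) = τ g j := by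
        refine eventually_all.2 fun j => ?_
        filter_upwards [h4 g j] with t ht
        rw [ht, h1']
      filter_upwards [h6, h7] with t ht6 ht7
      rw [hP g, hQ g]
      have h8 : (fun j => SignType.sign ((D g).te (fun h => P h t) j)) = τ g := by
        funext j
        rw [← ht7 j, GD.te_congr (hD g) ht6 j]
      rw [h8]
      exact GD.ev_congr (hD g) (τ g) ht6 _
  filter_upwards [h5 g, h3 g] with t ht5 ht3
  rw [ht5, ht3, h1]

end data

/-- the data of a circuit -/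
theorem exists_data {σ : Type} [Fintype σ] {s w d : ℕ} {P : Fin s → (σ → ℝ) → ℝ}
    (hP : IsCircuitP d w P) : ∃ (depth : Fin s → ℕ) (D : Fin s → GD σ s w),
      (∀ g, depth g ≤ d) ∧ (∀ g, (D g).ok depth g) ∧
      ∀ g x, P g x = (D g).ev (fun j => SignType.sign ((D g).te (fun h => P h x) j))
        (fun h => P h x) x := by
  obtain ⟨depth, hP⟩ := hP
  have h1 : ∀ g, ∃ D : GD σ s w, D.ok depth g ∧ ∀ x, P g x =
      D.ev (fun j => SignType.sign (D.te (fun h => P h x) j)) (fun h => P h x) x := by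
    intro g
    rcases (hP g).2 with ⟨a₀, a, c, h1, h2⟩ | ⟨a₀, a, e, h0, h1, h2⟩ | ⟨t, f, h0, hf, h1, h2⟩
    · exact ⟨GD.sum a₀ a c, h1, h2⟩
    · exact ⟨GD.prod a₀ a e, ⟨h0, h1⟩, h2⟩
    · obtain ⟨k, h, G, hG⟩ := hf
      refine ⟨GD.fn t k h G, ⟨h0, h1, fun y => ⟨(hG y).1, (hG y).2.1⟩⟩, fun x => ?_⟩
      rw [h2 x]
      exact (hG _).2.2
  choose D hD1 hD2 using h1
  exact ⟨depth, D, fun g => (hP g).1, hD1, hD2⟩

/-- **one circuit with piecewise analytic gates** -/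
theorem tests_branch : ∃ c : ℝ, 0 < c ∧ ∀ (n d w s : ℕ)
    (P : Fin s → (Fin n × Fin n → ℝ) → ℝ), 1 ≤ d → 1 ≤ w → IsCircuitP d w P →
    (s : ℝ) + (n : ℝ) ^ w < Real.exp (c * (n : ℝ) ^ (1 / ((Nat.fib (2 * d + 3) : ℝ) - 1))) →
    ∀ᵐ X : Fin n × Fin n → ℝ, ∀ z, cof z X ≠ 0 ∧ ∀ g,
      ∀ᶠ y in 𝓝 (pr z X), SignType.sign (P g y) = SignType.sign (P g (pr z X)) := by
  obtain ⟨c, hc, h⟩ := tests_nhds
  refine ⟨c, hc, fun n d w s P hd hw hP hlt => ?_⟩
  obtain ⟨depth, D, hd1, hD, hPD⟩ := exists_data hP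
  choose Qf hQf using fun τ : ∀ g, Fin (D g).k → SignType => exists_branch D hD τ
  have h1 := ae_all_iff.2 fun τ : ∀ g, Fin (D g).k → SignType =>
    h n d w s (dom D τ (Qf τ)) (Qf τ) hd hw (isOpen_dom D τ (Qf τ))
      (branch_circuit hD hd1 τ (hQf τ)) hlt
  have h2 := ae_all_iff.2 fun τ : ∀ g, Fin (D g).k → SignType => ae_all_iff.2 fun g : Fin s =>
    ae_all_iff.2 fun j : Fin (D g).k =>
    h n d w s (dom D τ (Qf τ)) (tst D (Qf τ) g j) hd hw (isOpen_dom D τ (Qf τ))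
      (tst_circuit hD hd1 τ (hQf τ) g j) hlt
  filter_upwards [h1, h2, ae_all_iff.2 fun z => ae_cof_ne_zero z] with X hX1 hX2 hX3 z
  refine ⟨hX3 z, fun g => ?_⟩
  refine at_point hD hPD (pr z X) Qf hQf (fun τ hτ => ⟨(hX1 τ z).2 hτ, fun g j => ?_⟩) g
  have h3 := (hX2 τ g j z).2 hτ g
  have h4 : ∀ x, tst D (Qf τ) g j g x = (D g).te (fun h => Qf τ h x) j := by
    intro x
    unfold tst
    rw [if_pos rfl]
  simp only [h4] at h3
  exact h3

/-- **sign tests** -/
theorem sign_tests : ∃ c : ℝ, 0 < c ∧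
    ∀ (n d w s : ℕ) (P : ℕ → Fin s → (Fin n × Fin n → ℝ) → ℝ), 1 ≤ d → 1 ≤ w →
      (∀ i, IsCircuitP d w (P i)) →
      (s : ℝ) + (n : ℝ) ^ w < Real.exp (c * (n : ℝ) ^ (1 / ((Nat.fib (2 * d + 3) : ℝ) - 1))) →
      ∀ᵐ X : Fin n × Fin n → ℝ, ∀ z, ∃ a t₀ : ℝ, a ≠ 0 ∧
        (∀ t, (Matrix.of fun i j => X (i, j) + if (i, j) = z then t else 0).permanent =
          a * (t - t₀)) ∧
        ∀ i g, ∀ᶠ Y in 𝓝 (X + Pi.single z t₀), SignType.sign (P i g Y) =
          SignType.sign (P i g (X + Pi.single z t₀)) := by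
  obtain ⟨c, hc, h⟩ := tests_branch
  refine ⟨c, hc, fun n d w s P hd hw hP hlt => ?_⟩
  have h2 := ae_all_iff.2 fun i => h n d w s (P i) hd hw (hP i) hlt
  filter_upwards [h2] with X hX z
  have hcof := (hX 0 z).1
  have hEl : ∀ t : ℝ, t • El z = Pi.single z t := by
    intro t
    rw [El, ← Pi.single_smul, smul_eq_mul, mul_one]
  have hperm : ∀ t, (Matrix.of fun i j => X (i, j) + if (i, j) = z then t else 0).permanent =
      Pool.XN.permF n (X + t • El z) := by
    intro t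
    unfold Pool.XN.permF
    congr 1
    ext i j
    rw [hEl, Matrix.of_apply, Matrix.of_apply, Pi.add_apply, Pi.single_apply]
  set t₀ : ℝ := -(Pool.XN.permF n X / cof z X) with ht₀
  have hpr : pr z X = X + Pi.single z t₀ := by
    rw [pr, ← hEl, ht₀, neg_smul, sub_eq_add_neg]
  refine ⟨cof z X, t₀, hcof, fun t => ?_, fun i g => ?_⟩
  · rw [hperm, permF_aff, ht₀]
    field_simp
    ring
  · rw [← hpr]
    exact (hX i z).2 g

end Pool.XMN
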