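import Pool.Agent.XN.Real

/-!
# XMN: tests by circuits with analytic gates: definitions
-/

set_option autoImplicit false

namespace Pool.XMN

open Finset MvPolynomial Filter Topology Asymptotics

/-- `P 0, ..., P (s - 1)` are the functions at the gates of a circuit all gates of which are defined
and analytic on `U` -/
def IsCircuitOn {σ : Type} [Fintype σ] (U : Set (σ → ℝ)) (d w : ℕ) {s : ℕ}
    (P : Fin s → (σ → ℝ) → ℝ) : Prop :=
  ∃ depth : Fin s → ℕ, ∀ g, depth g ≤ d ∧
    ((∃ (a₀ : ℝ) (a : σ → ℝ) (c : Fin s → ℝ), (∀ h, c h ≠ 0 → h < g ∧ depth h ≤ depth g) ∧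
        ∀ x ∈ U, P g x = a₀ + ∑ v, a v * x v + ∑ h, c h * P h x) ∨
     (∃ (a₀ : ℝ) (a : σ → ℕ) (e : Fin s → ℕ), 0 < depth g ∧
        (∀ h, e h ≠ 0 → h < g ∧ depth h < depth g) ∧
        ∀ x ∈ U, P g x = a₀ * (∏ v, x v ^ a v) * ∏ h, P h x ^ e h) ∨
     (∃ (t : Fin w → Fin s) (f : (Fin w → ℝ) → ℝ), 0 < depth g ∧
        (∀ i, t i < g ∧ depth (t i) < depth g) ∧
        ∀ x ∈ U, AnalyticAt ℝ f (fun i => P (t i) x) ∧ P g x = f fun i => P (t i) x))

/-- the matrix with the entry `1` in the place `z` and `0` elsewhere -/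
noncomputable def El {n : ℕ} (z : Fin n × Fin n) : Fin n × Fin n → ℝ := Pi.single z 1

/-- the cofactor of the entry in the place `z` -/
noncomputable def cof {n : ℕ} (z : Fin n × Fin n) (X : Fin n × Fin n → ℝ) : ℝ :=
  Pool.XN.permF n (X + El z) - Pool.XN.permF n X

/-- the zero of the permanent on the line through `X` in the direction of the entry `z` -/
noncomputable def pr {n : ℕ} (z : Fin n × Fin n) (X : Fin n × Fin n → ℝ) : Fin n × Fin n → ℝ :=
  X - (Pool.XN.permF n X / cof z X) • El z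

end Pool.XMN
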