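import Pool.Agent.XMN.Gadget
import Pool.Agent.XMN.Defs
import Pool.Agent.XM.Close

/-!
# XMN: the ratio of the permanent and the cofactor at a point close to the gadget
-/

set_option autoImplicit false

namespace Pool.XMN

open Finset MvPolynomial Pool.XM

section aff

/-- the permanent is affine in each entry -/
theorem perm_aff_at {n : ℕ} (z : Fin n × Fin n) {A : Type} [CommRing A]
    (M : Matrix (Fin n) (Fin n) A) (t : A) :
    (Matrix.of fun i j => M i j + if (i, j) = z then t else 0).permanent =
      M.permanent + t * ((Matrix.of fun i j => M i j + if (i, j) = z then 1 else 0).permanent -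
        M.permanent) := by
  classical
  have key : ∀ t : A, (Matrix.of fun i j => M i j + if (i, j) = z then t else 0).permanent =
      M.permanent + t * ∑ σ ∈ (univ : Finset (Equiv.Perm (Fin n))).filter
        (fun σ => σ z.2 = z.1), ∏ i ∈ univ.erase z.2, M (σ i) i := by
    intro t
    unfold Matrix.permanent
    rw [sum_filter, mul_sum, ← sum_add_distrib]
    refine sum_congr rfl fun σ _ => ?_
    simp only [Matrix.of_apply]
    by_cases h : σ z.2 = z.1
    · rw [if_pos h, ← mul_prod_erase univ _ (mem_univ z.2),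
        ← mul_prod_erase univ (fun i => M (σ i) i) (mem_univ z.2), h, if_pos rfl]
      have h1 : ∏ i ∈ univ.erase z.2, (M (σ i) i + if (σ i, i) = z then t else 0) =
          ∏ i ∈ univ.erase z.2, M (σ i) i := by
        refine prod_congr rfl fun i hi => ?_
        rw [if_neg, add_zero]
        intro hc
        exact ne_of_mem_erase hi (congrArg Prod.snd hc)
      rw [h1, add_mul]
    · rw [if_neg h, mul_zero, add_zero]
      refine prod_congr rfl fun i _ => ?_
      rw [if_neg, add_zero]
      intro hc
      apply h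
      have h1 := congrArg Prod.snd hc
      have h2 := congrArg Prod.fst hc
      simp only at h1 h2
      rw [h1] at h2
      exact h2
  rw [key t, key 1, one_mul, add_sub_cancel_left]

/-- the gadget at an arbitrary entry -/
theorem gadget_at (m n : ℕ) (hm : 1 ≤ m) (hn : 3 * m + 1 ≤ n) (z : Fin n × Fin n) :
    ∃ (C1 : Fin n × Fin n → ℚ) (D : Fin n × Fin n → Option (Fin m × Fin m)),
      C1 z = 0 ∧ D z = none ∧
      ∀ (A : Type) [CommRing A] [Algebra ℚ A] (t : A) (y : Fin m × Fin m → A),
        (Matrix.of fun i j => algebraMap ℚ A (C1 (i, j)) + (D (i, j)).elim 0 y +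
          if (i, j) = z then t else 0).permanent =
          t + (Matrix.of fun i j => y (i, j)).permanent := by
  classical
  obtain ⟨C1, D, h1, h2, -, h3⟩ := perm_gadget ℚ m n hm hn z.1
  set π : Equiv.Perm (Fin n) := Equiv.swap z.1 z.2 with hπ
  have hπz : π z.2 = z.1 := Equiv.swap_apply_right _ _
  refine ⟨fun p => C1 (p.1, π p.2), fun p => D (p.1, π p.2), ?_, ?_, fun A _ _ t y => ?_⟩
  · show C1 (z.1, π z.2) = 0
    rw [hπz, h1]
  · show D (z.1, π z.2) = none
    rw [hπz, h2]
  · rw [← h3 A t y]
    have h4 : (Matrix.of fun i j => algebraMap ℚ A (C1 (i, π j)) + (D (i, π j)).elim 0 y +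
        if (i, j) = z then t else 0) =
        (Matrix.of fun i j => algebraMap ℚ A (C1 (i, j)) + (if i = z.1 ∧ j = z.1 then t else 0) +
          (D (i, j)).elim 0 y).submatrix id π := by
      ext i j
      rw [Matrix.submatrix_apply, Matrix.of_apply, Matrix.of_apply, add_right_comm]
      congr 2
      have h5 : (i, j) = z ↔ (id i = z.1 ∧ π j = z.1) := by
        constructor
        · rintro rfl
          exact ⟨rfl, hπz⟩
        · rintro ⟨h6, h7⟩
          refine Prod.ext h6 ?_
          exact π.injective (h7.trans hπz.symm)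
      simp only [h5]
    rw [h4]
    exact Matrix.permanent_permute_rows π _

end aff

section ratio

variable {K Γ ρ : Type} [Field K] [LinearOrderedCommGroupWithZero Γ] (v : Valuation K Γ)

/-- division by a power series close to one -/
theorem small_of_mul {Y A s : MvPowerSeries ρ K}
    (hA : ∀ δ, v (MvPowerSeries.coeff δ (A - 1)) < 1) (h : Y * A = s)
    (hs : ∀ δ, v (MvPowerSeries.coeff δ s) < 1) : ∀ δ, v (MvPowerSeries.coeff δ Y) < 1 := by
  classical
  have key : ∀ (n : ℕ) (δ : ρ →₀ ℕ), δ.degree = n → v (MvPowerSeries.coeff δ Y) < 1 := by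
    intro n
    induction n using Nat.strong_induction_on with
    | _ n ih =>
      intro δ hδ
      have h1 : Y = s - Y * (A - 1) := by
        rw [← h]
        ring
      have h2 : MvPowerSeries.coeff δ Y = MvPowerSeries.coeff δ s -
          ∑ p ∈ antidiagonal δ, MvPowerSeries.coeff p.1 Y * MvPowerSeries.coeff p.2 (A - 1) := by
        conv_lhs => rw [h1]
        rw [map_sub, MvPowerSeries.coeff_mul]
      by_contra hcon
      have hcon' : 1 ≤ v (MvPowerSeries.coeff δ Y) := not_lt.1 hcon
      have hpos : v (MvPowerSeries.coeff δ Y) ≠ 0 := fun h0 => by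
        rw [h0] at hcon'
        exact absurd hcon' (not_le.2 zero_lt_one)
      have h3 : v (MvPowerSeries.coeff δ Y) < v (MvPowerSeries.coeff δ Y) := by
        conv_lhs => rw [h2]
        refine lt_of_le_of_lt (Valuation.map_sub v _ _) (max_lt ?_ ?_)
        · exact lt_of_lt_of_le (hs δ) hcon'
        · refine Valuation.map_sum_lt v hpos fun p hp => ?_
          rw [map_mul]
          have hdeg : Finsupp.degree δ = Finsupp.degree p.1 + Finsupp.degree p.2 := by
            rw [← mem_antidiagonal.1 hp, map_add]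
          by_cases hp2 : p.2.degree = 0
          · have hp20 : p.2 = 0 := (Finsupp.degree_eq_zero_iff _).1 hp2
            have hp1 : p.1 = δ := by
              have := mem_antidiagonal.1 hp
              rwa [hp20, add_zero] at this
            rw [hp1]
            calc v (MvPowerSeries.coeff δ Y) * v (MvPowerSeries.coeff p.2 (A - 1)) <
                v (MvPowerSeries.coeff δ Y) * 1 :=
                  mul_lt_mul_of_pos_left (hA p.2) (zero_lt_iff.2 hpos)
              _ = _ := mul_one _
          · have h4 := ih p.1.degree (by omega) p.1 rfl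
            refine lt_of_lt_of_le ?_ hcon'
            exact mul_lt_one_of_nonneg_of_lt_one_left zero_le h4 (hA p.2).le
      exact lt_irrefl _ h3
  exact fun δ => key _ δ rfl

end ratio

section close

variable {K Γ L : Type} [Field K] [LinearOrderedCommGroupWithZero Γ] {v : Valuation K Γ}

theorem Cl.prod {ι : Type} (s : Finset ι) (p q : ι → MvPolynomial L K)
    (h : ∀ i ∈ s, Cl v (p i) (q i)) : Cl v (∏ i ∈ s, p i) (∏ i ∈ s, q i) := by
  classical
  induction s using Finset.induction_on with
  | empty => rw [prod_empty, prod_empty]; exact Cl.refl intP_one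
  | insert a s ha ih =>
    rw [prod_insert ha, prod_insert ha]
    exact (h a (mem_insert_self _ _)).mul (ih fun i hi => h i (mem_insert_of_mem hi))

theorem Cl.perm {n : ℕ} (M N : Matrix (Fin n) (Fin n) (MvPolynomial L K))
    (h : ∀ i j, Cl v (M i j) (N i j)) : Cl v M.permanent N.permanent := by
  unfold Matrix.permanent
  exact Cl.sum _ _ _ fun σ _ => Cl.prod _ _ _ fun i _ => h _ _

theorem cl_C {a b : K} (h : v (a - b) < 1) (hb : v b ≤ 1) :
    Cl v (C a : MvPolynomial L K) (C b) := by
  refine ⟨intP_C ?_, intP_C hb, ?_⟩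
  · have : a = (a - b) + b := by ring
    rw [this]
    exact Valuation.map_add_le v h.le hb
  · rw [← C_sub]
    exact smP_C h

theorem v_perm_sub_lt {n : ℕ} (M N : Matrix (Fin n) (Fin n) K) (h : ∀ i j, v (M i j - N i j) < 1)
    (hN : ∀ i j, v (N i j) ≤ 1) : v (M.permanent - N.permanent) < 1 := by
  have h1 := (Cl.perm (v := v) (M.map (C : K →+* MvPolynomial Empty K))
    (N.map (C : K →+* MvPolynomial Empty K)) (fun i j => cl_C (h i j) (hN i j))).sub
  rw [← Pool.CDep.map_permanent', ← Pool.CDep.map_permanent', ← C_sub] at h1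
  have h2 := h1 0
  rwa [coeff_C, if_pos rfl] at h2

variable {n m : ℕ}

/-- the entry in the place `z` of a matrix with permanent zero which is close to the gadget -/
theorem v_entry_lt (z : Fin n × Fin n) (C0 C1 : Fin n × Fin n → K)
    (h0 : (Matrix.of fun i j => C0 (i, j)).permanent = 0) (hz : C1 z = 0)
    (h1 : (Matrix.of fun i j => C1 (i, j)).permanent = 0)
    (h2 : (Matrix.of fun i j => C1 (i, j) + if (i, j) = z then 1 else 0).permanent = 1)
    (hC1 : ∀ s, v (C1 s) ≤ 1) (h : ∀ s, s ≠ z → v (C0 s - C1 s) < 1) : v (C0 z) < 1 := by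
  classical
  set M : Matrix (Fin n) (Fin n) K := Matrix.of fun i j => if (i, j) = z then 0 else C0 (i, j)
    with hM
  have hMC : ∀ i j, v (M i j - C1 (i, j)) < 1 := by
    intro i j
    rw [hM, Matrix.of_apply]
    split_ifs with hij
    · rw [hij, hz, sub_zero, map_zero]
      exact zero_lt_one
    · exact h _ hij
  have h3 : (Matrix.of fun i j => C0 (i, j)) =
      Matrix.of fun i j => M i j + if (i, j) = z then C0 z else 0 := by
    ext i j
    simp only [hM, Matrix.of_apply]
    split_ifs with hij
    · rw [zero_add, hij]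
    · rw [add_zero]
  have h4 : v M.permanent < 1 := by
    have := v_perm_sub_lt (v := v) M (Matrix.of fun i j => C1 (i, j)) (fun i j => hMC i j)
      (fun i j => hC1 _)
    rwa [h1, sub_zero] at this
  have h5 : v ((Matrix.of fun i j => M i j + if (i, j) = z then 1 else 0).permanent - 1) < 1 := by
    have := v_perm_sub_lt (v := v) (Matrix.of fun i j => M i j + if (i, j) = z then 1 else 0)
      (Matrix.of fun i j => C1 (i, j) + if (i, j) = z then 1 else 0) (fun i j => by
        simp only [Matrix.of_apply]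
        rw [add_sub_add_right_eq_sub]
        exact hMC i j) (fun i j => by
        simp only [Matrix.of_apply]
        refine Valuation.map_add_le v (hC1 _) ?_
        split_ifs
        · rw [map_one]
        · rw [map_zero]; exact zero_le)
    rwa [h2] at this
  have h6 := perm_aff_at z M (C0 z)
  rw [← h3, h0] at h6
  set c : K := (Matrix.of fun i j => M i j + if (i, j) = z then 1 else 0).permanent -
    M.permanent with hc
  have h7 : v (c - 1) < 1 := by
    have : c - 1 = ((Matrix.of fun i j => M i j + if (i, j) = z then 1 else 0).permanent - 1) -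
        M.permanent := by
      rw [hc]; ring
    rw [this]
    exact lt_of_le_of_lt (Valuation.map_sub v _ _) (max_lt h5 h4)
  have h8 : v c = 1 := by
    have : c = 1 + (c - 1) := by ring
    rw [this]
    exact Valuation.map_one_add_of_lt v h7
  have h9 : C0 z * c = -M.permanent := by linear_combination -h6
  have h10 : v (C0 z) * v c < 1 := by
    rw [← map_mul, h9, Valuation.map_neg]
    exact h4
  rwa [h8, mul_one] at h10

/-- the permanent of the matrix `C0 + y + t E` -/
noncomputable def Mx {F : Type} [CommRing F] (C0 : Fin n × Fin n → F) (z : Fin n × Fin n)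
    (D : Fin n × Fin n → Option (Fin m × Fin m)) (t : MvPolynomial (Fin m × Fin m) F) :
    MvPolynomial (Fin m × Fin m) F :=
  (Matrix.of fun i j => C (C0 (i, j)) + (D (i, j)).elim 0 X +
    if (i, j) = z then t else 0).permanent

theorem map_Mx {F F' : Type} [CommRing F] [CommRing F'] (f : F →+* F') (C0 : Fin n × Fin n → F)
    (z : Fin n × Fin n) (D : Fin n × Fin n → Option (Fin m × Fin m))
    (t : MvPolynomial (Fin m × Fin m) F) :
    map f (Mx C0 z D t) = Mx (fun s => f (C0 s)) z D (map f t) := by
  unfold Mx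
  rw [Pool.CDep.map_permanent']
  congr 1
  ext1 i j
  rw [Matrix.map_apply, Matrix.of_apply, Matrix.of_apply, map_add, map_add, map_C]
  congr 1
  · congr 1
    cases D (i, j) with
    | none => exact map_zero _
    | some l => exact map_X _ _
  · split_ifs
    · rfl
    · exact map_zero _

theorem Mx_close (z : Fin n × Fin n) (D : Fin n × Fin n → Option (Fin m × Fin m))
    (C0 C1 : Fin n × Fin n → K) (h : ∀ s, v (C0 s - C1 s) < 1) (h1 : ∀ s, v (C1 s) ≤ 1)
    {t : MvPolynomial (Fin m × Fin m) K} (ht : IntP v t) :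
    Cl v (Mx C0 z D t) (Mx C1 z D t) := by
  unfold Mx
  refine Cl.perm _ _ fun i j => ?_
  rw [Matrix.of_apply, Matrix.of_apply]
  refine ((cl_C (h _) (h1 _)).add (Cl.refl ?_)).add (Cl.refl ?_)
  · cases D (i, j) with
    | none => exact intP_zero
    | some l => exact intP_X l
  · split_ifs
    · exact ht
    · exact intP_zero

theorem Mx_gadget (z : Fin n × Fin n) (C1 : Fin n × Fin n → ℚ)
    (D : Fin n × Fin n → Option (Fin m × Fin m))
    (hg : ∀ (A : Type) [CommRing A] [Algebra ℚ A] (t : A) (y : Fin m × Fin m → A),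
        (Matrix.of fun i j => algebraMap ℚ A (C1 (i, j)) + (D (i, j)).elim 0 y +
          if (i, j) = z then t else 0).permanent = t + (Matrix.of fun i j => y (i, j)).permanent)
    [Algebra ℚ K] (t : MvPolynomial (Fin m × Fin m) K) :
    Mx (fun s => algebraMap ℚ K (C1 s)) z D t = t + Pool.CDep.permP m K := by
  unfold Mx Pool.CDep.permP
  rw [← hg (MvPolynomial (Fin m × Fin m) K) t X]
  rfl

end close

section ratio

variable {n m : ℕ}

theorem constantCoeff_Mx {F : Type} [CommRing F] (C0 : Fin n × Fin n → F) (z : Fin n × Fin n)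
    (D : Fin n × Fin n → Option (Fin m × Fin m)) (t : MvPolynomial (Fin m × Fin m) F) :
    constantCoeff (Mx C0 z D t) = (Matrix.of fun i j => C0 (i, j) +
      if (i, j) = z then constantCoeff t else 0).permanent := by
  unfold Mx
  rw [Pool.CDep.map_permanent']
  congr 1
  ext1 i j
  rw [Matrix.map_apply, Matrix.of_apply, Matrix.of_apply, map_add, map_add, constantCoeff_C]
  congr 1
  · have : constantCoeff ((D (i, j)).elim 0 X : MvPolynomial (Fin m × Fin m) F) = 0 := by
      cases D (i, j) with
      | none => exact map_zero _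
      | some l => exact constantCoeff_X (R := F) l
    rw [this, add_zero]
  · split_ifs
    · rfl
    · exact map_zero _

theorem coe_sub' {ρ F : Type} [CommRing F] (p q : MvPolynomial ρ F) :
    ((p - q : MvPolynomial ρ F) : MvPowerSeries ρ F) = (p : MvPowerSeries ρ F) - q := by
  ext δ
  rw [_root_.map_sub, MvPolynomial.coeff_coe, MvPolynomial.coeff_coe, MvPolynomial.coeff_coe,
    coeff_sub]

/-- **the ratio of the permanent and the cofactor** -/
theorem close_ratio {Γ : Type} [LinearOrderedCommGroupWithZero Γ]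
    (v : Valuation (LaurentSeries ℝ) Γ) (hm : 1 ≤ m) (z : Fin n × Fin n)
    (C1 : Fin n × Fin n → ℚ) (D : Fin n × Fin n → Option (Fin m × Fin m)) (hz : C1 z = 0)
    (hg : ∀ (A : Type) [CommRing A] [Algebra ℚ A] (t : A) (y : Fin m × Fin m → A),
        (Matrix.of fun i j => algebraMap ℚ A (C1 (i, j)) + (D (i, j)).elim 0 y +
          if (i, j) = z then t else 0).permanent = t + (Matrix.of fun i j => y (i, j)).permanent)
    (C0 : Fin n × Fin n → ℝ) (hC0 : Pool.XN.permF n C0 = 0)
    (h1 : ∀ s, s ≠ z → v (HahnSeries.C (C0 s) - (C1 s : LaurentSeries ℝ)) < 1)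
    (h2 : ∀ q : ℚ, q ≠ 0 → v (q : LaurentSeries ℝ) = 1)
    (hc : constantCoeff (Mx C0 z D 1 - Mx C0 z D 0) ≠ 0) (δ : Fin m × Fin m →₀ ℕ) :
    v (HahnSeries.C (MvPowerSeries.coeff δ ((Mx C0 z D 0 : MvPowerSeries _ ℝ) *
      ((Mx C0 z D 1 - Mx C0 z D 0 : MvPolynomial _ ℝ) : MvPowerSeries _ ℝ)⁻¹)) -
      coeff δ (Pool.CDep.permP m (LaurentSeries ℝ))) < 1 := by
  classical
  set K := LaurentSeries ℝ with hK
  set ι : ℝ →+* K := HahnSeries.C with hι
  have hq1 : ∀ q : ℚ, v (q : K) ≤ 1 := by
    intro q
    by_cases hq : q = 0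
    · rw [hq, Rat.cast_zero, map_zero]
      exact zero_le
    · exact (h2 q hq).le
  have hal : ∀ q : ℚ, algebraMap ℚ K q = (q : K) := fun q => eq_ratCast _ q
  have hp0 : (Matrix.of fun i j => (C1 (i, j) : K)).permanent = 0 := by
    have h3 := hg K 0 0
    have h4 : (Matrix.of fun i j => (0 : Fin m × Fin m → K) (i, j)).permanent = 0 := by
      unfold Matrix.permanent
      refine sum_eq_zero fun σ _ => ?_
      exact prod_eq_zero (mem_univ ⟨0, hm⟩) rfl
    rw [h4, add_zero] at h3
    rw [← h3]
    congr 1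
    ext1 i j
    rw [Matrix.of_apply, Matrix.of_apply, hal]
    have h5 : (D (i, j)).elim 0 (0 : Fin m × Fin m → K) = 0 := by cases D (i, j) <;> rfl
    rw [h5, add_zero]
    split_ifs <;> rw [add_zero]
  have hp1 : (Matrix.of fun i j => (C1 (i, j) : K) + if (i, j) = z then 1 else 0).permanent =
      1 := by
    have h3 := hg K 1 0
    have h4 : (Matrix.of fun i j => (0 : Fin m × Fin m → K) (i, j)).permanent = 0 := by
      unfold Matrix.permanent
      refine sum_eq_zero fun σ _ => ?_
      exact prod_eq_zero (mem_univ ⟨0, hm⟩) rfl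
    rw [h4, add_zero] at h3
    conv_rhs => rw [← h3]
    congr 1
    ext1 i j
    rw [Matrix.of_apply, Matrix.of_apply, hal]
    have h5 : (D (i, j)).elim 0 (0 : Fin m × Fin m → K) = 0 := by cases D (i, j) <;> rfl
    rw [h5, add_zero]
  have hzv : v (ι (C0 z)) < 1 := by
    refine v_entry_lt z (fun s => ι (C0 s)) (fun s => (C1 s : K)) ?_ ?_ hp0 hp1
      (fun s => hq1 _) h1
    · have h3 := Pool.CDep.map_permanent' ι (Matrix.of fun i j => C0 (i, j))
      have h4 : (Matrix.of fun i j => C0 (i, j)).permanent = 0 := hC0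
      rw [h4, map_zero] at h3
      exact h3.symm
    · show (C1 z : K) = 0
      rw [hz, Rat.cast_zero]
  have hall : ∀ s, v (ι (C0 s) - algebraMap ℚ K (C1 s)) < 1 := by
    intro s
    rw [hal]
    by_cases hs : s = z
    · rw [hs, hz, Rat.cast_zero, sub_zero]
      exact hzv
    · exact h1 s hs
  have hq1' : ∀ s, v (algebraMap ℚ K (C1 s)) ≤ 1 := fun s => by
    rw [hal]
    exact hq1 _
  have e0 : Cl v (Mx (fun s => ι (C0 s)) z D 0) (Pool.CDep.permP m K) := by
    have := Mx_close z D (fun s => ι (C0 s)) (fun s => algebraMap ℚ K (C1 s)) hall hq1'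
      (t := 0) intP_zero
    rwa [Mx_gadget z C1 D hg, zero_add] at this
  have e1 : Cl v (Mx (fun s => ι (C0 s)) z D 1) (1 + Pool.CDep.permP m K) := by
    have := Mx_close z D (fun s => ι (C0 s)) (fun s => algebraMap ℚ K (C1 s)) hall hq1'
      (t := 1) intP_one
    rwa [Mx_gadget z C1 D hg] at this
  have e2 : Cl v (Mx (fun s => ι (C0 s)) z D 1 - Mx (fun s => ι (C0 s)) z D 0) 1 := by
    have := e1.minus e0
    rwa [add_sub_cancel_right] at this
  set U := Mx C0 z D 0 with hU
  set A := Mx C0 z D 1 - Mx C0 z D 0 with hA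
  have hUK : map ι U = Mx (fun s => ι (C0 s)) z D 0 := by rw [hU, map_Mx, map_zero]
  have hAK : map ι A = Mx (fun s => ι (C0 s)) z D 1 - Mx (fun s => ι (C0 s)) z D 0 := by
    rw [hA, map_sub, map_Mx, map_Mx, map_zero, map_one]
  rw [← hAK] at e2
  rw [← hUK] at e0
  have hAc : MvPowerSeries.constantCoeff (A : MvPowerSeries (Fin m × Fin m) ℝ) ≠ 0 := by
    rw [← MvPowerSeries.coeff_zero_eq_constantCoeff_apply, MvPolynomial.coeff_coe]
    exact hc
  set Y0 : MvPowerSeries (Fin m × Fin m) ℝ := (U : MvPowerSeries _ ℝ) *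
    (A : MvPowerSeries _ ℝ)⁻¹ with hY0
  have hYA : Y0 * (A : MvPowerSeries (Fin m × Fin m) ℝ) = U := by
    rw [hY0, mul_assoc, MvPowerSeries.inv_mul_cancel _ hAc, mul_one]
  have hcoe : ∀ q : MvPolynomial (Fin m × Fin m) ℝ,
      MvPowerSeries.map ι (q : MvPowerSeries (Fin m × Fin m) ℝ) =
        ((map ι q : MvPolynomial (Fin m × Fin m) K) : MvPowerSeries (Fin m × Fin m) K) := by
    intro q
    ext δ
    rw [MvPowerSeries.coeff_map, MvPolynomial.coeff_coe, MvPolynomial.coeff_coe, coeff_map]
  have hfin := small_of_mul v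
    (Y := MvPowerSeries.map ι Y0 - ((Pool.CDep.permP m K : MvPolynomial _ K) :
      MvPowerSeries (Fin m × Fin m) K))
    (A := ((map ι A : MvPolynomial (Fin m × Fin m) K) : MvPowerSeries (Fin m × Fin m) K))
    (s := ((map ι U - Pool.CDep.permP m K * map ι A : MvPolynomial (Fin m × Fin m) K) :
      MvPowerSeries (Fin m × Fin m) K)) ?_ ?_ ?_ δ
  · rw [map_sub, MvPowerSeries.coeff_map, MvPolynomial.coeff_coe] at hfin
    exact hfin
  · intro δ'
    have h3 := e2.sub δ'
    rw [← MvPolynomial.coeff_coe, coe_sub', MvPolynomial.coe_one] at h3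
    exact h3
  · rw [sub_mul, ← hcoe A, ← map_mul, hYA, hcoe U, coe_sub' (map ι U), MvPolynomial.coe_mul,
      hcoe A]
  · intro δ'
    rw [MvPolynomial.coeff_coe]
    have h3 := (e0.minus ((Cl.refl e0.right).mul e2)).sub
    rw [mul_one, sub_self, sub_zero] at h3
    exact h3 δ'

end ratio

end Pool.XMN
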