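import Pool.Agent.XM.Ld
import Pool.Agent.XN.Reduce

/-!
# XMN, row X: extraction of the residue of a logarithm by few univariate polynomials

`p` is equal to `P ^ (e + 1) * h` up to terms of order greater than `N` at `C0`, `P = u + t a` on
the letters `y` (placed by `D`) and `t` (the place `z`).  A sum of `(m + 1) ^ 2` polynomials of one
variable in `p` at affine substitutions is the part of degree `m` of `u / a` up to multiples
of `ε`.
-/

set_option autoImplicit false

namespace Pool.XMN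

open Finset MvPolynomial Pool.XM

section ideal

variable {ρ : Type}

/-- the terms of total degree at least `k` in the variables and in `τ` -/
def JI (ρ : Type) (k : ℕ) : Ideal (MvPowerSeries ρ (PowerSeries ℝ)) where
  carrier := {f | ∀ δ : ρ →₀ ℕ, (PowerSeries.X : PowerSeries ℝ) ^ (k - δ.degree) ∣
    MvPowerSeries.coeff δ f}
  add_mem' := by
    intro f g hf hg δ
    rw [map_add]
    exact dvd_add (hf δ) (hg δ)
  zero_mem' := by
    intro δ
    rw [map_zero]
    exact dvd_zero _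
  smul_mem' := by
    classical
    intro c f hf δ
    rw [smul_eq_mul, MvPowerSeries.coeff_mul]
    refine dvd_sum fun q hq => ?_
    have h1 : Finsupp.degree δ = Finsupp.degree q.1 + Finsupp.degree q.2 := by
      rw [← mem_antidiagonal.1 hq, map_add]
    exact ((pow_dvd_pow _ (by omega)).trans (hf q.2)).mul_left _

theorem mem_JI {k : ℕ} {f : MvPowerSeries ρ (PowerSeries ℝ)} : f ∈ JI ρ k ↔
    ∀ δ : ρ →₀ ℕ, (PowerSeries.X : PowerSeries ℝ) ^ (k - δ.degree) ∣ MvPowerSeries.coeff δ f :=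
  Iff.rfl

theorem JI_zero (f : MvPowerSeries ρ (PowerSeries ℝ)) : f ∈ JI ρ 0 := by
  intro δ
  rw [Nat.zero_sub, pow_zero]
  exact one_dvd _

theorem JI_mul {k l : ℕ} {f g : MvPowerSeries ρ (PowerSeries ℝ)} (hf : f ∈ JI ρ k)
    (hg : g ∈ JI ρ l) : f * g ∈ JI ρ (k + l) := by
  classical
  intro δ
  rw [MvPowerSeries.coeff_mul]
  refine dvd_sum fun q hq => ?_
  have h1 : Finsupp.degree δ = Finsupp.degree q.1 + Finsupp.degree q.2 := by
    rw [← mem_antidiagonal.1 hq, map_add]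
  refine (pow_dvd_pow _ (show k + l - Finsupp.degree δ ≤
    (k - Finsupp.degree q.1) + (l - Finsupp.degree q.2) by omega)).trans ?_
  rw [pow_add]
  exact mul_dvd_mul (hf q.1) (hg q.2)

theorem JI_mono {k l : ℕ} (h : k ≤ l) {f : MvPowerSeries ρ (PowerSeries ℝ)} (hf : f ∈ JI ρ l) :
    f ∈ JI ρ k := fun δ => (pow_dvd_pow _ (by omega)).trans (hf δ)

theorem JI_pow {f : MvPowerSeries ρ (PowerSeries ℝ)} (hf : f ∈ JI ρ 1) (n : ℕ) :
    f ^ n ∈ JI ρ n := by
  induction n with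
  | zero => exact JI_zero _
  | succ n ih => rw [pow_succ]; exact JI_mul ih hf

theorem JI_prod {ι : Type} (s : Finset ι) (f : ι → MvPowerSeries ρ (PowerSeries ℝ)) (n : ι → ℕ)
    (hf : ∀ i ∈ s, f i ∈ JI ρ (n i)) : ∏ i ∈ s, f i ∈ JI ρ (∑ i ∈ s, n i) := by
  classical
  induction s using Finset.induction_on with
  | empty => rw [sum_empty]; exact JI_zero _
  | insert a s ha ih =>
    rw [prod_insert ha, sum_insert ha]
    exact JI_mul (hf a (mem_insert_self _ _)) (ih fun i hi => hf i (mem_insert_of_mem hi))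

theorem X_mem_JI (l : ρ) : (MvPowerSeries.X l : MvPowerSeries ρ (PowerSeries ℝ)) ∈ JI ρ 1 := by
  classical
  intro δ
  rw [MvPowerSeries.coeff_X]
  split_ifs with h
  · rw [h, Finsupp.degree_single, Nat.sub_self, pow_zero]
  · exact dvd_zero _

theorem C_mem_JI (k : ℕ) (r : PowerSeries ℝ) (h : (PowerSeries.X : PowerSeries ℝ) ^ k ∣ r) :
    (MvPowerSeries.C (σ := ρ) r : MvPowerSeries ρ (PowerSeries ℝ)) ∈ JI ρ k := by
  classical
  intro δ
  rw [MvPowerSeries.coeff_C]
  split_ifs with h0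
  · rw [h0, map_zero, Nat.sub_zero]
    exact h
  · exact dvd_zero _

/-- polynomials without terms of degree at most `N` at elements of order one -/
theorem aeval_mem_JI {σ : Type} (N : ℕ) (q : MvPolynomial σ ℝ)
    (hq : ∀ v, v.degree ≤ N → coeff v q = 0) (y : σ → MvPowerSeries ρ (PowerSeries ℝ))
    (hy : ∀ s, y s ∈ JI ρ 1) : aeval y q ∈ JI ρ (N + 1) := by
  classical
  rw [aeval_def, eval₂_eq]
  refine Ideal.sum_mem _ fun v hv => ?_
  have h1 : N + 1 ≤ v.degree := by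
    by_contra hcon
    exact (mem_support_iff.1 hv) (hq v (by omega))
  refine Ideal.mul_mem_left _ _ (JI_mono h1 ?_)
  exact JI_prod _ _ _ fun s _ => JI_pow (hy s) _

/-- truncated logarithms of elements which are equal up to terms of high order -/
theorem lgg_sub_mem (k d : ℕ) {f g a b : MvPowerSeries ρ (PowerSeries ℝ)} (h1 : f - g ∈ JI ρ k)
    (h2 : a - b ∈ JI ρ k) : lgg (F := ℝ) d f a - lgg (F := ℝ) d g b ∈ JI ρ k := by
  rw [← Ideal.Quotient.eq] at h1 h2 ⊢
  rw [map_lgg' (F := ℝ) (Ideal.Quotient.mk (JI ρ k)) (fun x => rfl),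
    map_lgg' (F := ℝ) (Ideal.Quotient.mk (JI ρ k)) (fun x => rfl), h1, h2]

end ideal

section trunc

variable {ρ : Type}

/-- **the residue lemma up to terms of high order** -/
theorem residue_trunc (m e : ℕ) (hm : 1 ≤ m) (a u w : MvPowerSeries ρ ℝ)
    (ha : MvPowerSeries.constantCoeff a ≠ 0) (hu : MvPowerSeries.constantCoeff u = 0)
    (hw : w * a = u) (h p g : MvPowerSeries ρ (PowerSeries ℝ))
    (hh : PowerSeries.constantCoeff (MvPowerSeries.constantCoeff h) ≠ 0)
    (hg : g = (MvPowerSeries.map (PowerSeries.C (R := ℝ)) u + MvPowerSeries.C PowerSeries.X *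
      MvPowerSeries.map (PowerSeries.C (R := ℝ)) a) ^ (e + 1) * h)
    (hpg : p - g ∈ JI ρ ((e + 2) * m + 1)) :
    (∃ v : (PowerSeries ℝ)ˣ, MvPowerSeries.constantCoeff p =
      (PowerSeries.X : PowerSeries ℝ) ^ (e + 1) * (v : PowerSeries ℝ)) ∧
    ∃ N : (ρ →₀ ℕ) → PowerSeries ℝ, ∀ δ : ρ →₀ ℕ, Finsupp.degree δ = m →
      PowerSeries.X ^ m * ((m : PowerSeries ℝ) * MvPowerSeries.coeff δ (lgg (F := ℝ) m p
        (MvPowerSeries.C (σ := ρ) (MvPowerSeries.constantCoeff p)))) =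
        (MvPowerSeries.constantCoeff p) ^ m * N δ ∧
      PowerSeries.coeff (m - 1) (N δ) = ((e : ℝ) + 1) * (m * MvPowerSeries.coeff δ w) := by
  classical
  obtain ⟨N0, hN0⟩ := residue (F := ℝ) m hm e a u w ha hu hw h hh g hg
  set P0 := MvPowerSeries.constantCoeff p with hP0
  set G0 := MvPowerSeries.constantCoeff g with hG0
  -- the constant terms
  have h1 : (PowerSeries.X : PowerSeries ℝ) ^ ((e + 2) * m + 1) ∣ P0 - G0 := by
    have h2 := hpg 0
    rw [map_zero, Nat.sub_zero, MvPowerSeries.coeff_zero_eq_constantCoeff_apply, map_sub] at h2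
    exact h2
  have hG1 : G0 = PowerSeries.X ^ (e + 1) *
      (PowerSeries.C (MvPowerSeries.constantCoeff a) ^ (e + 1) *
        MvPowerSeries.constantCoeff h) := by
    rw [hG0, hg, map_mul, map_pow, map_add, MvPowerSeries.constantCoeff_map, hu, map_zero,
      zero_add, map_mul, MvPowerSeries.constantCoeff_C, MvPowerSeries.constantCoeff_map, mul_pow]
    ring
  obtain ⟨r0, hr0⟩ := h1
  have hexp : (e + 2) * m + 1 = (e + 1) + ((e + 2) * m + 1 - (e + 1)) := by
    have : (e + 2) * 1 ≤ (e + 2) * m := Nat.mul_le_mul_left _ hm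
    omega
  have hexp' : (e + 2) * m + 1 - (e + 1) ≠ 0 := by
    have : (e + 2) * 1 ≤ (e + 2) * m := Nat.mul_le_mul_left _ hm
    omega
  have hP1 : P0 = PowerSeries.X ^ (e + 1) *
      (PowerSeries.C (MvPowerSeries.constantCoeff a) ^ (e + 1) *
        MvPowerSeries.constantCoeff h + PowerSeries.X ^ ((e + 2) * m + 1 - (e + 1)) * r0) := by
    have h2 : P0 = G0 + PowerSeries.X ^ ((e + 2) * m + 1) * r0 := by
      rw [← hr0]
      ring
    rw [h2, hG1]
    nth_rewrite 1 [hexp]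
    rw [pow_add]
    ring
  have hunit : IsUnit (PowerSeries.C (MvPowerSeries.constantCoeff a) ^ (e + 1) *
        MvPowerSeries.constantCoeff h + PowerSeries.X ^ ((e + 2) * m + 1 - (e + 1)) * r0) := by
    rw [PowerSeries.isUnit_iff_constantCoeff, map_add, map_mul, map_pow,
      PowerSeries.constantCoeff_C, map_mul, map_pow, PowerSeries.constantCoeff_X,
      zero_pow hexp', zero_mul, add_zero]
    exact IsUnit.mk0 _ (mul_ne_zero (pow_ne_zero _ ha) hh)
  obtain ⟨v, hv⟩ := hunit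
  rw [← hv] at hP1
  refine ⟨⟨v, hP1⟩, ?_⟩
  -- the coefficients
  have hlog := lgg_sub_mem (ρ := ρ) ((e + 2) * m + 1) m hpg
    (a := MvPowerSeries.C (σ := ρ) P0) (b := MvPowerSeries.C (σ := ρ) G0) (by
      rw [← map_sub]
      exact C_mem_JI _ _ ⟨r0, hr0⟩)
  have hpow : (PowerSeries.X : PowerSeries ℝ) ^ ((e + 2) * m + 1) ∣ P0 ^ m - G0 ^ m :=
    (Dvd.intro _ hr0.symm).trans (sub_dvd_pow_sub_pow _ _ _)
  obtain ⟨r2, hr2⟩ := hpow
  have hdiv : ∀ δ : ρ →₀ ℕ, Finsupp.degree δ = m → ∃ r3 : PowerSeries ℝ,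
      PowerSeries.X ^ m * ((m : PowerSeries ℝ) * MvPowerSeries.coeff δ (lgg (F := ℝ) m p
        (MvPowerSeries.C (σ := ρ) P0))) = P0 ^ m * (N0 δ + PowerSeries.X ^ (m + 1) * r3) := by
    intro δ hδ
    obtain ⟨r1, hr1⟩ := hlog δ
    rw [map_sub, hδ] at hr1
    have h2 := (hN0 δ hδ).1
    refine ⟨(↑v⁻¹ : PowerSeries ℝ) ^ m * ((m : PowerSeries ℝ) * r1 - r2 * N0 δ), ?_⟩
    have h3 : MvPowerSeries.coeff δ (lgg (F := ℝ) m p (MvPowerSeries.C (σ := ρ) P0)) =
        MvPowerSeries.coeff δ (lgg (F := ℝ) m g (MvPowerSeries.C (σ := ρ) G0)) +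
          PowerSeries.X ^ ((e + 2) * m + 1 - m) * r1 := by
      rw [← hr1]
      ring
    have h4 : (PowerSeries.X : PowerSeries ℝ) ^ m * PowerSeries.X ^ ((e + 2) * m + 1 - m) =
        PowerSeries.X ^ ((e + 2) * m + 1) := by
      rw [← pow_add]
      congr 1
      have : m ≤ (e + 2) * m := Nat.le_mul_of_pos_left _ (by omega)
      omega
    have h5 : P0 ^ m * (PowerSeries.X ^ (m + 1) * ((↑v⁻¹ : PowerSeries ℝ) ^ m *
        ((m : PowerSeries ℝ) * r1 - r2 * N0 δ))) =
        PowerSeries.X ^ ((e + 2) * m + 1) * ((m : PowerSeries ℝ) * r1 - r2 * N0 δ) := by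
      have h6 : (v : PowerSeries ℝ) ^ m * (↑v⁻¹ : PowerSeries ℝ) ^ m = 1 := by
        rw [← mul_pow, Units.mul_inv, one_pow]
      have h7 : (PowerSeries.X : PowerSeries ℝ) ^ ((e + 2) * m + 1) =
          (PowerSeries.X ^ (e + 1)) ^ m * PowerSeries.X ^ (m + 1) := by
        rw [← pow_mul, ← pow_add]
        congr 1
        ring
      rw [hP1, h7, mul_pow]
      linear_combination ((PowerSeries.X : PowerSeries ℝ) ^ (e + 1)) ^ m *
        PowerSeries.X ^ (m + 1) * ((m : PowerSeries ℝ) * r1 - r2 * N0 δ) * h6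
    have h8 : P0 ^ m = G0 ^ m + PowerSeries.X ^ ((e + 2) * m + 1) * r2 := by
      rw [← hr2]
      ring
    rw [mul_add (P0 ^ m), h5, h3]
    linear_combination h2 + (m : PowerSeries ℝ) * r1 * h4 + (-(N0 δ)) * h8
  choose r3 hr3 using hdiv
  refine ⟨fun δ => if hδ : Finsupp.degree δ = m then N0 δ + PowerSeries.X ^ (m + 1) * r3 δ hδ
    else 0, fun δ hδ => ?_⟩
  simp only [dif_pos hδ]
  refine ⟨hr3 δ hδ, ?_⟩
  rw [map_add, PowerSeries.coeff_X_pow_mul', if_neg (by omega), add_zero]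
  exact (hN0 δ hδ).2

end trunc

end Pool.XMN
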