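import Pool.Agent.XMN.Extract

/-!
# XMN, row X: extraction, second part
-/

set_option autoImplicit false

namespace Pool.XMN

open Finset MvPolynomial Pool.XM

/-- weights which pick the coefficient of degree `m`, with nonzero nodes -/
theorem exists_weights' (m : ℕ) : ∃ a t : Fin (m + 1) → ℝ, (∀ k, t k ≠ 0) ∧
    ∀ j, j ≤ m → ∑ k, a k * t k ^ j = if j = m then 1 else 0 := by
  classical
  set t : Fin (m + 1) → ℝ := fun k => ((k : ℕ) : ℝ) + 1 with ht
  have hinj : Function.Injective t := by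
    intro i j hij
    simp only [ht, add_left_inj, Nat.cast_inj] at hij
    exact Fin.ext hij
  set V := Matrix.vandermonde t with hV
  have hdet : IsUnit V.det := by
    rw [isUnit_iff_ne_zero, hV, Matrix.det_vandermonde_ne_zero_iff]
    exact hinj
  refine ⟨Matrix.vecMul (Pi.single (Fin.last m) 1) V⁻¹, t, fun k => ?_, fun j hj => ?_⟩
  · simp only [ht]
    positivity
  have h1 : Matrix.vecMul (Matrix.vecMul (Pi.single (Fin.last m) (1 : ℝ)) V⁻¹) V =
      Pi.single (Fin.last m) 1 := by
    rw [Matrix.vecMul_vecMul, Matrix.nonsing_inv_mul V hdet, Matrix.vecMul_one]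
  have h2 := congrFun h1 ⟨j, by omega⟩
  have h3 : Matrix.vecMul (Matrix.vecMul (Pi.single (Fin.last m) (1 : ℝ)) V⁻¹) V ⟨j, by omega⟩ =
      ∑ k, Matrix.vecMul (Pi.single (Fin.last m) (1 : ℝ)) V⁻¹ k * t k ^ j := by
    unfold Matrix.vecMul dotProduct
    rfl
  rw [← h3, h2, Pi.single_apply]
  have h4 : ((⟨j, by omega⟩ : Fin (m + 1)) = Fin.last m) ↔ j = m := by
    rw [Fin.ext_iff]
    simp
  simp only [h4]

section small

/-- power series with constant term zero, as Laurent series -/
def Sm (x : LaurentSeries ℝ) : Prop :=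
  ∃ r : PowerSeries ℝ, PowerSeries.constantCoeff r = 0 ∧
    algebraMap (PowerSeries ℝ) (LaurentSeries ℝ) r = x

theorem Sm.zero : Sm 0 := ⟨0, map_zero _, map_zero _⟩

theorem Sm.add {x y : LaurentSeries ℝ} (hx : Sm x) (hy : Sm y) : Sm (x + y) := by
  obtain ⟨r, hr, rfl⟩ := hx
  obtain ⟨q, hq, rfl⟩ := hy
  exact ⟨r + q, by rw [map_add, hr, hq, add_zero], map_add _ _ _⟩

theorem Sm.mul {x : LaurentSeries ℝ} (hx : Sm x) (r : PowerSeries ℝ) :
    Sm (x * algebraMap (PowerSeries ℝ) (LaurentSeries ℝ) r) := by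
  obtain ⟨q, hq, rfl⟩ := hx
  exact ⟨q * r, by rw [map_mul, hq, zero_mul], map_mul _ _ _⟩

/-- the variable -/
noncomputable def ep : LaurentSeries ℝ :=
  algebraMap (PowerSeries ℝ) (LaurentSeries ℝ) PowerSeries.X

theorem ep_ne_zero : ep ≠ 0 := by
  intro h
  have h1 : Function.Injective (algebraMap (PowerSeries ℝ) (LaurentSeries ℝ)) :=
    IsFractionRing.injective _ _
  exact PowerSeries.X_ne_zero (h1 (h.trans (map_zero _).symm))

theorem ep_eq : ep = HahnSeries.single (1 : ℤ) (1 : ℝ) := by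
  unfold ep
  rw [LaurentSeries.coe_algebraMap, PowerSeries.coe_X]

/-- every Laurent series becomes small after multiplication by a high power of the variable -/
theorem exists_small (x : LaurentSeries ℝ) : ∃ B : ℕ, ∀ b, B ≤ b → Sm (ep ^ b * x) := by
  refine ⟨(1 - x.order).toNat, fun b hb => ?_⟩
  have h1 : 1 ≤ (b : ℤ) + x.order := by
    have := Int.self_le_toNat (1 - x.order)
    omega
  obtain ⟨n, hn⟩ : ∃ n : ℕ, ((n + 1 : ℕ) : ℤ) = (b : ℤ) + x.order :=
    ⟨((b : ℤ) + x.order - 1).toNat, by omega⟩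
  refine ⟨PowerSeries.X ^ (n + 1) * x.powerSeriesPart, ?_, ?_⟩
  · rw [map_mul, map_pow, PowerSeries.constantCoeff_X, zero_pow (by omega), zero_mul]
  · have h2 : ep ^ (n + 1) = ep ^ b * HahnSeries.single x.order (1 : ℝ) := by
      rw [ep_eq, ← RatFunc.single_one_eq_pow, ← RatFunc.single_one_eq_pow,
        HahnSeries.single_mul_single, mul_one, hn]
    rw [map_mul, map_pow]
    change ep ^ (n + 1) * _ = _
    rw [h2, mul_assoc]
    congr 1
    rw [LaurentSeries.coe_algebraMap]
    exact LaurentSeries.single_order_mul_powerSeriesPart x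

end small

section subst

variable {σ ρ : Type} [DecidableEq σ]

/-- the substitution in the ring of power series in `τ` -/
noncomputable def hat (C0 : σ → ℝ) (z : σ) (D : σ → Option ρ) (p : MvPolynomial σ ℝ) :
    MvPolynomial ρ (PowerSeries ℝ) :=
  aeval (fun s => algebraMap ℝ (MvPolynomial ρ (PowerSeries ℝ)) (C0 s) + (D s).elim 0 X +
    if s = z then C PowerSeries.X else 0) p

/-- `τ ↦ t ε` -/
noncomputable def jt (t : ℝ) : PowerSeries ℝ →+* LaurentSeries ℝ :=
  (algebraMap (PowerSeries ℝ) (LaurentSeries ℝ)).comp (PowerSeries.rescale t)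

theorem jt_X (t : ℝ) : jt t PowerSeries.X = HahnSeries.C t * ep := by
  unfold jt ep
  rw [RingHom.comp_apply, PowerSeries.rescale_X, map_mul]
  congr 1
  rw [LaurentSeries.coe_algebraMap, PowerSeries.coe_C]

theorem jt_C (t x : ℝ) : jt t (PowerSeries.C x) = HahnSeries.C x := by
  unfold jt
  have h1 : PowerSeries.rescale t (PowerSeries.C x) = PowerSeries.C x := by
    ext n
    rw [PowerSeries.coeff_rescale, PowerSeries.coeff_C]
    split_ifs with h
    · rw [h, pow_zero, one_mul]
    · rw [mul_zero]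
  rw [RingHom.comp_apply, h1, LaurentSeries.coe_algebraMap, PowerSeries.coe_C]

/-- the affine substitution over the Laurent series -/
noncomputable def phi (C0 : σ → ℝ) (z : σ) (D : σ → Option ρ) (t : ℝ) (η : LaurentSeries ℝ)
    (s : σ) : MvPolynomial ρ (LaurentSeries ℝ) :=
  C (HahnSeries.C (C0 s)) + (D s).elim 0 (fun l => C η * X l) +
    if s = z then C (HahnSeries.C t * ep) else 0

theorem phi_degree (C0 : σ → ℝ) (z : σ) (D : σ → Option ρ) (t : ℝ) (η : LaurentSeries ℝ)
    (s : σ) : (phi C0 z D t η s).totalDegree ≤ 1 := by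
  unfold phi
  refine (totalDegree_add _ _).trans (max_le ((totalDegree_add _ _).trans (max_le ?_ ?_)) ?_)
  · rw [totalDegree_C]
    exact Nat.zero_le 1
  · rcases D s with _ | l
    · exact (totalDegree_zero (R := LaurentSeries ℝ) (σ := ρ)).le.trans (Nat.zero_le 1)
    · refine (totalDegree_mul _ _).trans ?_
      rw [totalDegree_C, zero_add, totalDegree_X]
  · split_ifs
    · rw [totalDegree_C]
      exact Nat.zero_le 1
    · rw [totalDegree_zero]
      exact Nat.zero_le 1

theorem aeval_phi (C0 : σ → ℝ) (z : σ) (D : σ → Option ρ) (t : ℝ) (η : LaurentSeries ℝ)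
    (p : MvPolynomial σ ℝ) :
    aeval (phi C0 z D t η) (map (HahnSeries.C : ℝ →+* LaurentSeries ℝ) p) =
      aeval (fun l => C η * X l) (map (jt t) (hat C0 z D p)) := by
  unfold hat
  induction p using MvPolynomial.induction_on with
  | C x =>
    rw [map_C, algHom_C, algHom_C, algebraMap_eq, IsScalarTower.algebraMap_apply ℝ
      (PowerSeries ℝ) (MvPolynomial ρ (PowerSeries ℝ)), algebraMap_eq, map_C, algHom_C,
      algebraMap_eq]
    congr 1
    exact (jt_C t x).symm
  | add p q hp hq => rw [map_add, map_add, hp, hq, map_add, map_add, map_add]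
  | mul_X p s hp =>
    rw [map_mul, map_mul, hp, map_mul, map_mul, map_mul, map_X, aeval_X, aeval_X]
    congr 1
    rw [map_add, map_add, map_add, map_add]
    unfold phi
    congr 1
    · congr 1
      · rw [IsScalarTower.algebraMap_apply ℝ (PowerSeries ℝ) (MvPolynomial ρ (PowerSeries ℝ)),
          algebraMap_eq, map_C, algHom_C, algebraMap_eq]
        congr 1
        exact (jt_C t (C0 s)).symm
      · rcases D s with _ | l
        · simp
        · simp
    · split_ifs
      · rw [map_C, algHom_C, algebraMap_eq, jt_X]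
      · simp

end subst

section final

variable {σ ρ : Type} [DecidableEq σ]

theorem jt_unit (t : ℝ) (v : (PowerSeries ℝ)ˣ) : jt t (v : PowerSeries ℝ) ≠ 0 := by
  intro h
  have h1 : jt t (v : PowerSeries ℝ) * jt t (↑v⁻¹ : PowerSeries ℝ) = 1 := by
    rw [← map_mul, Units.mul_inv, map_one]
  rw [h, zero_mul] at h1
  exact zero_ne_one h1

theorem algebraMap_laurent (x : ℝ) : algebraMap ℝ (LaurentSeries ℝ) x = HahnSeries.C x := by
  show HahnSeries.ofPowerSeries ℤ ℝ (algebraMap ℝ (PowerSeries ℝ) x) = HahnSeries.C x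
  rw [PowerSeries.algebraMap_apply]
  exact HahnSeries.ofPowerSeries_C x

/-- the coefficients of the truncated logarithm of the substituted polynomial -/
theorem coeff_lgg_map (t : ℝ) (d : ℕ) (q : MvPolynomial ρ (PowerSeries ℝ)) (b : PowerSeries ℝ)
    (δ : ρ →₀ ℕ) :
    coeff δ (lgg (F := ℝ) d (map (jt t) q) (C (jt t b))) =
      jt t (MvPowerSeries.coeff δ (lgg (F := ℝ) d (q : MvPowerSeries ρ (PowerSeries ℝ))
        (MvPowerSeries.C (σ := ρ) b))) := by
  have h1 := map_lgg' (F := ℝ) (S := MvPolynomial ρ (PowerSeries ℝ))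
    (S' := MvPolynomial ρ (LaurentSeries ℝ)) (MvPolynomial.map (jt t)) (fun x => by
    rw [IsScalarTower.algebraMap_apply ℝ (PowerSeries ℝ) (MvPolynomial ρ (PowerSeries ℝ)),
      algebraMap_eq, map_C, IsScalarTower.algebraMap_apply ℝ (LaurentSeries ℝ)
      (MvPolynomial ρ (LaurentSeries ℝ)), algebraMap_eq, algebraMap_laurent,
      PowerSeries.algebraMap_apply]
    congr 1
    exact jt_C t x) d q (C b)
  rw [map_C] at h1
  have h2 : ((lgg (F := ℝ) d q (C b) : MvPolynomial ρ (PowerSeries ℝ)) :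
      MvPowerSeries ρ (PowerSeries ℝ)) =
      lgg (F := ℝ) d (q : MvPowerSeries ρ (PowerSeries ℝ)) (MvPowerSeries.C (σ := ρ) b) := by
    have h3 := map_lgg' (F := ℝ) (S := MvPolynomial ρ (PowerSeries ℝ))
      (S' := MvPowerSeries ρ (PowerSeries ℝ)) (MvPolynomial.coeToMvPowerSeries.ringHom (σ := ρ)
      (R := PowerSeries ℝ)) (fun x => by
        rw [IsScalarTower.algebraMap_apply ℝ (PowerSeries ℝ) (MvPolynomial ρ (PowerSeries ℝ)),
          algebraMap_eq, algebraMap_mvps (L := ρ) (A := PowerSeries ℝ),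
          MvPolynomial.coeToMvPowerSeries.ringHom_apply, MvPolynomial.coe_C]) d q (C b)
    simp only [MvPolynomial.coeToMvPowerSeries.ringHom_apply, MvPolynomial.coe_C] at h3
    exact h3
  rw [← h1, coeff_map, ← h2, MvPolynomial.coeff_coe]

end final

end Pool.XMN
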