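import Pool.Agent.XMN.Extract2

/-!
# XMN, row X: extraction, the theorem
-/

set_option autoImplicit false

namespace Pool.XMN

open Finset MvPolynomial Pool.XM

section

variable {σ ρ : Type} [DecidableEq σ]

theorem constantCoeff_hat (C0 : σ → ℝ) (z : σ) (D : σ → Option ρ) (h : MvPolynomial σ ℝ) :
    PowerSeries.constantCoeff (MvPolynomial.constantCoeff (hat C0 z D h)) = eval C0 h := by
  unfold hat
  induction h using MvPolynomial.induction_on with
  | C x =>
    rw [algHom_C, IsScalarTower.algebraMap_apply ℝ (PowerSeries ℝ)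
      (MvPolynomial ρ (PowerSeries ℝ)), algebraMap_eq, constantCoeff_C, eval_C,
      PowerSeries.algebraMap_apply, PowerSeries.constantCoeff_C]
    rfl
  | add p q hp hq => rw [map_add, map_add, map_add, hp, hq, map_add]
  | mul_X p s hp =>
    rw [map_mul, map_mul, map_mul, hp, map_mul, eval_X, aeval_X]
    congr 1
    rw [map_add, map_add, map_add, map_add, IsScalarTower.algebraMap_apply ℝ (PowerSeries ℝ)
      (MvPolynomial ρ (PowerSeries ℝ)), algebraMap_eq, constantCoeff_C,
      PowerSeries.algebraMap_apply, PowerSeries.constantCoeff_C]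
    have h1 : MvPolynomial.constantCoeff ((D s).elim (0 : MvPolynomial ρ (PowerSeries ℝ)) X) =
        0 := by
      rcases D s with _ | l
      · exact map_zero _
      · exact constantCoeff_X _ l
    have h2 : PowerSeries.constantCoeff (MvPolynomial.constantCoeff
        (if s = z then (C PowerSeries.X : MvPolynomial ρ (PowerSeries ℝ)) else 0)) = 0 := by
      split_ifs
      · rw [constantCoeff_C, PowerSeries.constantCoeff_X]
      · rw [map_zero, map_zero]
    rw [h1, h2, map_zero, add_zero, add_zero]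
    rfl

/-- the letters and `τ` -/
noncomputable def yy (z : σ) (D : σ → Option ρ) (s : σ) : MvPowerSeries ρ (PowerSeries ℝ) :=
  (D s).elim 0 MvPowerSeries.X + if s = z then MvPowerSeries.C PowerSeries.X else 0

theorem yy_mem (z : σ) (D : σ → Option ρ) (s : σ) : yy z D s ∈ JI ρ 1 := by
  unfold yy
  refine Ideal.add_mem _ ?_ ?_
  · rcases D s with _ | l
    · exact Ideal.zero_mem _
    · exact X_mem_JI l
  · split_ifs
    · exact C_mem_JI _ _ (by rw [pow_one])
    · exact Ideal.zero_mem _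

theorem coe_hat (C0 : σ → ℝ) (z : σ) (D : σ → Option ρ) (q : MvPolynomial σ ℝ) :
    ((hat C0 z D q : MvPolynomial ρ (PowerSeries ℝ)) : MvPowerSeries ρ (PowerSeries ℝ)) =
      aeval (yy z D) (aeval (fun s => X s + C (C0 s)) q) := by
  unfold hat
  induction q using MvPolynomial.induction_on with
  | C x =>
    rw [algHom_C, algHom_C, algebraMap_eq, algHom_C, IsScalarTower.algebraMap_apply ℝ
      (PowerSeries ℝ) (MvPolynomial ρ (PowerSeries ℝ)), algebraMap_eq, MvPolynomial.coe_C,
      algebraMap_mvps (L := ρ) (A := PowerSeries ℝ)]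
  | add p q hp hq => rw [map_add, map_add, map_add, MvPolynomial.coe_add, hp, hq]
  | mul_X p s hp =>
    rw [map_mul, map_mul, map_mul, MvPolynomial.coe_mul, hp, aeval_X, aeval_X, map_add, aeval_X,
      algHom_C]
    congr 1
    rw [MvPolynomial.coe_add, MvPolynomial.coe_add, IsScalarTower.algebraMap_apply ℝ
      (PowerSeries ℝ) (MvPolynomial ρ (PowerSeries ℝ)), algebraMap_eq, MvPolynomial.coe_C,
      algebraMap_mvps (L := ρ) (A := PowerSeries ℝ)]
    unfold yy
    have h1 : (((D s).elim (0 : MvPolynomial ρ (PowerSeries ℝ)) X :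
        MvPolynomial ρ (PowerSeries ℝ)) : MvPowerSeries ρ (PowerSeries ℝ)) =
        (D s).elim 0 MvPowerSeries.X := by
      rcases D s with _ | l
      · exact MvPolynomial.coe_zero
      · exact MvPolynomial.coe_X l
    have h2 : ((if s = z then (C PowerSeries.X : MvPolynomial ρ (PowerSeries ℝ)) else 0 :
        MvPolynomial ρ (PowerSeries ℝ)) : MvPowerSeries ρ (PowerSeries ℝ)) =
        if s = z then MvPowerSeries.C PowerSeries.X else 0 := by
      split_ifs
      · exact MvPolynomial.coe_C _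
      · exact MvPolynomial.coe_zero
    rw [h1, h2]
    ring

theorem coeff_scale {K : Type} [Field K] (c : K) (q : MvPolynomial ρ K) (δ : ρ →₀ ℕ) :
    coeff δ (aeval (fun i => C c * X i) q) = c ^ δ.degree * coeff δ q := by
  classical
  induction q using MvPolynomial.induction_on' with
  | monomial u x =>
    rw [aeval_monomial, algebraMap_eq]
    have h1 : (u.prod fun i k => (C c * X i : MvPolynomial ρ K) ^ k) =
        C (c ^ u.degree) * monomial u 1 := by
      rw [Finsupp.prod]
      simp only [mul_pow]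
      rw [prod_mul_distrib, prod_pow_eq_pow_sum, ← map_pow]
      congr 1
      rw [monomial_eq, C_1, one_mul, Finsupp.prod]
    rw [h1, ← mul_assoc, ← C_mul, coeff_C_mul, coeff_monomial, coeff_monomial]
    split_ifs with h
    · rw [h]
      ring
    · rw [mul_zero, mul_zero]
  | add p q hp hq => rw [map_add, coeff_add, hp, hq, coeff_add, mul_add]

/-- **the extraction** -/
theorem extract (m e : ℕ) (hm : 1 ≤ m) (p P h : MvPolynomial σ ℝ) (C0 : σ → ℝ) (z : σ)
    (D : σ → Option ρ) (u a : MvPolynomial ρ ℝ) (hh : eval C0 h ≠ 0)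
    (hu : MvPolynomial.constantCoeff u = 0) (ha : MvPolynomial.constantCoeff a ≠ 0)
    (hloc : ∀ v, v.degree ≤ (e + 2) * m →
      coeff v (aeval (fun s => X s + C (C0 s)) (p - P ^ (e + 1) * h)) = 0)
    (hP : hat C0 z D P = map PowerSeries.C u + C PowerSeries.X * map PowerSeries.C a) :
    ∃ (R : Fin (m + 1) × Fin (m + 1) → Polynomial (LaurentSeries ℝ))
      (φ : Fin (m + 1) × Fin (m + 1) → σ → MvPolynomial ρ (LaurentSeries ℝ)),
      (∀ j s, (φ j s).totalDegree ≤ 1) ∧ ∀ δ : ρ →₀ ℕ, ∃ r : LaurentSeries ℝ, Sm r ∧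
        coeff δ (∑ j, Polynomial.aeval (aeval (φ j)
          (map (HahnSeries.C : ℝ →+* LaurentSeries ℝ) p)) (R j)) =
          HahnSeries.C (if δ.degree = m then
            MvPowerSeries.coeff δ ((u : MvPowerSeries ρ ℝ) * (a : MvPowerSeries ρ ℝ)⁻¹) else 0) +
          r := by
  classical
  obtain ⟨al, t, ht0, hat'⟩ := exists_weights' m
  -- the residue
  have hac : MvPowerSeries.constantCoeff (a : MvPowerSeries ρ ℝ) ≠ 0 := by
    rw [← MvPowerSeries.coeff_zero_eq_constantCoeff_apply, MvPolynomial.coeff_coe]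
    exact ha
  have huc : MvPowerSeries.constantCoeff (u : MvPowerSeries ρ ℝ) = 0 := by
    rw [← MvPowerSeries.coeff_zero_eq_constantCoeff_apply, MvPolynomial.coeff_coe]
    exact hu
  set w : MvPowerSeries ρ ℝ := (u : MvPowerSeries ρ ℝ) * (a : MvPowerSeries ρ ℝ)⁻¹ with hw
  have hwa : w * (a : MvPowerSeries ρ ℝ) = (u : MvPowerSeries ρ ℝ) := by
    rw [hw, mul_assoc, mul_comm (a : MvPowerSeries ρ ℝ)⁻¹, MvPowerSeries.mul_inv_cancel _ hac,
      mul_one]
  have hmapc : ∀ q : MvPolynomial ρ ℝ, ((map (PowerSeries.C (R := ℝ)) q :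
      MvPolynomial ρ (PowerSeries ℝ)) : MvPowerSeries ρ (PowerSeries ℝ)) =
      MvPowerSeries.map (PowerSeries.C (R := ℝ)) (q : MvPowerSeries ρ ℝ) := by
    intro q
    ext δ : 1
    rw [MvPolynomial.coeff_coe, coeff_map, MvPowerSeries.coeff_map, MvPolynomial.coeff_coe]
  have hdecomp : hat C0 z D (p - P ^ (e + 1) * h) =
      hat C0 z D p - (hat C0 z D P) ^ (e + 1) * hat C0 z D h := by
    unfold hat
    rw [map_sub, map_mul, map_pow]
  obtain ⟨⟨v, hv⟩, N, hN⟩ := residue_trunc (ρ := ρ) m e hm (a : MvPowerSeries ρ ℝ)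
    (u : MvPowerSeries ρ ℝ) w hac huc hwa
    ((hat C0 z D h : MvPolynomial ρ (PowerSeries ℝ)) : MvPowerSeries ρ (PowerSeries ℝ))
    ((hat C0 z D p : MvPolynomial ρ (PowerSeries ℝ)) : MvPowerSeries ρ (PowerSeries ℝ))
    (((hat C0 z D P) ^ (e + 1) * hat C0 z D h : MvPolynomial ρ (PowerSeries ℝ)) :
      MvPowerSeries ρ (PowerSeries ℝ))
    (by
      rw [← MvPowerSeries.coeff_zero_eq_constantCoeff_apply, MvPolynomial.coeff_coe]
      have h1 := constantCoeff_hat C0 z D h
      rw [MvPolynomial.constantCoeff_eq] at h1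
      rw [h1]
      exact hh)
    (by
      rw [MvPolynomial.coe_mul, MvPolynomial.coe_pow, hP, MvPolynomial.coe_add,
        MvPolynomial.coe_mul, hmapc, hmapc, MvPolynomial.coe_C])
    (by
      have h1 := coe_hat C0 z D (p - P ^ (e + 1) * h)
      rw [hdecomp] at h1
      have h2 : (((hat C0 z D p - (hat C0 z D P) ^ (e + 1) * hat C0 z D h :
          MvPolynomial ρ (PowerSeries ℝ))) : MvPowerSeries ρ (PowerSeries ℝ)) =
          ((hat C0 z D p : MvPolynomial ρ (PowerSeries ℝ)) : MvPowerSeries ρ (PowerSeries ℝ)) -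
          (((hat C0 z D P) ^ (e + 1) * hat C0 z D h : MvPolynomial ρ (PowerSeries ℝ)) :
            MvPowerSeries ρ (PowerSeries ℝ)) :=
        map_sub (MvPolynomial.coeToMvPowerSeries.ringHom (σ := ρ) (R := PowerSeries ℝ)) _ _
      rw [← h2, h1]
      exact aeval_mem_JI ((e + 2) * m) _ hloc _ (yy_mem z D))
  set P0 : PowerSeries ℝ := MvPowerSeries.constantCoeff
    ((hat C0 z D p : MvPolynomial ρ (PowerSeries ℝ)) : MvPowerSeries ρ (PowerSeries ℝ)) with hP0
  have hc0 : ∀ k, jt (t k) P0 ≠ 0 := by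
    intro k
    rw [hv, map_mul, map_pow, jt_X]
    refine mul_ne_zero (pow_ne_zero _ (mul_ne_zero ?_ ep_ne_zero)) (jt_unit _ _)
    exact fun h0 => ht0 k (HahnSeries.C_injective (h0.trans (map_zero _).symm))
  have hCt : ∀ k, (HahnSeries.C (t k) : LaurentSeries ℝ) ≠ 0 := fun k h0 =>
    ht0 k (HahnSeries.C_injective (h0.trans (map_zero _).symm))
  have he1 : (e : ℝ) + 1 ≠ 0 := by positivity
  have hm0 : (m : ℝ) ≠ 0 := by
    have : 0 < m := hm
    positivity
  set γ : Fin (m + 1) → LaurentSeries ℝ := fun k =>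
    HahnSeries.C (al k * t k ^ (m + 1) / ((e : ℝ) + 1)) * ep * (jt (t k) P0 ^ m)⁻¹ with hγ
  set q : MvPolynomial ρ (LaurentSeries ℝ) := ∑ k, C (γ k) *
    lgg (F := ℝ) m (map (jt (t k)) (hat C0 z D p)) (C (jt (t k) P0)) with hq
  -- the coefficients of degree `m`
  have hclaim : ∀ δ : ρ →₀ ℕ, δ.degree = m → ∃ r, Sm r ∧
      coeff δ q = HahnSeries.C (MvPowerSeries.coeff δ w) + r := by
    intro δ hδ
    obtain ⟨h1, h2⟩ := hN δ hδ
    -- the coefficient of one summand
    have h3 : ∀ k, coeff δ (C (γ k) * lgg (F := ℝ) m (map (jt (t k)) (hat C0 z D p))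
        (C (jt (t k) P0))) * (HahnSeries.C (m * ((e : ℝ) + 1)) * ep ^ m) =
        ep * (HahnSeries.C (al k * t k) * jt (t k) (N δ)) := by
      intro k
      rw [coeff_C_mul, coeff_lgg_map]
      have h4 := congrArg (jt (t k)) h1
      rw [map_mul, map_mul, map_pow, jt_X, map_mul, map_pow, map_natCast] at h4
      set Lk := jt (t k) (MvPowerSeries.coeff δ (lgg (F := ℝ) m
        ((hat C0 z D p : MvPolynomial ρ (PowerSeries ℝ)) : MvPowerSeries ρ (PowerSeries ℝ))
        (MvPowerSeries.C (σ := ρ) P0))) with hLk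
      have h5 := mul_inv_cancel₀ (pow_ne_zero m (hc0 k))
      have h6 : (HahnSeries.C (al k * t k ^ (m + 1) / ((e : ℝ) + 1)) : LaurentSeries ℝ) *
          HahnSeries.C (m * ((e : ℝ) + 1)) =
          HahnSeries.C (al k * t k) * (HahnSeries.C (t k) ^ m * (m : LaurentSeries ℝ)) := by
        have h7 : (m : LaurentSeries ℝ) = HahnSeries.C (m : ℝ) := (map_natCast _ m).symm
        rw [h7, ← map_pow, ← map_mul, ← map_mul, ← map_mul]
        congr 1
        field_simp
        ring
      rw [hγ]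
      dsimp only
      calc _ = (HahnSeries.C (al k * t k ^ (m + 1) / ((e : ℝ) + 1)) *
            HahnSeries.C (m * ((e : ℝ) + 1))) * (ep * (ep ^ m * (jt (t k) P0 ^ m)⁻¹ * Lk)) := by
            ring
        _ = ep * (HahnSeries.C (al k * t k) * ((jt (t k) P0 ^ m)⁻¹ *
            ((HahnSeries.C (t k) * ep) ^ m * ((m : LaurentSeries ℝ) * Lk)))) := by
            rw [h6]
            ring
        _ = _ := by
            rw [h4, ← mul_assoc (jt (t k) P0 ^ m)⁻¹, inv_mul_cancel₀ (pow_ne_zero m (hc0 k)),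
              one_mul]
    -- the sum
    set M : PowerSeries ℝ := ∑ k, PowerSeries.C (al k * t k) * PowerSeries.rescale (t k) (N δ)
      with hM
    have hMc : ∀ i, PowerSeries.coeff i M = (∑ k, al k * t k ^ (i + 1)) *
        PowerSeries.coeff i (N δ) := by
      intro i
      rw [hM, map_sum, sum_mul]
      refine sum_congr rfl fun k _ => ?_
      rw [PowerSeries.coeff_C_mul, PowerSeries.coeff_rescale]
      ring
    obtain ⟨M', hM'⟩ : ∃ M' : PowerSeries ℝ, M = PowerSeries.X ^ (m - 1) *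
        (PowerSeries.C (PowerSeries.coeff (m - 1) (N δ)) + PowerSeries.X * M') := by
      have h7 : (PowerSeries.X : PowerSeries ℝ) ^ (m - 1) ∣ M := by
        rw [PowerSeries.X_pow_dvd_iff]
        intro i hi
        rw [hMc, hat' (i + 1) (by omega), if_neg (by omega), zero_mul]
      obtain ⟨M1, hM1⟩ := h7
      have h8 : (PowerSeries.X : PowerSeries ℝ) ∣ M1 -
          PowerSeries.C (PowerSeries.coeff (m - 1) (N δ)) := by
        rw [PowerSeries.X_dvd_iff, map_sub, PowerSeries.constantCoeff_C]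
        have h9 := hMc (m - 1)
        rw [hat' (m - 1 + 1) (by omega), if_pos (by omega), one_mul, hM1,
          PowerSeries.coeff_X_pow_mul', if_pos le_rfl, Nat.sub_self,
          PowerSeries.coeff_zero_eq_constantCoeff_apply] at h9
        rw [h9, sub_self]
      obtain ⟨M2, hM2⟩ := h8
      refine ⟨M2, ?_⟩
      rw [hM1, ← hM2]
      ring
    have h10 : coeff δ q * (HahnSeries.C (m * ((e : ℝ) + 1)) * ep ^ m) =
        ep * algebraMap (PowerSeries ℝ) (LaurentSeries ℝ) M := by
      rw [hq, coeff_sum, sum_mul]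
      simp only [h3]
      rw [← mul_sum, hM, map_sum]
      congr 1
      refine sum_congr rfl fun k _ => ?_
      rw [map_mul (algebraMap (PowerSeries ℝ) (LaurentSeries ℝ))]
      congr 1
      rw [LaurentSeries.coe_algebraMap, PowerSeries.coe_C]
    have hcm : (m * ((e : ℝ) + 1)) ≠ 0 := mul_ne_zero hm0 he1
    refine ⟨algebraMap (PowerSeries ℝ) (LaurentSeries ℝ)
      (PowerSeries.C (m * ((e : ℝ) + 1))⁻¹ * (PowerSeries.X * M')), ⟨_, ?_, rfl⟩, ?_⟩
    · rw [map_mul, map_mul, PowerSeries.constantCoeff_X, zero_mul, mul_zero]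
    · have h11 : (HahnSeries.C (m * ((e : ℝ) + 1)) : LaurentSeries ℝ) * ep ^ m ≠ 0 :=
        mul_ne_zero (fun h0 => hcm (HahnSeries.C_injective (h0.trans (map_zero _).symm)))
          (pow_ne_zero _ ep_ne_zero)
      apply mul_right_cancel₀ h11
      rw [h10, hM', h2]
      have h12 : ep * ep ^ (m - 1) = ep ^ m := by
        rw [← pow_succ']
        congr 1
        omega
      have h13 : algebraMap (PowerSeries ℝ) (LaurentSeries ℝ) (PowerSeries.C
          (((e : ℝ) + 1) * (m * MvPowerSeries.coeff δ w))) =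
          HahnSeries.C (MvPowerSeries.coeff δ w) * HahnSeries.C (m * ((e : ℝ) + 1)) := by
        rw [LaurentSeries.coe_algebraMap, PowerSeries.coe_C, ← map_mul]
        congr 1
        ring
      have h14 : algebraMap (PowerSeries ℝ) (LaurentSeries ℝ) (PowerSeries.C
          (m * ((e : ℝ) + 1))⁻¹) * HahnSeries.C (m * ((e : ℝ) + 1)) = 1 := by
        rw [LaurentSeries.coe_algebraMap, PowerSeries.coe_C, ← map_mul, inv_mul_cancel₀ hcm,
          map_one]
      rw [map_mul, map_pow, map_add, h13, map_mul (algebraMap (PowerSeries ℝ) (LaurentSeries ℝ))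
        (PowerSeries.C _)]
      change ep * (ep ^ (m - 1) * _) = _
      linear_combination (HahnSeries.C (MvPowerSeries.coeff δ w) *
        HahnSeries.C (m * ((e : ℝ) + 1)) + algebraMap (PowerSeries ℝ) (LaurentSeries ℝ)
        (PowerSeries.X * M')) * h12 - ep ^ m * algebraMap (PowerSeries ℝ) (LaurentSeries ℝ)
        (PowerSeries.X * M') * h14
  -- the part of degree `m`
  choose Bf hBf using fun δ : ρ →₀ ℕ => exists_small (coeff δ q)
  set B : ℕ := (∑ δ ∈ q.support, Bf δ) + 1 with hB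
  have hsm : ∀ δ b, B ≤ b → Sm (ep ^ b * coeff δ q) := by
    intro δ b hb
    by_cases hδ : δ ∈ q.support
    · refine hBf δ b ?_
      have := single_le_sum (f := Bf) (fun _ _ => Nat.zero_le _) hδ
      omega
    · rw [notMem_support_iff.1 hδ, mul_zero]
      exact Sm.zero
  set η : LaurentSeries ℝ := ep ^ B with hη
  have hη0 : η ≠ 0 := pow_ne_zero _ ep_ne_zero
  refine ⟨fun j => Polynomial.C (HahnSeries.C (al j.2) * (η ^ m)⁻¹ * γ j.1) *
    lgg (F := ℝ) m Polynomial.X (Polynomial.C (jt (t j.1) P0)),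
    fun j => phi C0 z D (t j.1) (η * HahnSeries.C (t j.2)), fun j s => phi_degree _ _ _ _ _ _,
    fun δ => ?_⟩
  have hQ : ∑ j : Fin (m + 1) × Fin (m + 1), Polynomial.aeval (aeval
      (phi C0 z D (t j.1) (η * HahnSeries.C (t j.2)))
      (map (HahnSeries.C : ℝ →+* LaurentSeries ℝ) p))
      (Polynomial.C (HahnSeries.C (al j.2) * (η ^ m)⁻¹ * γ j.1) *
        lgg (F := ℝ) m Polynomial.X (Polynomial.C (jt (t j.1) P0))) =
      ∑ l, C (HahnSeries.C (al l) * (η ^ m)⁻¹) *
        aeval (fun i => C (η * HahnSeries.C (t l)) * X i) q := by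
    rw [Fintype.sum_prod_type, sum_comm]
    refine sum_congr rfl fun l _ => ?_
    rw [hq, map_sum, mul_sum]
    refine sum_congr rfl fun k _ => ?_
    have h1 := map_lgg' (F := ℝ) (S := Polynomial (LaurentSeries ℝ))
      (S' := MvPolynomial ρ (LaurentSeries ℝ)) (Polynomial.aeval (R := LaurentSeries ℝ) (aeval
        (phi C0 z D (t k) (η * HahnSeries.C (t l)))
        (map (HahnSeries.C : ℝ →+* LaurentSeries ℝ) p)) :
        Polynomial (LaurentSeries ℝ) →ₐ[LaurentSeries ℝ] MvPolynomial ρ (LaurentSeries ℝ)).toRingHom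
      (fun x => by
        rw [IsScalarTower.algebraMap_apply ℝ (LaurentSeries ℝ) (Polynomial (LaurentSeries ℝ)),
          IsScalarTower.algebraMap_apply ℝ (LaurentSeries ℝ) (MvPolynomial ρ (LaurentSeries ℝ))]
        exact AlgHom.commutes _ _) m Polynomial.X (Polynomial.C (jt (t k) P0))
    have h2 := map_lgg' (F := ℝ) (S := MvPolynomial ρ (LaurentSeries ℝ))
      (S' := MvPolynomial ρ (LaurentSeries ℝ)) (aeval (R := LaurentSeries ℝ)
        (fun i : ρ => (C (η * HahnSeries.C (t l)) * X i : MvPolynomial ρ (LaurentSeries ℝ))) :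
        MvPolynomial ρ (LaurentSeries ℝ) →ₐ[LaurentSeries ℝ]
          MvPolynomial ρ (LaurentSeries ℝ)).toRingHom
      (fun x => by
        rw [IsScalarTower.algebraMap_apply ℝ (LaurentSeries ℝ) (MvPolynomial ρ (LaurentSeries ℝ))]
        exact AlgHom.commutes _ _) m (map (jt (t k)) (hat C0 z D p)) (C (jt (t k) P0))
    simp only [AlgHom.toRingHom_eq_coe, RingHom.coe_coe, Polynomial.aeval_X, Polynomial.aeval_C,
      algHom_C, algebraMap_eq] at h1 h2
    dsimp only
    rw [map_mul (Polynomial.aeval (R := LaurentSeries ℝ) (aeval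
        (phi C0 z D (t k) (η * HahnSeries.C (t l)))
        (map (HahnSeries.C : ℝ →+* LaurentSeries ℝ) p))), h1, Polynomial.aeval_C, algebraMap_eq,
      map_mul (aeval (R := LaurentSeries ℝ)
        (fun i : ρ => (C (η * HahnSeries.C (t l)) * X i : MvPolynomial ρ (LaurentSeries ℝ))))
        (C (γ k)), h2, algHom_C, algebraMap_eq, aeval_phi, C_mul, mul_assoc]
  rw [hQ, coeff_sum]
  simp only [coeff_C_mul, coeff_scale]
  have hsum : ∑ l, HahnSeries.C (al l) * (η ^ m)⁻¹ *
      ((η * HahnSeries.C (t l)) ^ δ.degree * coeff δ q) =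
      HahnSeries.C (∑ l, al l * t l ^ δ.degree) * ((η ^ m)⁻¹ * η ^ δ.degree * coeff δ q) := by
    rw [map_sum, sum_mul]
    refine sum_congr rfl fun l _ => ?_
    rw [map_mul, map_pow]
    ring
  rw [hsum]
  rcases lt_trichotomy δ.degree m with hlt | heq | hgt
  · refine ⟨0, Sm.zero, ?_⟩
    rw [hat' _ hlt.le, if_neg hlt.ne, if_neg hlt.ne, map_zero, zero_mul, add_zero]
  · obtain ⟨r, hr, hr'⟩ := hclaim δ heq
    refine ⟨r, hr, ?_⟩
    rw [hat' _ heq.le, if_pos heq, if_pos heq, map_one, one_mul, heq,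
      inv_mul_cancel₀ (pow_ne_zero _ hη0), one_mul, hr']
  · refine ⟨HahnSeries.C (∑ l, al l * t l ^ δ.degree) *
      ((η ^ m)⁻¹ * η ^ δ.degree * coeff δ q), ?_, ?_⟩
    · have h1 : (η ^ m)⁻¹ * η ^ δ.degree = ep ^ (B * (δ.degree - m)) := by
        rw [hη, ← pow_mul, ← pow_mul]
        have h2 : B * δ.degree = B * m + B * (δ.degree - m) := by
          rw [← mul_add]
          congr 1
          omega
        rw [h2, pow_add, ← mul_assoc, inv_mul_cancel₀ (pow_ne_zero _ ep_ne_zero), one_mul]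
      have h3 := (hsm δ (B * (δ.degree - m)) (Nat.le_mul_of_pos_right _ (by omega))).mul
        (PowerSeries.C (∑ l, al l * t l ^ δ.degree))
      rw [LaurentSeries.coe_algebraMap, PowerSeries.coe_C] at h3
      rw [h1, mul_comm]
      exact h3
    · rw [if_neg hgt.ne', map_zero, zero_add]

end

end Pool.XMN
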