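import Pool.Agent.XP.Assembly

/-!
# XMN, row B: sums of single members of the classes

`numbers_u`: the numbers for a chain of any length.
`machine_single`: the level machine for a member of `Cls w0 w S (k + 1)`.
`core_single`: the core inequality for the paired permanent.
`xp_single`: the lower bound.
-/

set_option autoImplicit false

namespace Pool.XMN

open Finset Pool.XD Pool.XP Pool.Agent.Helper87.D3 Pool.Agent.Helper41.CD

section numbers

open Real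

/-- the numbers for a chain of any length `L` (copy of `Pool.XP.xp_final_u`) -/
theorem numbers_u (K K2 : ℕ) (Bc : ℝ) (hBc : 1 ≤ Bc) : ∃ C : ℝ, 1 ≤ C ∧
    ∀ L n T S w w0 : ℕ, 1 ≤ L → 1 ≤ T → 2 ≤ S → 1 ≤ w → 1 ≤ w0 →
    ∃ (y : ℝ) (X Y : ℕ → ℝ), 0 < y ∧ y ≤ 1 / 2 ∧ X 0 = 1 ∧ Y 0 = 1 ∧
      (∀ i, 0 < X i) ∧ (∀ i, 0 < Y i) ∧
      (∀ i, i + 1 ≤ L → NumAll (exp (1 / 2)) (exp y)
        (S * (n + 1 : ℝ) ^ (K * (w + w0))) (X i) (Y i) (X (i + 1)) (Y (i + 1))) ∧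
      ((∀ R Q : ℕ, 1 ≤ R → 1 ≤ Q → 4 * (R + Q) ≤ n → (R : ℝ) ≤ 2 * y * Q →
          exp (1 / 2) ^ (2 * R) ≤ T * ((2 * (R + Q) : ℕ) + 1 : ℝ) ^ K *
            (X L ^ (2 * R) * Y L ^ (2 * Q)) *
              (Bc * (2 * (R + Q) + 1 : ℝ) ^ K2)) →
        (n : ℝ) ≤ C * log (2 * n * T) *
          (C * (log S + (w + w0) * log (2 * n))) ^ (Nat.fib (L + 3) - 2)) := by
  have hlB : 0 ≤ log Bc := log_nonneg hBc
  have hKr : (0 : ℝ) ≤ K := Nat.cast_nonneg _
  have hK2r : (0 : ℝ) ≤ K2 := Nat.cast_nonneg _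
  obtain ⟨E1, hE1⟩ : ∃ E1 : ℝ, E1 = 64 * (2 * (1 + log Bc) + (K + K2 + 1)) + 24 := ⟨_, rfl⟩
  obtain ⟨D1, hD1⟩ : ∃ D1 : ℝ, D1 = 18 * (4 * K + 5) := ⟨_, rfl⟩
  have hE1' : 1 ≤ E1 := by
    rw [hE1]
    linarith
  have hD1' : 1 ≤ D1 := by
    rw [hD1]
    linarith
  refine ⟨E1 * D1, one_le_mul_of_one_le_of_one_le hE1' hD1', ?_⟩
  intro L n T S w w0 hL hT hS hw hw0
  obtain ⟨p, hp⟩ : ∃ p : ℕ, p = Nat.fib (L + 3) - 2 := ⟨_, rfl⟩
  have hSr : (2 : ℝ) ≤ S := by exact_mod_cast hS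
  have hl2 : (0.6931 : ℝ) < log 2 := by
    have := log_two_gt_d9
    linarith
  have hlS : log 2 ≤ log S := log_le_log (by norm_num) hSr
  obtain ⟨κ, hκ⟩ : ∃ κ : ℝ, κ = S * (n + 1 : ℝ) ^ (K * (w + w0)) := ⟨_, rfl⟩
  have hn1 : (1 : ℝ) ≤ n + 1 := by
    have : (0 : ℝ) ≤ n := Nat.cast_nonneg _
    linarith
  have hκ1 : 1 ≤ κ := by
    rw [hκ]
    have := one_le_pow₀ (n := K * (w + w0)) hn1
    nlinarith
  have hlκ : log κ = log S + K * (w + w0) * log (n + 1) := by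
    rw [hκ, log_mul (by positivity) (by positivity), log_pow]
    push_cast
    ring
  have hlκ2 : log (κ ^ 2) = 2 * log κ := by
    rw [log_pow]
    push_cast
    ring
  obtain ⟨σ, hσ⟩ : ∃ σ : ℕ, σ = ⌈4 * log κ⌉₊ := ⟨_, rfl⟩
  have hlκ0 : 0.6931 < log κ := by
    rw [hlκ]
    have : 0 ≤ (K : ℝ) * (w + w0) * log (n + 1) :=
      mul_nonneg (by positivity) (log_nonneg hn1)
    linarith
  have hσ1 : 4 * log κ ≤ σ := by rw [hσ]; exact Nat.le_ceil _
  have hσ2 : (σ : ℝ) ≤ 4 * log κ + 1 := by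
    rw [hσ]
    exact (Nat.ceil_lt_add_one (by linarith)).le
  have hσ0 : 1 ≤ σ := by
    have : (0 : ℝ) < σ := by linarith
    have : 0 < σ := by exact_mod_cast this
    omega
  obtain ⟨A, B, s, X, Y, hs, hB, hBA, hA2, hsA, hX0, hY0, hXp, hYp, hch, hXL, hYL⟩ :=
    Pool.XD.growth_chain L σ hL hσ0 (κ ^ 2) (one_le_pow₀ hκ1)
      (by rw [hlκ2]; linarith)
  rw [← hp] at hsA
  have hA : 1 ≤ A := hB.trans hBA
  have hAr : (0 : ℝ) < A := by exact_mod_cast hA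
  have hBr : (0 : ℝ) < B := by exact_mod_cast hB
  have hBAr : (B : ℝ) ≤ A := by exact_mod_cast hBA
  have hA2r : (A : ℝ) ≤ 2 * B := by exact_mod_cast hA2
  obtain ⟨y, hy⟩ : ∃ y : ℝ, y = (B : ℝ) / A / 2 := ⟨_, rfl⟩
  have hy0 : 1 / 4 ≤ y := by
    rw [hy]
    have : 1 / 2 ≤ (B : ℝ) / A := by
      rw [le_div_iff₀ hAr]
      linarith
    linarith
  have hy1 : y ≤ 1 / 2 := by
    rw [hy]
    have : (B : ℝ) / A ≤ 1 := by
      rw [div_le_one hAr]
      exact hBAr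
    linarith
  refine ⟨y, fun i => √(X i), fun i => √(Y i), by linarith, hy1, ?_, ?_,
    fun i => Real.sqrt_pos.2 (hXp i), fun i => Real.sqrt_pos.2 (hYp i), ?_, ?_⟩
  · beta_reduce
    rw [hX0, Real.sqrt_one]
  · beta_reduce
    rw [hY0, Real.sqrt_one]
  · intro i hi
    have h1 := numAll_sqrt (exp_pos _) (exp_pos _) (by linarith) (hXp i) (hYp i) (hXp (i + 1))
      (hYp (i + 1)) (hch i hi)
    rw [← exp_half, ← exp_half, ← hy, hκ] at h1
    exact h1
  intro hg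
  beta_reduce at hg
  rw [hXL, hYL, ← exp_half, ← exp_half] at hg
  have e1 : (1 / 2 - 1 / (4 * (s * A : ℝ))) / 2 = 1 / 4 - 1 / (8 * (s * A)) := by
    field_simp
    ring
  have e2 : ((B : ℝ) / A / 2 - 1 / (4 * (s * A : ℝ))) / 2 = y / 2 - 1 / (8 * (s * A)) := by
    rw [hy]
    field_simp
    ring
  rw [e1, e2] at hg
  rcases Nat.eq_zero_or_pos n with hn0 | hn0
  · subst hn0
    simp
  have hnr : (1 : ℝ) ≤ n := by exact_mod_cast hn0
  have hTr : (1 : ℝ) ≤ T := by exact_mod_cast hT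
  have hlT : 0 ≤ log T := log_nonneg hTr
  obtain ⟨Λ, hΛ⟩ : ∃ Λ : ℝ, Λ = log S + (w + w0) * log (2 * n) := ⟨_, rfl⟩
  have hl2n : log 2 ≤ log (2 * n) := log_le_log (by norm_num) (by linarith)
  have hln : log (n + 1) ≤ log (2 * n) := log_le_log (by linarith) (by linarith)
  have hww : (2 : ℝ) ≤ w + w0 := by
    have h1 : (1 : ℝ) ≤ w := by exact_mod_cast hw
    have h2 : (1 : ℝ) ≤ w0 := by exact_mod_cast hw0
    linarith
  have hwl : 2 * log 2 ≤ (w + w0) * log (2 * n) :=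
    mul_le_mul hww hl2n (by linarith) (by linarith)
  have hΛ1 : 1 ≤ Λ := by rw [hΛ]; linarith
  have hlκΛ : log κ ≤ (K + 1) * Λ := by
    rw [hlκ, hΛ]
    have h1 : (K : ℝ) * ((w + w0) * log (n + 1)) ≤ K * ((w + w0) * log (2 * n)) :=
      mul_le_mul_of_nonneg_left (mul_le_mul_of_nonneg_left hln (by linarith)) (Nat.cast_nonneg _)
    have h2 : (0 : ℝ) ≤ K * log S := mul_nonneg (Nat.cast_nonneg _) (by linarith)
    have h3 : 0 ≤ ((w : ℝ) + w0) * log (2 * n) := by linarith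
    linarith
  have hσΛ : 18 * (σ : ℝ) ≤ D1 * Λ := by
    rw [hD1]
    linarith
  obtain ⟨P, hP⟩ : ∃ P : ℝ, P = (D1 * Λ) ^ p := ⟨_, rfl⟩
  have hP1 : 1 ≤ P := by
    rw [hP]
    exact one_le_pow₀ (one_le_mul_of_one_le_of_one_le hD1' hΛ1)
  -- the size of `s A`
  have hsAr : (s : ℝ) * A ≤ 4 * P := by
    have h1 : ((s * A : ℕ) : ℝ) ≤ ((4 * (18 * σ) ^ p : ℕ) : ℝ) := by exact_mod_cast hsA
    push_cast at h1
    have h2 : (18 * (σ : ℝ)) ^ p ≤ (D1 * Λ) ^ p :=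
      pow_le_pow_left₀ (by positivity) hσΛ p
    rw [hP]
    linarith
  have hsA0 : (0 : ℝ) < s * A := by
    have h1 : (0 : ℝ) < s := by exact_mod_cast hs
    positivity
  obtain ⟨G, hG⟩ : ∃ G : ℝ, G = log (2 * n) + log T := ⟨_, rfl⟩
  have hG1 : 0.6931 ≤ G := by rw [hG]; linarith
  obtain ⟨N, hN⟩ : ∃ N : ℕ, N = n / 4 := ⟨_, rfl⟩
  have hN4 : 4 * N ≤ n := by omega
  have hN3 : n ≤ 4 * N + 3 := by omega
  have hN3r : (n : ℝ) ≤ 4 * N + 3 := by exact_mod_cast hN3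
  -- the main inequality
  have hmain : (N : ℝ) ≤ 16 * P * ((2 * (1 + log Bc) + (K + K2 + 1)) * G) + 2 := by
    have hlast : 0 ≤ 16 * P * ((2 * (1 + log Bc) + (K + K2 + 1)) * G) := by positivity
    rcases Nat.lt_or_ge N 3 with h3 | h3
    · have : (N : ℝ) ≤ 2 := by exact_mod_cast (show N ≤ 2 by omega)
      linarith
    · obtain ⟨R, Q, hR1, hQ1, hRQ, hb1, hb2⟩ := exists_RQ hy0 hy1 h3
      have hRQr : (R : ℝ) + Q = N := by exact_mod_cast hRQ
      have h4 := hg R Q hR1 hQ1 (by omega) hb1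
      have h5 := pairs_le hs hA hBc hT hb2 h4
      rw [hRQr] at h5
      have h6 : log (2 * (N : ℝ) + 1) ≤ log (2 * n) := by
        apply log_le_log (by positivity)
        have : 4 * (N : ℝ) ≤ n := by exact_mod_cast hN4
        linarith
      have h7 : ((K : ℝ) + K2) * log (2 * (N : ℝ) + 1) ≤ (K + K2) * log (2 * n) :=
        mul_le_mul_of_nonneg_left h6 (by positivity)
      have h8 : 1 + log T + (K + K2) * log (2 * n) + log Bc ≤
          (2 * (1 + log Bc) + (K + K2 + 1)) * G := by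
        have h9 : 0 ≤ ((K : ℝ) + K2) * log T := mul_nonneg (by positivity) hlT
        have h10 : (1 + log Bc) * 1 ≤ (1 + log Bc) * (2 * G) :=
          mul_le_mul_of_nonneg_left (by linarith) (by linarith)
        have h11 : log T ≤ G := by rw [hG]; linarith
        have h12 : (2 * (1 + log Bc) + (K + K2 + 1)) * G =
            (1 + log Bc) * (2 * G) + ((K + K2) * log (2 * n) + (K + K2) * log T) + G := by
          rw [hG]
          ring
        rw [h12]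
        linarith
      have h9 : (N : ℝ) / (4 * (s * A)) ≤ (2 * (1 + log Bc) + (K + K2 + 1)) * G := by linarith
      rw [div_le_iff₀ (by positivity)] at h9
      have h10 : 0 ≤ (2 * (1 + log Bc) + (K + K2 + 1)) * G := by positivity
      have h11 : (2 * (1 + log Bc) + (K + K2 + 1)) * G * (4 * (s * A)) ≤
          (2 * (1 + log Bc) + (K + K2 + 1)) * G * (4 * (4 * P)) :=
        mul_le_mul_of_nonneg_left (by linarith) h10
      linarith
  have hlog : log (2 * n * T) = G := by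
    rw [hG]
    exact log_mul (by positivity) (by positivity)
  rw [← hΛ, hlog, ← hp]
  have hPG : 0.6931 ≤ P * G := hG1.trans (le_mul_of_one_le_left (by linarith) hP1)
  have hfin1 : (n : ℝ) ≤ E1 * G * P := by
    rw [hE1]
    have h1 : (n : ℝ) ≤ 64 * P * ((2 * (1 + log Bc) + (K + K2 + 1)) * G) + 11 := by linarith
    have h2 : (64 * (2 * (1 + log Bc) + (K + K2 + 1)) + 24) * G * P =
        64 * P * ((2 * (1 + log Bc) + (K + K2 + 1)) * G) + 24 * (P * G) := by ring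
    rw [h2]
    linarith
  have hΛ0 : 0 ≤ Λ := by linarith
  have hG0 : 0 ≤ G := by linarith
  calc (n : ℝ) ≤ E1 * G * P := hfin1
    _ ≤ E1 * D1 * G * (E1 * D1 * Λ) ^ p := by
      apply mul_le_mul
      · exact mul_le_mul_of_nonneg_right
          (le_mul_of_one_le_right (zero_le_one.trans hE1') hD1') hG0
      · rw [hP]
        apply pow_le_pow_left₀ (by positivity)
        exact mul_le_mul_of_nonneg_right
          (le_mul_of_one_le_left (zero_le_one.trans hD1') hE1') hΛ0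
      · positivity
      · positivity

end numbers

section machine

variable {σ K B : Type} [Field K] [CharZero K] [CommRing B] [Algebra K B] {ν : B → ℝ → Prop}

/-- **the level machine for a single member** of the class `k + 1` at one point -/
theorem machine_single_at (h : Cost K ν) {M : ℕ → ℕ → Submodule K B} (hM : Big M) {HU HV : ℝ}
    (hHU : 0 < HU) (hHV : 0 < HV) (hL : Leaf M ν HU HV) (SU SV : Subalgebra K B)
    (hpure : ∀ a ∈ SU, ∀ b ∈ SV, ν (a * b) 1) (c : σ → K)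
    (Φ : MvPolynomial σ K →ₐ[K] Ser B) (hΦM : ∀ f, InB M (Φ f))
    (hΦ0 : ∀ f, cf 0 0 (Φ f) = algebraMap K B (MvPolynomial.eval c f))
    (hΦ1 : ∀ f : MvPolynomial σ K, f.totalDegree ≤ 1 → ∃ α ∈ SU, ∃ β ∈ SV,
      Φ f = cst (algebraMap K B (MvPolynomial.eval c f)) + lam B * cst α + mu B * cst β)
    {w0 w S k d : ℕ} (hw : 1 ≤ w) {X Y : ℕ → ℝ}
    (hX : ∀ i, 0 < X i) (hY : ∀ i, 0 < Y i) (hX0 : X 0 = 1) (hY0 : Y 0 = 1)
    (hnum : ∀ i ≤ 2 * k + 1, NumD d (S * ((d : ℝ) + 1) ^ (8 * (w0 + w) + 16)) HU HV (X i) (Y i)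
      (X (i + 1)) (Y (i + 1)))
    (f : MvPolynomial σ K) (hf : f ∈ NCls c w0 w S (k + 1)) :
    ∀ b e, b + e ≤ d → ν (cf b e (Φ f))
      (((d : ℝ) + 1) ^ (3 * w + 4) * (X (2 * k + 2) ^ b * Y (2 * k + 2) ^ e)) := by
  obtain ⟨F, Q, hF, rfl⟩ := hf
  have hd1 : (1 : ℝ) ≤ (d : ℝ) + 1 := by
    have : (0 : ℝ) ≤ d := Nat.cast_nonneg d
    linarith
  have hP : ∀ t b e, b + e ≤ d → ν (cf b e (Φ (∑ i, ∏ j, F t i j)))
      (S * (((d : ℝ) + 1) ^ 16 * (X (2 * k + 1) ^ b * Y (2 * k + 1) ^ e))) := fun t =>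
    level_machine_at h hM hHU hHV hL SU SV hpure c Φ hΦM hΦ0 hΦ1 hX hY hX0 hY0
      (fun i hi => hnum i (by omega)) (F t) (fun i j => hF t i j)
  have e1 : Φ (MvPolynomial.aeval (fun t => ∑ i, ∏ j, F t i j) Q) =
      MvPolynomial.aeval (fun t => Φ (∑ i, ∏ j, F t i j)) Q := by
    rw [MvPolynomial.comp_aeval_apply]
  rw [e1]
  refine series_gate' h hM hHU hHV hL (fun t => Φ (∑ i, ∏ j, F t i j)) (fun t => hΦM _)
    (fun t => MvPolynomial.eval c (∑ i, ∏ j, F t i j)) (fun t => hΦ0 _)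
    (κ0 := S * ((d : ℝ) + 1) ^ 16) (hX (2 * k + 2)) (hY (2 * k + 2))
    (fun t b e _ hbe => ?_) (NumD.mono (hX _) (hY _) ?_ (hnum (2 * k + 1) (by omega))) Q
  · rw [mul_assoc]
    exact hP t b e hbe
  · have e1 : ((d : ℝ) + 1) ^ 2 * (S * ((d : ℝ) + 1) ^ 16) = S * ((d : ℝ) + 1) ^ 18 := by
      rw [show 18 = 2 + 16 by norm_num, pow_add]
      ring
    rw [e1]
    exact mul_le_mul_of_nonneg_left (pow_le_pow_right₀ hd1 (by omega)) (Nat.cast_nonneg S)

end machine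

/-- **the level machine for sums of single members** -/
theorem machine_single {σ K B : Type} [Field K] [CharZero K] [CommRing B] [Algebra K B]
    {ν : B → ℝ → Prop} (h : Cost K ν) {M : ℕ → ℕ → Submodule K B} (hM : Big M) {HU HV : ℝ}
    (hHU : 0 < HU) (hHV : 0 < HV) (hL : Leaf M ν HU HV) (SU SV : Subalgebra K B)
    (hpure : ∀ a ∈ SU, ∀ b ∈ SV, ν (a * b) 1)
    (Φ : (σ → K) → MvPolynomial σ K →ₐ[K] Ser B) (hΦM : ∀ c f, InB M (Φ c f))
    (hΦ0 : ∀ c f, cf 0 0 (Φ c f) = algebraMap K B (MvPolynomial.eval c f))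
    (hΦ1 : ∀ c (f : MvPolynomial σ K), f.totalDegree ≤ 1 → ∃ α ∈ SU, ∃ β ∈ SV,
      Φ c f = cst (algebraMap K B (MvPolynomial.eval c f)) + lam B * cst α + mu B * cst β)
    {w0 w S k d : ℕ} (hw : 1 ≤ w) {X Y : ℕ → ℝ}
    (hX : ∀ i, 0 < X i) (hY : ∀ i, 0 < Y i) (hX0 : X 0 = 1) (hY0 : Y 0 = 1)
    (hnum : ∀ i ≤ 2 * k + 1, NumD d (S * ((d : ℝ) + 1) ^ (8 * (w0 + w) + 16)) HU HV (X i) (Y i)
      (X (i + 1)) (Y (i + 1)))
    {T : ℕ} (f : Fin T → MvPolynomial σ K) (hf : ∀ i, f i ∈ Cls w0 w S (k + 1)) :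
    ∃ W : MvPolynomial σ K, W ≠ 0 ∧ ∀ c : σ → K, MvPolynomial.eval c W ≠ 0 →
      ∀ b e, b + e ≤ d → ν (cf b e (Φ c (∑ i, f i)))
        (T * (((d : ℝ) + 1) ^ (3 * w + 4) * (X (2 * k + 2) ^ b * Y (2 * k + 2) ^ e))) := by
  obtain ⟨W, hW0, hW⟩ := exists_gen f hf
  refine ⟨W, hW0, fun c hc b e hbe => ?_⟩
  rw [map_sum, cf_sum]
  refine h.mono (h.sum univ _ (fun _ => ((d : ℝ) + 1) ^ (3 * w + 4) *
    (X (2 * k + 2) ^ b * Y (2 * k + 2) ^ e)) fun i _ => ?_) ?_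
  · exact machine_single_at h hM hHU hHV hL SU SV hpure c (Φ c) (hΦM c) (hΦ0 c) (hΦ1 c) hw hX hY
      hX0 hY0 hnum (f i) (hW c hc i).1 b e hbe
  · rw [sum_const, nsmul_eq_mul, card_univ, Fintype.card_fin]

/-- **the core inequality** -/
theorem core_single {K Γ : Type} [Field K] [LinearOrderedCommGroupWithZero Γ] (v : Valuation K Γ)
    (hv : ∀ n : ℕ, n ≠ 0 → v n = 1) {n T S w w0 k R Q : ℕ} {y : ℝ} {X Y : ℕ → ℝ}
    (f : Fin T → MvPolynomial (Fin n × Fin n) K) (hw : 1 ≤ w)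
    (hf : ∀ i, f i ∈ Cls w0 w S (k + 1))
    (hcl : ∀ m, v (MvPolynomial.coeff m ((∑ i, f i) - Pool.CDep.permP n K)) < 1)
    (hR : 1 ≤ R) (hQ : 1 ≤ Q) (hy : 0 < y) (hy1 : y ≤ 1 / 2) (hn : 4 * (R + Q) ≤ n)
    (hRQ : (R : ℝ) ≤ 2 * y * Q)
    (hX : ∀ i, 0 < X i) (hY : ∀ i, 0 < Y i) (hX0 : X 0 = 1) (hY0 : Y 0 = 1)
    (hnum : ∀ i ≤ 2 * k + 1, NumD (2 * (R + Q)) (S * ((2 * (R + Q) : ℕ) + 1) ^ (8 * (w0 + w) + 16))
        (Real.exp (1 / 2)) (Real.exp y) (X i) (Y i) (X (i + 1)) (Y (i + 1))) :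
      Real.exp (1 / 2) ^ (2 * R) ≤ T * (((2 * (R + Q) : ℕ) + 1 : ℝ) ^ (3 * w + 4) *
        (X (2 * k + 2) ^ (2 * R) * Y (2 * k + 2) ^ (2 * Q))) *
          (Real.exp 2 * (2 * (R + Q) + 1 : ℝ) ^ 6) := by
  classical
  have := charZero_of_val v hv
  obtain ⟨d, hd⟩ : ∃ d, d = 2 * (R + Q) := ⟨_, rfl⟩
  obtain ⟨ty, hty⟩ : ∃ ty : Row R Q × Col R Q → Bool, ty = rty tyR := ⟨_, rfl⟩
  obtain ⟨r, hr⟩ : ∃ r, r = 2 * R := ⟨_, rfl⟩
  obtain ⟨E, hE⟩ : ∃ E, E = 2 * Q := ⟨_, rfl⟩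
  have hnU := nU_eq R Q
  have hnV := nV_eq R Q
  rw [← hty] at hnU hnV
  have h1U : 1 ≤ nU ty := by
    rw [hnU]
    exact Nat.mul_pos (by omega) (by omega)
  have h1V : 1 ≤ nV ty := by
    rw [hnV]
    exact Nat.mul_pos (by omega) (by omega)
  obtain ⟨LU, LV, hL1, hL2, hL3, hL4, hL5⟩ := params hR hQ hnU hnV hy
  rw [← hr] at hL1
  obtain ⟨φ, hφ1, hφ2, hφ3⟩ := perm_pair' hn v
  -- the polynomials in the letters
  set f' : Fin T → MvPolynomial (Row R Q × Col R Q) K :=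
    fun i => MvPolynomial.aeval φ (f i) with hf'
  have hf'c : ∀ i, f' i ∈ Cls w0 w S (k + 1) := fun i => cls_aeval φ hφ1 (hf i)
  obtain ⟨cz, hcz⟩ : ∃ cz : ℤ, cz = (-2) ^ R * 2 ^ Q := ⟨_, rfl⟩
  have hcz0 : cz ≠ 0 := by
    rw [hcz]
    exact mul_ne_zero (pow_ne_zero _ (by norm_num)) (pow_ne_zero _ (by norm_num))
  rw [← hcz] at hφ3
  obtain ⟨F0, hF0⟩ : ∃ F0 : MvPolynomial (Row R Q × Col R Q) ℤ,
      F0 = MvPolynomial.C cz * codeQ (Om R Q) ℤ := ⟨_, rfl⟩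
  rw [← hF0] at hφ3
  have hcl' : ∀ m', v (MvPolynomial.coeff m' ((∑ i, f' i) -
      MvPolynomial.map (Int.castRingHom K) F0)) < 1 := by
    intro m'
    have h1 := val_coeff_aeval v φ hφ2 _ hcl m'
    rwa [map_sub, hφ3, map_sum] at h1
  -- the machine
  obtain ⟨SU, SV, hSU, hSV⟩ := exists_sub ty (K := K)
  have hfV := filt_VV ty (K := K)
  have hfU := filt_UU ty (K := K)
  have he1 : (0 : ℝ) < Real.exp (1 / 2) := Real.exp_pos _
  have hey : (0 : ℝ) < Real.exp y := Real.exp_pos _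
  obtain ⟨W, hW, hmach⟩ := machine_single (σ := Row R Q × Col R Q) (K := K)
    (B := MvPolynomial (Row R Q × Col R Q) K)
    (Pool.CD.cost_Nu hfV hfU hey.le he1.le) (Pool.CD.big_Bi hfV hfU) he1 hey
    (Pool.CD.leaf_Bi hfV hfU (Real.exp y) (Real.exp (1 / 2))) SU SV
    (fun a ha b hb => by
      have h1 := Pool.CD.Nu.ofMul (V := VV ty K) (U := UU ty K)
        (hv := Real.exp y) (hu := Real.exp (1 / 2)) ((hSU a).1 ha) ((hSV b).1 hb)
      rwa [pow_zero, pow_zero, mul_one] at h1)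
    (PhiX ty) (PhiX_mem _) (PhiX_zero _)
    (fun c p hp => by
      obtain ⟨α, hα, β, hβ, h1⟩ := PhiX_one ty c p hp
      exact ⟨α, (hSU α).2 hα, β, (hSV β).2 hβ, h1⟩)
    (d := d) hw hX hY hX0 hY0 (by rw [hd]; exact hnum) f' hf'c
  obtain ⟨c, hc⟩ := exists_nat_eval W hW
  have hNu := hmach (fun l => (c l : K)) hc r E (by omega)
  -- the matrix
  set P := cf r E (PhiX ty (fun l => (c l : K)) (∑ i, f' i)) with hP
  have hPm : P ∈ UU ty K r ∧ P ∈ VV ty K E :=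
    PhiX_mem ty (fun l => (c l : K)) (∑ i, f' i) r E
  have hrank1 := rank_opM_le ty he1 hey (LU := LU) (LV := LV) (r := r) (E := E)
    (by omega) h1U h1V hL2 hL3 P hPm.1 hPm.2 hNu
  have htop : cf r E (PhiX ty (fun l => (c l : K)) (MvPolynomial.map (Int.castRingHom K) F0)) =
      MvPolynomial.map (Int.castRingHom K) F0 := by
    have h2 := cf_PhiX_codeQ tyR (Om R Q) (hr.trans (card_rows_true R Q).symm)
      (hE.trans (card_rows_false R Q).symm) (fun l => (c l : K))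
    rw [← hty] at h2
    rw [hF0, map_mul, MvPolynomial.map_C, map_codeQ, map_mul, PhiX_C, cf_cst_mul, h2,
      MvPolynomial.algebraMap_eq]
  have hclose : ∀ m', v (MvPolynomial.coeff m' (P - MvPolynomial.map (Int.castRingHom K) F0)) < 1 := by
    intro m'
    have h1 := val_cf_PhiX ty v (fun l => (c l : K)) (fun l => val_nat_le v _) _ hcl'
      r E m'
    rw [map_sub, cf_sub] at h1
    rwa [htop] at h1
  have hrank2 := rank_le_of_close v hv
    (opM ty F0 LU LV (LU - r) (LV + E))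
    (opM ty P LU LV (LU - r) (LV + E)) (fun α γ => by
      unfold opM
      split_ifs
      · have h1 := hclose (gap ty α.1 γ.1)
        rw [MvPolynomial.coeff_sub, MvPolynomial.coeff_map] at h1
        exact h1
      · rw [Int.cast_zero, sub_zero, map_zero]
        exact zero_lt_one)
  have hmap : (opM ty F0 LU LV (LU - r) (LV + E)).map (Int.cast : ℤ → ℝ) =
      (cz : ℝ) • opM ty (codeQ (Om R Q) ℝ) LU LV (LU - r) (LV + E) := by
    have h1 := opM_map ty (Int.castRingHom ℝ) F0 LU LV (LU - r) (LV + E)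
    rw [hF0, map_mul, MvPolynomial.map_C, map_codeQ, opM_C_mul] at h1
    rw [hF0]
    exact h1
  have hrank3 : (opM ty (codeQ (Om R Q) ℝ) LU LV (LU - r) (LV + E)).rank ≤
      (opM ty P LU LV (LU - r) (LV + E)).rank := by
    refine le_trans ?_ hrank2
    rw [hmap]
    have hczr : (cz : ℝ) ≠ 0 := Int.cast_ne_zero.2 hcz0
    have h1 := rank_smul_le (cz : ℝ)⁻¹ ((cz : ℝ) •
      opM ty (codeQ (Om R Q) ℝ) LU LV (LU - r) (LV + E))
    rwa [inv_smul_smul₀ hczr] at h1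
  -- the count
  have hcount := code_count (A := Col R Q) tyR (Om R Q) (LU := LU) (LV := LV) (r := r) (E := E)
    (by rw [card_rows_true, hr]) (by rw [card_rows_false, hE]) (by rw [hr]; omega)
    (oU := Real.exp (1 / 2 + 1 / (R + Q))) (oV := Real.exp (-y))
    (Real.exp_pos _).le (Real.exp_pos _).le (by rw [← hty]; exact h1U)
    (by rw [← hty]; exact h1V) (by rw [← hty, hr]; exact hL4)
    (by rw [← hty]; exact hL5)
  rw [← hty] at hcount
  have hRr : (1 : ℝ) ≤ R := by exact_mod_cast hR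
  have hQr : (1 : ℝ) ≤ Q := by exact_mod_cast hQ
  have hZ := ZB_le (R := R) (Q := Q) (x := 1 / 2) (y := y) (δ := 1 / (R + Q)) hR hQ
    (by norm_num) (by positivity) (by nlinarith) (by nlinarith)
  have hδ : Real.exp (2 * R * (1 / (R + Q))) ≤ Real.exp 2 := by
    apply Real.exp_le_exp.2
    rw [mul_one_div, div_le_iff₀ (by positivity)]
    nlinarith
  -- conclusion
  have hD0pos : (0 : ℝ) < (((nU ty).multichoose LU * (nV ty).multichoose LV : ℕ) : ℝ) := by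
    have h1 : 0 < (nU ty).multichoose LU := by
      rw [Nat.multichoose_eq]
      exact Nat.choose_pos (by omega)
    have h2 : 0 < (nV ty).multichoose LV := by
      rw [Nat.multichoose_eq]
      exact Nat.choose_pos (by omega)
    exact Nat.cast_pos.2 (Nat.mul_pos h1 h2)
  have hM0 : (0 : ℝ) < ((Om R Q).card : ℝ) ^ 2 := by
    have h1 : 0 < (Om R Q).card := (Om_nonempty R Q).card_pos
    exact pow_pos (Nat.cast_pos.2 h1) 2
  have h1 := fin_arith hD0pos hM0 (Real.exp_pos (1 / 2)).le (Real.exp_pos 2).le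
    (show (0 : ℝ) ≤ (2 * (R + Q) + 1 : ℝ) ^ 6 by positivity)
    (Nat.cast_le.2 hrank3) hcount (Nat.cast_nonneg _) (hZ.trans (mul_le_mul_of_nonneg_left
      (mul_le_mul_of_nonneg_right hδ (by positivity)) hM0.le)) hrank1
  rw [hr, hE, hd] at h1
  exact h1

/-- **XP for sums of single members** of the class `k + 1` -/
theorem xp_single : ∃ C : ℝ, 1 ≤ C ∧ ∀ (k : ℕ)
      (K Γ : Type) [Field K] [LinearOrderedCommGroupWithZero Γ] (v : Valuation K Γ)
      (n T S w w0 : ℕ) (f : Fin T → MvPolynomial (Fin n × Fin n) K),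
      (∀ a : ℕ, a ≠ 0 → v a = 1) → 2 ≤ S → 1 ≤ w → 1 ≤ w0 →
      (∀ i, f i ∈ Cls w0 w S (k + 1)) →
      (∀ m, v (MvPolynomial.coeff m ((∑ i, f i) - Pool.CDep.permP n K)) < 1) →
      (n : ℝ) ≤ C * (Real.log T + w * Real.log (2 * n)) *
        (C * (Real.log S + (w + w0) * Real.log (2 * n))) ^ (Nat.fib (2 * k + 5) - 2) := by
  have hB : (1 : ℝ) ≤ Real.exp 2 := Real.one_le_exp (by norm_num)
  obtain ⟨C, hC, hfin⟩ := numbers_u 16 6 (Real.exp 2) hB
  refine ⟨9 * C, by linarith, ?_⟩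
  intro k K Γ _ _ v n T S w w0 f hv hS hw hw0 hf hcl
  have hT : 1 ≤ T := Pool.CDep.T_pos (S := 1) v (fun i _ => f i) (by
    simpa only [univ_unique, prod_singleton] using hcl)
  have hTr : (1 : ℝ) ≤ T := by exact_mod_cast hT
  have hSr : (2 : ℝ) ≤ S := by exact_mod_cast hS
  have hlT : 0 ≤ Real.log T := Real.log_nonneg hTr
  have hlS : 0 ≤ Real.log S := Real.log_nonneg (by linarith)
  rcases Nat.eq_zero_or_pos n with hn0 | hn0
  · subst hn0
    simp only [CharP.cast_eq_zero, mul_zero, Real.log_zero, add_zero]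
    positivity
  have hnr : (1 : ℝ) ≤ n := by exact_mod_cast hn0
  have hwr : (1 : ℝ) ≤ w := by exact_mod_cast hw
  obtain ⟨T', hT'⟩ : ∃ T' : ℕ, T' = T * (n + 1) ^ (3 * w + 4) := ⟨_, rfl⟩
  have hT'1 : 1 ≤ T' := by
    rw [hT']
    exact Nat.mul_pos (by omega) (by positivity)
  obtain ⟨y, X, Y, hy, hy1, hX0, hY0, hX, hY, hnum, h⟩ :=
    hfin (2 * k + 2) n T' S w w0 (by omega) hT'1 hS hw hw0
  have hmain := h fun R Q hR hQ hn hRQ => ?_
  · rw [show 2 * k + 2 + 3 = 2 * k + 5 by ring] at hmain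
    have hl2n : Real.log 2 ≤ Real.log (2 * n) := Real.log_le_log (by norm_num) (by linarith)
    have hl2 : (0.6931 : ℝ) < Real.log 2 := by
      have := Real.log_two_gt_d9
      linarith
    have hln : Real.log (n + 1) ≤ Real.log (2 * n) :=
      Real.log_le_log (by linarith) (by linarith)
    have h1 : Real.log (2 * n * T') =
        Real.log (2 * n) + (Real.log T + (3 * w + 4) * Real.log (n + 1)) := by
      rw [hT']
      push_cast
      have e1 : (2 : ℝ) * n ≠ 0 := by positivity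
      have e2 : (T : ℝ) * ((n : ℝ) + 1) ^ (3 * w + 4) ≠ 0 := by positivity
      have e3 : (T : ℝ) ≠ 0 := by positivity
      have e4 : ((n : ℝ) + 1) ^ (3 * w + 4) ≠ 0 := by positivity
      rw [Real.log_mul e1 e2, Real.log_mul e3 e4, Real.log_pow]
      push_cast
      ring
    have h2 : Real.log (2 * n * T') ≤ 9 * (Real.log T + w * Real.log (2 * n)) := by
      rw [h1]
      have h3 : (3 * (w : ℝ) + 4) * Real.log (n + 1) ≤ (3 * w + 4) * Real.log (2 * n) :=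
        mul_le_mul_of_nonneg_left hln (by positivity)
      have h4 : 1 * Real.log (2 * n) ≤ w * Real.log (2 * n) :=
        mul_le_mul_of_nonneg_right hwr (by linarith)
      linarith
    obtain ⟨Λ, hΛ⟩ : ∃ Λ : ℝ, Λ = Real.log S + (w + w0) * Real.log (2 * n) := ⟨_, rfl⟩
    have hΛ0 : 0 ≤ Λ := by
      rw [hΛ]
      have : 0 ≤ ((w : ℝ) + w0) * Real.log (2 * n) := by
        apply mul_nonneg (by positivity)
        linarith
      linarith
    rw [← hΛ] at hmain ⊢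
    have hG0 : 0 ≤ Real.log T + w * Real.log (2 * n) := by
      have : 0 ≤ (w : ℝ) * Real.log (2 * n) := by
        apply mul_nonneg (by positivity)
        linarith
      linarith
    refine hmain.trans ?_
    apply mul_le_mul
    · calc C * Real.log (2 * n * T') ≤ C * (9 * (Real.log T + w * Real.log (2 * n))) :=
            mul_le_mul_of_nonneg_left h2 (by linarith)
        _ = 9 * C * (Real.log T + w * Real.log (2 * n)) := by ring
    · apply pow_le_pow_left₀ (by positivity)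
      apply mul_le_mul_of_nonneg_right _ hΛ0
      linarith
    · positivity
    · positivity
  -- the core inequality
  have h1 : ∀ i ≤ 2 * k + 1, NumD (2 * (R + Q))
      (S * ((2 * (R + Q) : ℕ) + 1) ^ (8 * (w0 + w) + 16)) (Real.exp (1 / 2)) (Real.exp y) (X i)
      (Y i) (X (i + 1)) (Y (i + 1)) := by
    intro i hi b e hbe _
    rcases hnum i (by omega) b e hbe with h1 | h1 | h1
    · exact Or.inr (Or.inl h1)
    · exact Or.inl h1
    · refine Or.inr (Or.inr (le_trans ?_ h1))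
      apply mul_le_mul_of_nonneg_right
      · apply mul_le_mul_of_nonneg_left _ (Nat.cast_nonneg _)
        have h2 : (((2 * (R + Q) : ℕ) : ℝ) + 1) ≤ n + 1 := by
          have : ((2 * (R + Q) : ℕ) : ℝ) ≤ n := by exact_mod_cast (by omega : 2 * (R + Q) ≤ n)
          linarith
        have h3 : (0 : ℝ) ≤ ((2 * (R + Q) : ℕ) : ℝ) + 1 := by positivity
        calc (((2 * (R + Q) : ℕ) : ℝ) + 1) ^ (8 * (w0 + w) + 16) ≤
            ((n : ℝ) + 1) ^ (8 * (w0 + w) + 16) := pow_le_pow_left₀ h3 h2 _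
          _ ≤ ((n : ℝ) + 1) ^ (16 * (w + w0)) := by
            apply pow_le_pow_right₀
            · linarith
            · omega
      · have := hX i
        have := hY i
        positivity
  have h2 := core_single v hv f hw hf hcl hR hQ hy hy1 hn hRQ hX hY hX0 hY0 h1
  refine h2.trans ?_
  have hd : (((2 * (R + Q) : ℕ) : ℝ) + 1) ≤ n + 1 := by
    have : ((2 * (R + Q) : ℕ) : ℝ) ≤ n := by exact_mod_cast (by omega : 2 * (R + Q) ≤ n)
    linarith
  have hd0 : (1 : ℝ) ≤ ((2 * (R + Q) : ℕ) : ℝ) + 1 := by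
    have : (0 : ℝ) ≤ ((2 * (R + Q) : ℕ) : ℝ) := Nat.cast_nonneg _
    linarith
  have hXY : 0 ≤ X (2 * k + 2) ^ (2 * R) * Y (2 * k + 2) ^ (2 * Q) := by
    have := hX (2 * k + 2)
    have := hY (2 * k + 2)
    positivity
  apply mul_le_mul_of_nonneg_right _ (by positivity)
  rw [← mul_assoc]
  apply mul_le_mul_of_nonneg_right _ hXY
  have h3 : (((2 * (R + Q) : ℕ) : ℝ) + 1) ^ (3 * w + 4) ≤ ((n : ℝ) + 1) ^ (3 * w + 4) :=
    pow_le_pow_left₀ (by linarith) hd _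
  have h4 : (T' : ℝ) = T * ((n : ℝ) + 1) ^ (3 * w + 4) := by
    rw [hT']
    push_cast
    ring
  rw [h4]
  calc (T : ℝ) * (((2 * (R + Q) : ℕ) : ℝ) + 1) ^ (3 * w + 4) ≤
      T * ((n : ℝ) + 1) ^ (3 * w + 4) := mul_le_mul_of_nonneg_left h3 (by linarith)
    _ = T * ((n : ℝ) + 1) ^ (3 * w + 4) * 1 := by ring
    _ ≤ T * ((n : ℝ) + 1) ^ (3 * w + 4) * (((2 * (R + Q) : ℕ) : ℝ) + 1) ^ 16 :=
      mul_le_mul_of_nonneg_left (one_le_pow₀ hd0) (by positivity)

end Pool.XMN
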