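import Pool.Agent.XMN.Tests
import Pool.Agent.XMN.Single

/-!
# XMN: tests by circuits of bounded depth with analytic gates
-/

set_option autoImplicit false

namespace Pool.XMN

open Filter Topology MeasureTheory

/-- **tests by circuits with analytic gates** -/
theorem tests : ∃ c : ℝ, 0 < c ∧ ∀ (n d w s : ℕ) (z : Fin n × Fin n)
    (U : Set (Fin n × Fin n → ℝ)) (P : Fin s → (Fin n × Fin n → ℝ) → ℝ), 1 ≤ d → 1 ≤ w →
    IsOpen U → IsCircuitOn U d w P →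
    (s : ℝ) + (n : ℝ) ^ w < Real.exp (c * (n : ℝ) ^ (1 / ((Nat.fib (2 * d + 3) : ℝ) - 1))) →
    ∀ᵐ X : Fin n × Fin n → ℝ, cof z X ≠ 0 ∧ (pr z X ∈ U → ∀ g, P g (pr z X) ≠ 0 ∨
      ∀ᶠ τ : ℝ in 𝓝 0, P g (pr z X + τ • El z) = 0) :=
  tests_of xp_single

end Pool.XMN
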