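import Pool.Agent.XMP.Perm

/-!
# XMN: the permanent plus a variable is a projection of a permanent of linear size

`perm (C1 + y + t E) = t + perm_m (y)` for a rational matrix `C1` of size `3 m + 1`; every letter
`y_ij` occurs in exactly one entry.
-/

set_option autoImplicit false
set_option linter.unusedSectionVars false

namespace Pool.XMN

open Finset Pool.XMP Pool.Agent.Helper97.Form

section word

variable {m : ℕ} {B : Type} [CommRing B]

/-- the product of all the forms -/
theorem mode_prod_m {u p : Fin m → B} {b : ℕ → B} (hu : ∀ c, u c * u c = 0)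
    (hp : ∀ i, p i * p i = 0) (hb : ∀ i, b i * b i = 0) (y : Fin m → Fin m → B) (s t : B) :
    (∏ i, ((∑ c, y i c * u c) + p i)) *
      (∏ i : Fin m, (b i * u i - p i * b (i + 1))) * (s * b 0 + t * b m) =
      (s * (-1) ^ m * (Matrix.of y).permanent + t) *
        ((∏ c, u c) * (∏ i, p i) * ∏ j ∈ range (m + 1), b j) := by
  classical
  set L : Fin m → B := fun i => ∑ c, y i c * u c with hL
  let pN : ℕ → B := fun i => if h : i < m then p ⟨i, h⟩ else 0
  let uN : ℕ → B := fun i => if h : i < m then u ⟨i, h⟩ else 0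
  have h1 : ∏ i : Fin m, (b i * u i - p i * b (i + 1)) =
      ∏ i ∈ range m, (b i * uN i - pN i * b (i + 1)) := by
    rw [← Fin.prod_univ_eq_prod_range (fun i => b i * uN i - pN i * b (i + 1)) m]
    refine prod_congr rfl fun i _ => ?_
    simp only [pN, uN, i.2, dif_pos]
  have h2 : ∏ i ∈ range m, pN i = ∏ i, p i := by
    rw [← Fin.prod_univ_eq_prod_range (fun i => pN i) m]
    refine prod_congr rfl fun i _ => ?_
    simp only [pN, i.2, dif_pos]
  have h3 : ∏ i ∈ range m, uN i = ∏ c, u c := by
    rw [← Fin.prod_univ_eq_prod_range (fun i => uN i) m]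
    refine prod_congr rfl fun i _ => ?_
    simp only [uN, i.2, dif_pos]
  have h4 := chain_first b pN uN hb m
  have h5 := chain_second b pN uN hb m
  rw [h2] at h4
  rw [h3] at h5
  rw [h1]
  -- first mode
  have h6 := prod_mul_add univ L p hp
  have h7 : ∏ i, L i = (Matrix.of y).permanent * ∏ c, u c := by
    have := perm_forms (RingHom.id B) (Matrix.of y) u hu
    simpa using this
  -- second mode
  have h9 : ∀ i, (∏ c, u c) * L i = 0 := by
    intro i
    rw [hL]
    show (∏ c, u c) * ∑ c, y i c * u c = 0
    rw [mul_sum]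
    refine sum_eq_zero fun c _ => ?_
    rw [← mul_prod_erase univ u (mem_univ c)]
    linear_combination ((∏ x ∈ univ.erase c, u x) * y i c) * hu c
  have h10 := mul_prod_add univ (∏ c, u c) L p fun i _ => h9 i
  set PL := ∏ i, (L i + p i) with hPL
  set CH := ∏ i ∈ range m, (b i * uN i - pN i * b (i + 1)) with hCH
  set PB := ∏ j ∈ range (m + 1), b j with hPB
  set PU := ∏ c, u c with hPU
  set PP := ∏ i, p i with hPP
  linear_combination (s * PL) * h4 + (t * PL) * h5 +
    (s * (-1) ^ m * PB) * h6 + (s * (-1) ^ m * PP * PB) * h7 + (t * PB) * h10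

end word

section mat

variable (m : ℕ)

/-- the rows of the matrix -/
abbrev RJ (m : ℕ) : Type := Fin m ⊕ ((Fin m × Bool) ⊕ Unit)

/-- the columns of the matrix -/
abbrev CJ (m : ℕ) : Type := Fin m ⊕ (Fin m ⊕ Fin (m + 1))

theorem card_RJ : Fintype.card (RJ m) = 3 * m + 1 := by
  simp only [RJ, Fintype.card_sum, Fintype.card_prod, Fintype.card_fin, Fintype.card_bool,
    Fintype.card_unit]
  ring

theorem card_CJ : Fintype.card (CJ m) = 3 * m + 1 := by
  simp only [CJ, Fintype.card_sum, Fintype.card_fin]
  ring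

variable {m} {F : Type} [Field F]

/-- the constant entries -/
def c0 (h s : F) : RJ m → CJ m → F
  | Sum.inl _, Sum.inl _ => 0
  | Sum.inl i, Sum.inr (Sum.inl j) => if i = j then 1 else 0
  | Sum.inl _, Sum.inr (Sum.inr _) => 0
  | Sum.inr (Sum.inl (i, a)), Sum.inl c => if i = c then (if a then 1 else h) else 0
  | Sum.inr (Sum.inl (i, a)), Sum.inr (Sum.inl j) => if i = j then (if a then 1 else -h) else 0
  | Sum.inr (Sum.inl (i, a)), Sum.inr (Sum.inr k) =>
      (if i.castSucc = k then (if a then 1 else h) else 0) +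
        (if i.succ = k then (if a then 1 else -h) else 0)
  | Sum.inr (Sum.inr _), Sum.inr (Sum.inr k) => if (0 : Fin (m + 1)) = k then s else 0
  | Sum.inr (Sum.inr _), Sum.inr (Sum.inl _) => 0
  | Sum.inr (Sum.inr _), Sum.inl _ => 0

/-- the letters -/
def dl : RJ m → CJ m → Option (Fin m × Fin m)
  | Sum.inl i, Sum.inl c => some (i, c)
  | Sum.inl _, Sum.inr _ => none
  | Sum.inr _, _ => none

/-- the row of the variable -/
def zr : RJ m := Sum.inr (Sum.inr ())

/-- the column of the variable -/
def zc : CJ m := Sum.inr (Sum.inr (Fin.last _))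

variable {A : Type} [CommRing A] [Algebra F A]

/-- the matrix -/
def mm (h s : F) (x : Fin m × Fin m → A) (t : A) (i : RJ m) (j : CJ m) : A :=
  algebraMap F A (c0 h s i j) + (dl i j).elim 0 x + if i = zr ∧ j = zc then t else 0

theorem sum_CJ {B : Type} [CommRing B] (T : CJ m → B) (q : CJ m → B) :
    ∑ j, q j * T j = (∑ c, q (Sum.inl c) * T (Sum.inl c)) +
      ((∑ i, q (Sum.inr (Sum.inl i)) * T (Sum.inr (Sum.inl i))) +
      ∑ k, q (Sum.inr (Sum.inr k)) * T (Sum.inr (Sum.inr k))) := by
  rw [Fintype.sum_sum_type, Fintype.sum_sum_type]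

theorem prod_RJ {B : Type} [CommRing B] (G : RJ m → B) :
    ∏ i, G i = (∏ i, G (Sum.inl i)) * ((∏ i, ∏ a, G (Sum.inr (Sum.inl (i, a)))) *
      G (Sum.inr (Sum.inr ()))) := by
  have h1 : ∏ i, G i = (∏ i : Fin m, G (Sum.inl i)) *
      ∏ i : (Fin m × Bool) ⊕ Unit, G (Sum.inr i) := Fintype.prod_sum_type _
  have h3 : ∏ i : (Fin m × Bool) ⊕ Unit, G (Sum.inr i) =
      (∏ i : Fin m × Bool, G (Sum.inr (Sum.inl i))) *
        ∏ i : Unit, G (Sum.inr (Sum.inr i)) := Fintype.prod_sum_type _
  have h4 : ∏ i : Unit, G (Sum.inr (Sum.inr i)) = G (Sum.inr (Sum.inr ())) :=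
    Fintype.prod_unique _
  rw [h1, h3, h4, Fintype.prod_prod_type]

theorem mm_forms {h s : F} (hh : 2 * h = 1) (x : Fin m × Fin m → A) (t : A) {B : Type}
    [CommRing B] (f : A →+* B) (T : CJ m → B) (hT : ∀ j, T j * T j = 0) :
    ∏ i, ∑ j, f (mm h s x t i j) * T j =
      f (algebraMap F A (s * (-1) ^ m) * (Matrix.of fun i j => x (i, j)).permanent + t) *
        ∏ j, T j := by
  classical
  let u : Fin m → B := fun c => T (Sum.inl c)
  let p : Fin m → B := fun i => T (Sum.inr (Sum.inl i))
  let b : ℕ → B := fun k => if hk : k < m + 1 then T (Sum.inr (Sum.inr ⟨k, hk⟩)) else 0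
  have hu : ∀ c, u c * u c = 0 := fun c => hT _
  have hp : ∀ i, p i * p i = 0 := fun i => hT _
  have hb : ∀ k, b k * b k = 0 := by
    intro k
    simp only [b]
    split_ifs
    · exact hT _
    · exact mul_zero _
  have hbk : ∀ k : Fin (m + 1), b k = T (Sum.inr (Sum.inr k)) := by
    intro k
    simp only [b, k.2, dif_pos]
  obtain ⟨η, hη⟩ : ∃ η : B, η = f (algebraMap F A h) := ⟨_, rfl⟩
  have hη2 : 2 * η = 1 := by
    have h1 : f (algebraMap F A (2 * h)) = 1 := by rw [hh, map_one, map_one]
    rw [map_mul, map_mul, map_ofNat, map_ofNat] at h1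
    rw [hη]
    exact h1
  -- the rows of letters
  have r1 : ∀ i : Fin m, ∑ j, f (mm h s x t (Sum.inl i) j) * T j =
      (∑ c, f (x (i, c)) * u c) + p i := by
    intro i
    have m1 : ∀ c, mm h s x t (Sum.inl i) (Sum.inl c) = x (i, c) := by
      intro c
      unfold mm
      rw [if_neg (by simp [zr]), add_zero]
      show algebraMap F A 0 + x (i, c) = _
      rw [map_zero, zero_add]
    have m3 : ∀ j, mm h s x t (Sum.inl i) (Sum.inr (Sum.inl j)) = if i = j then 1 else 0 := by
      intro j
      unfold mm
      rw [if_neg (by simp [zr]), add_zero]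
      show algebraMap F A (if i = j then 1 else 0) + 0 = _
      split_ifs <;> simp
    have m4 : ∀ k, mm h s x t (Sum.inl i) (Sum.inr (Sum.inr k)) = 0 := by
      intro k
      unfold mm
      rw [if_neg (by simp [zr]), add_zero]
      show algebraMap F A 0 + 0 = _
      simp
    rw [sum_CJ T (fun j => f (mm h s x t (Sum.inl i) j))]
    simp only [m1, m3, m4, map_zero, zero_mul, sum_const_zero, add_zero]
    congr 1
    have : ∀ j, f (if i = j then 1 else 0) * T (Sum.inr (Sum.inl j)) =
        if i = j then p j else 0 := by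
      intro j
      split_ifs
      · rw [map_one, one_mul]
      · rw [map_zero, zero_mul]
    rw [sum_congr rfl fun j _ => this j, sum_ite_eq, if_pos (mem_univ _)]
  -- the rows of the chain
  have r3 : ∀ (i : Fin m) (a : Bool),
      ∑ j, f (mm h s x t (Sum.inr (Sum.inl (i, a))) j) * T j =
        (if a then 1 else η) * (u i + b i) + (if a then 1 else -η) * (p i + b (i + 1)) := by
    intro i a
    have m1 : ∀ c, f (mm h s x t (Sum.inr (Sum.inl (i, a))) (Sum.inl c)) =
        if i = c then (if a then 1 else η) else 0 := by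
      intro c
      unfold mm
      rw [if_neg (by simp [zr]), add_zero]
      show f (algebraMap F A (if i = c then (if a then 1 else h) else 0) + 0) = _
      rw [add_zero, hη]
      split_ifs <;> simp
    have m3 : ∀ j, f (mm h s x t (Sum.inr (Sum.inl (i, a))) (Sum.inr (Sum.inl j))) =
        if i = j then (if a then 1 else -η) else 0 := by
      intro j
      unfold mm
      rw [if_neg (by simp [zr]), add_zero]
      show f (algebraMap F A (if i = j then (if a then 1 else -h) else 0) + 0) = _
      rw [add_zero, hη]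
      split_ifs <;> simp
    have m4 : ∀ k, f (mm h s x t (Sum.inr (Sum.inl (i, a))) (Sum.inr (Sum.inr k))) =
        (if i.castSucc = k then (if a then 1 else η) else 0) +
          (if i.succ = k then (if a then 1 else -η) else 0) := by
      intro k
      unfold mm
      rw [if_neg (by simp [zr]), add_zero]
      show f (algebraMap F A ((if i.castSucc = k then (if a then 1 else h) else 0) +
          (if i.succ = k then (if a then 1 else -h) else 0)) + 0) = _
      rw [add_zero, hη, map_add, map_add]
      congr 1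
      · split_ifs <;> simp
      · split_ifs <;> simp
    rw [sum_CJ T (fun j => f (mm h s x t (Sum.inr (Sum.inl (i, a))) j))]
    simp only [m1, m3, m4, ite_mul, zero_mul, add_mul, sum_add_distrib, sum_ite_eq, mem_univ,
      if_true]
    rw [← hbk, ← hbk]
    show (if a then 1 * u i else η * u i) + ((if a then 1 * p i else -η * p i) +
      ((if a then 1 * b i else η * b i) + (if a then 1 * b (i + 1) else -η * b (i + 1)))) = _
    split_ifs <;> ring
  -- the last row
  have r4 : ∑ j, f (mm h s x t (Sum.inr (Sum.inr ())) j) * T j =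
      f (algebraMap F A s) * b 0 + f t * b m := by
    have m1 : ∀ c, mm h s x t (Sum.inr (Sum.inr ())) (Sum.inl c) = 0 := by
      intro c
      unfold mm
      rw [if_neg (by simp [zc]), add_zero]
      show algebraMap F A 0 + 0 = _
      simp
    have m2 : ∀ j, mm h s x t (Sum.inr (Sum.inr ())) (Sum.inr (Sum.inl j)) = 0 := by
      intro j
      unfold mm
      rw [if_neg (by simp [zc]), add_zero]
      show algebraMap F A 0 + 0 = _
      simp
    have m3 : ∀ k, f (mm h s x t (Sum.inr (Sum.inr ())) (Sum.inr (Sum.inr k))) =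
        (if (0 : Fin (m + 1)) = k then f (algebraMap F A s) else 0) +
          if Fin.last _ = k then f t else 0 := by
      intro k
      unfold mm
      have e1 : ((Sum.inr (Sum.inr ()) : RJ m) = zr ∧ (Sum.inr (Sum.inr k) : CJ m) = zc) ↔
          Fin.last _ = k := by
        unfold zr zc
        constructor
        · rintro ⟨_, h2⟩
          exact (Sum.inr_injective (Sum.inr_injective h2)).symm
        · intro h2
          exact ⟨rfl, by rw [h2]⟩
      simp only [e1]
      show f (algebraMap F A (if (0 : Fin (m + 1)) = k then s else 0) + 0 + _) = _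
      rw [add_zero, map_add]
      congr 1
      · split_ifs <;> simp
      · split_ifs <;> simp
    rw [sum_CJ T (fun j => f (mm h s x t (Sum.inr (Sum.inr ())) j))]
    simp only [m1, m2, m3, map_zero, zero_mul, sum_const_zero, zero_add, ite_mul, add_mul,
      sum_add_distrib, sum_ite_eq, mem_univ, if_true]
    rw [← hbk, ← hbk]
    rfl
  have hprod : ∏ j, T j = (∏ c, u c) * (∏ i, p i) * ∏ j ∈ range (m + 1), b j := by
    rw [Fintype.prod_sum_type, Fintype.prod_sum_type,
      ← Fin.prod_univ_eq_prod_range (fun i => b i) (m + 1)]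
    rw [prod_congr rfl fun k _ => hbk k]
    ring
  rw [prod_RJ (fun i => ∑ j, f (mm h s x t i j) * T j), prod_congr rfl fun i _ => r1 i, hprod]
  have h3 : ∀ i : Fin m, ∏ a : Bool, ∑ j, f (mm h s x t (Sum.inr (Sum.inl (i, a))) j) * T j =
      b i * u i - p i * b (i + 1) := by
    intro i
    rw [Fintype.prod_bool, r3, r3]
    simp only [if_true, Bool.false_eq_true, if_false]
    linear_combination (η) * hu i + (η) * hb i - (η) * hp i - (η) * hb (i + 1) +
      (b i * u i - p i * b (i + 1)) * hη2
  rw [prod_congr rfl fun i _ => h3 i]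
  have h4 := mode_prod_m hu hp hb (fun i c => f (x (i, c))) (f (algebraMap F A s)) (f t)
  have h6 : f (Matrix.of fun i j => x (i, j)).permanent =
      (Matrix.of fun i j => f (x (i, j))).permanent := by
    unfold Matrix.permanent
    simp only [map_sum, map_prod, Matrix.of_apply]
  have h5 : f (algebraMap F A (s * (-1) ^ m) * (Matrix.of fun i j => x (i, j)).permanent + t) =
      f (algebraMap F A s) * (-1) ^ m * (Matrix.of fun i j => f (x (i, j))).permanent + f t := by
    rw [map_add, map_mul, h6]
    simp only [map_mul, map_pow, map_neg, map_one]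
  rw [h5, ← h4, r4]
  ring

theorem mm_permanent {h s : F} (hh : 2 * h = 1) (x : Fin m × Fin m → A) (t : A)
    (er : CJ m ≃ RJ m) : (Matrix.of fun i j => mm h s x t (er i) j).permanent =
      algebraMap F A (s * (-1) ^ m) * (Matrix.of fun i j => x (i, j)).permanent + t := by
  apply perm_of_forms
  intro B _ f T hT
  rw [← mm_forms hh x t f T hT,
    ← Equiv.prod_comp er (fun i => ∑ j, f (mm h s x t i j) * T j)]
  rfl

end mat

/-- **the gadget** -/
theorem perm_gadget (F : Type) [Field F] [CharZero F] (m n : ℕ) (hm : 1 ≤ m)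
    (hn : 3 * m + 1 ≤ n) (z : Fin n) :
    ∃ (C1 : Fin n × Fin n → F) (D : Fin n × Fin n → Option (Fin m × Fin m)),
      C1 (z, z) = 0 ∧ D (z, z) = none ∧ (∀ l, ∃! p, D p = some l) ∧
      ∀ (A : Type) [CommRing A] [Algebra F A] (t : A) (y : Fin m × Fin m → A),
        (Matrix.of fun i j => algebraMap F A (C1 (i, j)) + (if i = z ∧ j = z then t else 0) +
          (D (i, j)).elim 0 y).permanent = t + (Matrix.of fun i j => y (i, j)).permanent := by
  classical
  obtain ⟨er0⟩ : Nonempty (CJ m ≃ RJ m) := ⟨Fintype.equivOfCardEq (by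
    rw [card_CJ, card_RJ])⟩
  let er : CJ m ≃ RJ m := (Equiv.swap zc (er0.symm zr)).trans er0
  have her : er zc = zr := by
    show er0 (Equiv.swap zc (er0.symm zr) zc) = zr
    rw [Equiv.swap_apply_left, Equiv.apply_symm_apply]
  have her' : ∀ i, er i = zr ↔ i = zc := fun i => by
    rw [← her]
    exact er.injective.eq_iff
  have hn' : Fintype.card (CJ m ⊕ Fin (n - (3 * m + 1))) = n := by
    rw [Fintype.card_sum, card_CJ, Fintype.card_fin]
    omega
  let e0 : Fin n ≃ CJ m ⊕ Fin (n - (3 * m + 1)) :=
    (finCongr hn'.symm).trans (Fintype.equivFin _).symm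
  let E : Fin n ≃ CJ m ⊕ Fin (n - (3 * m + 1)) :=
    (Equiv.swap z (e0.symm (Sum.inl zc))).trans e0
  have hE : E z = Sum.inl zc := by
    show e0 (Equiv.swap z (e0.symm (Sum.inl zc)) z) = Sum.inl zc
    rw [Equiv.swap_apply_left, Equiv.apply_symm_apply]
  have hE' : ∀ i, E i = Sum.inl zc ↔ i = z := fun i => by
    rw [← hE]
    exact E.injective.eq_iff
  obtain ⟨s, hs⟩ : ∃ s : F, s = (-1) ^ m := ⟨_, rfl⟩
  have hs1 : s * (-1) ^ m = 1 := by
    rw [hs, ← mul_pow]
    simp
  have hh : 2 * (1 / 2 : F) = 1 := by
    rw [mul_one_div_cancel]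
    exact two_ne_zero
  let C1 : CJ m ⊕ Fin (n - (3 * m + 1)) → CJ m ⊕ Fin (n - (3 * m + 1)) → F :=
    fun i j => match i, j with
      | Sum.inl i, Sum.inl j => c0 (1 / 2) s (er i) j
      | Sum.inr i, Sum.inr j => if i = j then 1 else 0
      | _, _ => 0
  let D1 : CJ m ⊕ Fin (n - (3 * m + 1)) → CJ m ⊕ Fin (n - (3 * m + 1)) →
      Option (Fin m × Fin m) :=
    fun i j => match i, j with
      | Sum.inl i, Sum.inl j => dl (er i) j
      | _, _ => none
  refine ⟨fun p => C1 (E p.1) (E p.2), fun p => D1 (E p.1) (E p.2), ?_, ?_, ?_, ?_⟩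
  · show C1 (E z) (E z) = 0
    rw [hE]
    show c0 (1 / 2) s (er zc) zc = 0
    rw [her]
    show (if (0 : Fin (m + 1)) = Fin.last m then s else 0) = 0
    rw [if_neg]
    intro h
    have := congrArg Fin.val h
    rw [Fin.val_last] at this
    have h0 : ((0 : Fin (m + 1)) : ℕ) = 0 := rfl
    omega
  · show D1 (E z) (E z) = none
    rw [hE]
    show dl (er zc) zc = none
    rw [her]
    rfl
  · intro l
    refine ⟨(E.symm (Sum.inl (er.symm (Sum.inl l.1))), E.symm (Sum.inl (Sum.inl l.2))), ?_, ?_⟩
    · show D1 (E (E.symm _)) (E (E.symm _)) = some l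
      rw [Equiv.apply_symm_apply, Equiv.apply_symm_apply]
      show dl (er (er.symm (Sum.inl l.1))) (Sum.inl l.2) = some l
      rw [Equiv.apply_symm_apply]
      rfl
    · rintro ⟨i, j⟩ hij
      have h1 : D1 (E i) (E j) = some l := hij
      rcases hi : E i with i' | i' <;> rcases hj : E j with j' | j' <;> rw [hi, hj] at h1
      · have h2 : dl (er i') j' = some l := h1
        rcases hi' : er i' with i'' | i'' <;> rcases j' with j'' | j'' <;> rw [hi'] at h2
        · have h3 : some (i'', j'') = some l := h2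
          have h4 : (i'', j'') = l := Option.some_injective _ h3
          have h5 : i = E.symm (Sum.inl (er.symm (Sum.inl l.1))) := by
            rw [Equiv.eq_symm_apply, hi, ← h4]
            congr 1
            rw [Equiv.eq_symm_apply, hi']
          have h6 : j = E.symm (Sum.inl (Sum.inl l.2)) := by
            rw [Equiv.eq_symm_apply, hj, ← h4]
          rw [h5, h6]
        · exact absurd h2 (by simp [dl])
        · exact absurd h2 (by simp [dl])
        · exact absurd h2 (by simp [dl])
      · exact absurd h1 (by simp [D1])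
      · exact absurd h1 (by simp [D1])
      · exact absurd h1 (by simp [D1])
  intro A _ _ t y
  have h1 := mm_permanent (A := A) (s := s) hh y t er
  rw [hs1, map_one, one_mul] at h1
  have h2 : (Matrix.of fun i j : Fin n => algebraMap F A (C1 (E i) (E j)) +
      (if i = z ∧ j = z then t else 0) + (D1 (E i) (E j)).elim 0 y) =
      (Matrix.of fun i j : Fin n => (padM (Fin (n - (3 * m + 1))) (Matrix.of fun i j =>
        mm (1 / 2 : F) s y t (er i) j)) (E i) (E j)) := by
    refine Matrix.ext fun i j => ?_
    rw [Matrix.of_apply, Matrix.of_apply]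
    have h3 : (i = z ∧ j = z) ↔ (E i = Sum.inl zc ∧ E j = Sum.inl zc) := by
      rw [hE', hE']
    simp only [h3]
    rcases E i with i' | i' <;> rcases E j with j' | j'
    · show algebraMap F A (c0 (1 / 2) s (er i') j') +
        (if Sum.inl i' = Sum.inl zc ∧ Sum.inl j' = Sum.inl zc then t else 0) +
        (dl (er i') j').elim 0 y = mm (1 / 2 : F) s y t (er i') j'
      unfold mm
      simp only [her', Sum.inl.injEq]
      ring
    · show algebraMap F A 0 + (if _ ∧ Sum.inr j' = Sum.inl zc then t else 0) + 0 = 0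
      simp
    · show algebraMap F A 0 + (if Sum.inr i' = Sum.inl zc ∧ _ then t else 0) + 0 = 0
      simp
    · show algebraMap F A (if i' = j' then 1 else 0) +
        (if Sum.inr i' = Sum.inl zc ∧ _ then t else 0) + 0 = if i' = j' then 1 else 0
      split_ifs <;> simp_all
  show (Matrix.of fun i j : Fin n => algebraMap F A (C1 (E i) (E j)) +
      (if i = z ∧ j = z then t else 0) + (D1 (E i) (E j)).elim 0 y).permanent = _
  rw [h2, permanent_reindex E E, padM_permanent, h1, add_comm]

end Pool.XMN
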