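import Pool.Agent.XMN.Defs

/-!
# XMN: the permanent on lines in the direction of an entry (helper43)
-/

set_option autoImplicit false

namespace Pool.XMN

open Finset MvPolynomial Filter Topology Asymptotics Pool.XN

variable {n : ℕ}

/-- contribution of a permutation to the cofactor -/
noncomputable def cofT (z : Fin n × Fin n) (X : Fin n × Fin n → ℝ) (σ : Equiv.Perm (Fin n)) : ℝ :=
  if σ z.2 = z.1 then ∏ i ∈ univ.erase z.2, X (σ i, i) else 0

theorem prod_line (z : Fin n × Fin n) (X : Fin n × Fin n → ℝ) (t : ℝ) (σ : Equiv.Perm (Fin n)) :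
    ∏ i, (X + t • El z) (σ i, i) = ∏ i, X (σ i, i) + t * cofT z X σ := by
  have h0 : ∀ i, i ≠ z.2 → (X + t • El z) (σ i, i) = X (σ i, i) := by
    intro i hi
    have : (El z : Fin n × Fin n → ℝ) (σ i, i) = 0 := by
      unfold El
      rw [Pi.single_apply, if_neg]
      intro h
      exact hi (congrArg Prod.snd h)
    rw [Pi.add_apply, Pi.smul_apply, this, smul_zero, add_zero]
  rw [← Finset.mul_prod_erase univ _ (mem_univ z.2),
    ← Finset.mul_prod_erase univ (fun i => X (σ i, i)) (mem_univ z.2)]
  have h1 : ∏ i ∈ univ.erase z.2, (X + t • El z) (σ i, i) = ∏ i ∈ univ.erase z.2, X (σ i, i) :=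
    Finset.prod_congr rfl fun i hi => h0 i (Finset.ne_of_mem_erase hi)
  rw [h1]
  unfold cofT
  split_ifs with h
  · have h2 : (σ z.2, z.2) = z := Prod.ext h rfl
    rw [h2]
    have : (El z : Fin n × Fin n → ℝ) z = 1 := by
      unfold El
      rw [Pi.single_eq_same]
    rw [Pi.add_apply, Pi.smul_apply, this, smul_eq_mul, mul_one]
    ring
  · have : (El z : Fin n × Fin n → ℝ) (σ z.2, z.2) = 0 := by
      unfold El
      rw [Pi.single_apply, if_neg]
      intro h'
      exact h (congrArg Prod.fst h')
    rw [Pi.add_apply, Pi.smul_apply, this, smul_zero, add_zero, mul_zero, add_zero]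

theorem permF_line_aux (z : Fin n × Fin n) (X : Fin n × Fin n → ℝ) (t : ℝ) :
    permF n (X + t • El z) = permF n X + t * ∑ σ, cofT z X σ := by
  unfold permF Matrix.permanent
  simp only [Matrix.of_apply]
  rw [Finset.mul_sum, ← Finset.sum_add_distrib]
  exact Finset.sum_congr rfl fun σ _ => prod_line z X t σ

theorem cof_eq (z : Fin n × Fin n) (X : Fin n × Fin n → ℝ) : cof z X = ∑ σ, cofT z X σ := by
  unfold cof
  have h := permF_line_aux z X 1
  rw [one_smul] at h
  rw [h]
  ring

/-- the permanent is affine on the line -/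
theorem permF_line (z : Fin n × Fin n) (X : Fin n × Fin n → ℝ) (t : ℝ) :
    permF n (X + t • El z) = permF n X + t * cof z X := by
  rw [cof_eq, permF_line_aux]

theorem cof_line (z : Fin n × Fin n) (X : Fin n × Fin n → ℝ) (t : ℝ) :
    cof z (X + t • El z) = cof z X := by
  have h1 : X + t • El z + El z = X + (t + 1) • El z := by
    rw [add_smul, one_smul, add_assoc]
  unfold cof
  rw [h1, permF_line, permF_line]
  unfold cof
  ring

theorem pr_eq (z : Fin n × Fin n) (X : Fin n × Fin n → ℝ) :
    pr z X = X + (-(permF n X / cof z X)) • El z := by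
  unfold pr
  rw [neg_smul, sub_eq_add_neg]

theorem cof_pr (z : Fin n × Fin n) (X : Fin n × Fin n → ℝ) : cof z (pr z X) = cof z X := by
  rw [pr_eq, cof_line]

theorem permF_pr (z : Fin n × Fin n) (X : Fin n × Fin n → ℝ) (h : cof z X ≠ 0) :
    permF n (pr z X) = 0 := by
  rw [pr_eq, permF_line]
  field_simp
  ring

theorem pr_line (z : Fin n × Fin n) (X : Fin n × Fin n → ℝ) (t : ℝ) (h : cof z X ≠ 0) :
    pr z (X + t • El z) = pr z X := by
  rw [pr_eq, pr_eq, cof_line, permF_line, add_assoc, ← add_smul]
  congr 2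
  field_simp
  ring

/-- a matrix is its projection plus a multiple of the entry -/
theorem eq_pr_add (z : Fin n × Fin n) (X : Fin n × Fin n → ℝ) :
    pr z X + (permF n X / cof z X) • El z = X := by
  unfold pr
  rw [sub_add_cancel]

theorem eval_analytic {σ : Type} [Fintype σ] (P : MvPolynomial σ ℝ) (x : σ → ℝ) :
    AnalyticAt ℝ (fun x : σ → ℝ => eval x P) x := by
  induction P using MvPolynomial.induction_on with
  | C a =>
    simp only [eval_C]
    exact analyticAt_const
  | add p q hp hq =>
    simp only [map_add]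
    exact hp.add hq
  | mul_X p l hp =>
    simp only [map_mul, eval_X]
    exact hp.mul ((ContinuousLinearMap.proj (R := ℝ) l).analyticAt x)

theorem permF_analytic (x : Fin n × Fin n → ℝ) : AnalyticAt ℝ (permF n) x := by
  have h := eval_analytic (Pool.CDep.permP n ℝ) x
  simp only [eval_permP] at h
  exact h

theorem cof_analytic (z : Fin n × Fin n) (x : Fin n × Fin n → ℝ) : AnalyticAt ℝ (cof z) x := by
  unfold cof
  refine AnalyticAt.sub ?_ (permF_analytic x)
  exact AnalyticAt.fun_comp (g := permF n) (f := fun X => X + El z) (permF_analytic _)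
    (analyticAt_id.add analyticAt_const)

theorem quot_analytic (z : Fin n × Fin n) {x : Fin n × Fin n → ℝ} (h : cof z x ≠ 0) :
    AnalyticAt ℝ (fun X => permF n X / cof z X) x :=
  (permF_analytic x).div (cof_analytic z x) h

theorem pr_analytic (z : Fin n × Fin n) {x : Fin n × Fin n → ℝ} (h : cof z x ≠ 0) :
    AnalyticAt ℝ (pr z) x := by
  unfold pr
  exact analyticAt_id.sub ((quot_analytic z h).smul analyticAt_const)

end Pool.XMN
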