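import Pool.Agent.XMN.Taylor
import Pool.Agent.XMN.PermLine
import Pool.Agent.XMN.AeAt

/-!
# XMN, row A (helper43): the local form of an analytic function at a point of the variety of the
permanent at which it vanishes on a set of positive measure
-/

set_option autoImplicit false

namespace Pool.XMN

open Finset MvPolynomial Filter Topology Asymptotics Pool.XN Pool.SM
open MeasureTheory

variable {n : ℕ}

/-- directional derivative of order `j` -/
noncomputable def dd (f : (Fin n × Fin n → ℝ) → ℝ) (z : Fin n × Fin n) (j : ℕ)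
    (Y : Fin n × Fin n → ℝ) : ℝ :=
  iteratedFDeriv ℝ j f Y fun _ => El z

theorem iter_smul (f : (Fin n × Fin n → ℝ) → ℝ) (z : Fin n × Fin n) (j : ℕ)
    (Y : Fin n × Fin n → ℝ) (t : ℝ) :
    (iteratedFDeriv ℝ j f Y fun _ => t • El z) = t ^ j * dd f z j Y := by
  have h := (iteratedFDeriv ℝ j f Y).map_smul_univ (fun _ => t) (fun _ => El z)
  rw [h, Finset.prod_const, Finset.card_univ, Fintype.card_fin, smul_eq_mul]
  rfl

theorem dd_analytic {U : Set (Fin n × Fin n → ℝ)} {f : (Fin n × Fin n → ℝ) → ℝ}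
    (hf : AnalyticOnNhd ℝ f U) (z : Fin n × Fin n) (j : ℕ) {Y : Fin n × Fin n → ℝ} (hY : Y ∈ U) :
    AnalyticAt ℝ (dd f z j) Y := by
  have h1 := hf.iteratedFDeriv j Y hY
  have h2 := (ContinuousMultilinearMap.apply ℝ (fun _ : Fin j => (Fin n × Fin n → ℝ)) ℝ
    (fun _ => El z)).analyticAt (iteratedFDeriv ℝ j f Y)
  exact AnalyticAt.fun_comp (g := fun L => ContinuousMultilinearMap.apply ℝ
    (fun _ : Fin j => (Fin n × Fin n → ℝ)) ℝ (fun _ => El z) L) (f := iteratedFDeriv ℝ j f) h2 h1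

theorem dd_zero (f : (Fin n × Fin n → ℝ) → ℝ) (z : Fin n × Fin n) (Y : Fin n × Fin n → ℝ) :
    dd f z 0 Y = f Y := iteratedFDeriv_zero_apply _

theorem exists_order {U : Set (Fin n × Fin n → ℝ)} {f : (Fin n × Fin n → ℝ) → ℝ}
    (hf : AnalyticOnNhd ℝ f U) (z : Fin n × Fin n) {c : Fin n × Fin n → ℝ} (hc : c ∈ U)
    (h0 : f c = 0) (hne : ¬ ∀ᶠ τ : ℝ in 𝓝 0, f (c + τ • El z) = 0) :
    ∃ e : ℕ, (∀ j ≤ e, dd f z j c = 0) ∧ dd f z (e + 1) c ≠ 0 := by
  classical
  have hex : ∃ j, dd f z j c ≠ 0 := by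
    by_contra hall
    push Not at hall
    apply hne
    obtain ⟨p, r, hp⟩ := hf c hc
    have h1 : ∀ᶠ τ : ℝ in 𝓝 0, τ • (El z : Fin n × Fin n → ℝ) ∈ Metric.eball 0 r := by
      have h2 : Tendsto (fun τ : ℝ => τ • (El z : Fin n × Fin n → ℝ)) (𝓝 0) (𝓝 0) := by
        have h3 : Continuous fun τ : ℝ => τ • (El z : Fin n × Fin n → ℝ) := by fun_prop
        simpa using h3.tendsto 0
      exact h2 (Metric.eball_mem_nhds _ hp.r_pos)
    filter_upwards [h1] with τ hτ
    have h4 := hp.hasSum_iteratedFDeriv hτ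
    have h5 : (fun k : ℕ => ((k.factorial : ℝ))⁻¹ • iteratedFDeriv ℝ k f c fun _ => τ • El z)
        = fun _ => 0 := by
      funext k
      rw [iter_smul, hall k, mul_zero, smul_zero]
    rw [h5] at h4
    exact h4.unique hasSum_zero
  have hfind := Nat.find_spec hex
  have hmin : ∀ j < Nat.find hex, dd f z j c = 0 := fun j hj => by
    by_contra h
    exact Nat.find_min hex hj h
  rcases Nat.eq_zero_or_pos (Nat.find hex) with h1 | h1
  · rw [h1, dd_zero] at hfind
    exact absurd h0 hfind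
  · refine ⟨Nat.find hex - 1, fun j hj => hmin j (by omega), ?_⟩
    rw [Nat.sub_add_cancel h1]
    exact hfind

/-- Taylor expansion on lines, uniform in the starting point -/
theorem taylor_line {U : Set (Fin n × Fin n → ℝ)} (hU : IsOpen U) {f : (Fin n × Fin n → ℝ) → ℝ}
    (hf : AnalyticOnNhd ℝ f U) (z : Fin n × Fin n) {c : Fin n × Fin n → ℝ} (hc : c ∈ U) (M : ℕ) :
    (fun p : (Fin n × Fin n → ℝ) × ℝ => f (p.1 + p.2 • El z) -
      ∑ k ∈ Finset.range (M + 1), ((k.factorial : ℝ))⁻¹ * (p.2 ^ k * dd f z k p.1))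
      =O[𝓝 (c, 0)] fun p => p.2 ^ (M + 1) := by
  set D := iteratedFDeriv ℝ (M + 1) f with hD
  have hcont : ContinuousAt D c := (hf.iteratedFDeriv (M + 1) c hc).continuousAt
  have hbd : ∀ᶠ y in 𝓝 c, ‖D y‖ ≤ ‖D c‖ + 1 := by
    have h1 : Tendsto (fun y => ‖D y‖) (𝓝 c) (𝓝 ‖D c‖) := hcont.norm
    exact (h1.eventually (gt_mem_nhds (show ‖D c‖ < ‖D c‖ + 1 by linarith))).mono
      fun y hy => hy.le
  obtain ⟨δ, hδ, hball⟩ := Metric.eventually_nhds_iff.1 (hbd.and (hU.mem_nhds hc))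
  have hE : ‖(El z : Fin n × Fin n → ℝ)‖ ≤ 1 := by
    unfold El
    rw [pi_norm_le_iff_of_nonneg zero_le_one]
    intro i
    rw [Pi.single_apply]
    split_ifs <;> simp
  have hev : ∀ᶠ p : (Fin n × Fin n → ℝ) × ℝ in 𝓝 (c, 0), dist p.1 c < δ / 2 ∧ |p.2| < δ / 2 := by
    have h1 : ∀ᶠ p : (Fin n × Fin n → ℝ) × ℝ in 𝓝 (c, 0), dist p.1 c < δ / 2 := by
      have h2 : Tendsto (fun p : (Fin n × Fin n → ℝ) × ℝ => p.1) (𝓝 (c, 0)) (𝓝 c) :=
        continuous_fst.tendsto _
      exact h2.eventually (Metric.ball_mem_nhds c (half_pos hδ))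
    have h3 : ∀ᶠ p : (Fin n × Fin n → ℝ) × ℝ in 𝓝 (c, 0), |p.2| < δ / 2 := by
      have h2 : Tendsto (fun p : (Fin n × Fin n → ℝ) × ℝ => p.2) (𝓝 (c, 0)) (𝓝 0) :=
        continuous_snd.tendsto _
      have h4 := h2.eventually (Metric.ball_mem_nhds (0 : ℝ) (half_pos hδ))
      refine h4.mono fun p hp => ?_
      rwa [Real.dist_eq, sub_zero] at hp
    exact h1.and h3
  refine IsBigO.of_bound ((M.factorial : ℝ)⁻¹ * (‖D c‖ + 1)) ?_
  filter_upwards [hev] with p hp
  have hseg : ∀ t : ℝ, 0 ≤ t → t ≤ 1 → dist (p.1 + t • (p.2 • El z)) c < δ := by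
    intro t ht0 ht1
    calc dist (p.1 + t • (p.2 • El z)) c ≤ dist (p.1 + t • (p.2 • El z)) p.1 + dist p.1 c :=
          dist_triangle _ _ _
      _ < δ / 2 + δ / 2 := by
          refine add_lt_add ?_ hp.1
          rw [dist_eq_norm, add_sub_cancel_left, norm_smul, norm_smul, Real.norm_eq_abs,
            Real.norm_eq_abs, abs_of_nonneg ht0]
          calc t * (|p.2| * ‖(El z : Fin n × Fin n → ℝ)‖) ≤ 1 * (|p.2| * 1) := by
                apply mul_le_mul ht1 _ (by positivity) zero_le_one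
                exact mul_le_mul_of_nonneg_left hE (abs_nonneg _)
            _ < δ / 2 := by rw [one_mul, mul_one]; exact hp.2
      _ = δ := by ring
  have h2 := map_add_eq_sum_add_integral_iteratedFDeriv (f := f) (x := p.1) (y := p.2 • El z)
    (n := M) fun t ht => (hf _ (hball (hseg t ht.1 ht.2)).2).contDiffAt
  have h3 : f (p.1 + p.2 • El z) -
      ∑ k ∈ Finset.range (M + 1), ((k.factorial : ℝ))⁻¹ * (p.2 ^ k * dd f z k p.1) =
      (M.factorial : ℝ)⁻¹ • ∫ t in (0:ℝ)..1, (1 - t) ^ M • D (p.1 + t • (p.2 • El z))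
        (fun _ => p.2 • El z) := by
    have h8 : (∑ k ∈ Finset.range (M + 1), ((k.factorial : ℝ))⁻¹ •
        (iteratedFDeriv ℝ k f p.1 fun _ => p.2 • El z)) =
        ∑ k ∈ Finset.range (M + 1), ((k.factorial : ℝ))⁻¹ * (p.2 ^ k * dd f z k p.1) := by
      refine Finset.sum_congr rfl fun k _ => ?_
      rw [iter_smul, smul_eq_mul]
    rw [h2, h8, add_sub_cancel_left]
  rw [h3, norm_smul, mul_assoc]
  have h4 : ‖(M.factorial : ℝ)⁻¹‖ = (M.factorial : ℝ)⁻¹ := by
    rw [Real.norm_eq_abs, abs_of_nonneg (by positivity)]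
  rw [h4]
  refine mul_le_mul_of_nonneg_left ?_ (by positivity)
  have h5 := intervalIntegral.norm_integral_le_of_norm_le_const (a := (0:ℝ)) (b := 1)
    (f := fun t : ℝ => (1 - t) ^ M • D (p.1 + t • (p.2 • El z)) (fun _ => p.2 • El z))
    (C := (‖D c‖ + 1) * ‖p.2 ^ (M + 1)‖) ?_
  · rw [sub_zero, abs_one, mul_one] at h5
    exact h5
  · intro t ht
    rw [Set.uIoc_of_le zero_le_one] at ht
    have h6 : ‖D (p.1 + t • (p.2 • El z))‖ ≤ ‖D c‖ + 1 := (hball (hseg t ht.1.le ht.2)).1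
    have h7 : ‖D (p.1 + t • (p.2 • El z)) (fun _ => p.2 • El z)‖ ≤
        (‖D c‖ + 1) * ‖p.2 ^ (M + 1)‖ := by
      refine (ContinuousMultilinearMap.le_opNorm _ _).trans ?_
      rw [Finset.prod_const, Finset.card_univ, Fintype.card_fin, norm_smul, norm_pow]
      refine mul_le_mul h6 ?_ (by positivity) (by positivity)
      refine pow_le_pow_left₀ (by positivity) ?_ _
      calc ‖p.2‖ * ‖(El z : Fin n × Fin n → ℝ)‖ ≤ ‖p.2‖ * 1 :=
            mul_le_mul_of_nonneg_left hE (norm_nonneg _)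
        _ = ‖p.2‖ := mul_one _
    rw [norm_smul, norm_pow]
    calc ‖1 - t‖ ^ M * ‖D (p.1 + t • (p.2 • El z)) (fun _ => p.2 • El z)‖
        ≤ 1 * ((‖D c‖ + 1) * ‖p.2 ^ (M + 1)‖) := by
          refine mul_le_mul ?_ h7 (norm_nonneg _) zero_le_one
          refine pow_le_one₀ (norm_nonneg _) ?_
          rw [Real.norm_eq_abs, abs_le]
          constructor <;> linarith [ht.1, ht.2]
      _ = _ := one_mul _

/-- the choice of the point -/
theorem exists_point (z : Fin n × Fin n) {U : Set (Fin n × Fin n → ℝ)} (hU : IsOpen U)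
    {f : (Fin n × Fin n → ℝ) → ℝ} (hf : AnalyticOnNhd ℝ f U)
    (hbad : volume {X | cof z X ≠ 0 ∧ pr z X ∈ U ∧ f (pr z X) = 0 ∧
      ¬ ∀ᶠ τ : ℝ in 𝓝 0, f (pr z X + τ • El z) = 0} ≠ 0) :
    ∃ X, cof z X ≠ 0 ∧ pr z X ∈ U ∧ AlgebraicIndependent ℚ X ∧
      ∃ e : ℕ, dd f z (e + 1) (pr z X) ≠ 0 ∧ ∀ j ≤ e, ∀ M : ℕ,
        (fun Y => dd f z j (pr z Y)) =O[𝓝 X] fun Y => ‖Y - X‖ ^ M := by
  classical
  set Dm : Set (Fin n × Fin n → ℝ) := {Y | cof z Y ≠ 0 ∧ pr z Y ∈ U} with hDm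
  have hcofc : Continuous (cof z) :=
    continuous_iff_continuousAt.2 fun Y => (cof_analytic z Y).continuousAt
  have hopen1 : IsOpen {Y : Fin n × Fin n → ℝ | cof z Y ≠ 0} :=
    isOpen_ne_fun hcofc continuous_const
  have hDo : IsOpen Dm := by
    have h1 : ContinuousOn (pr z) {Y : Fin n × Fin n → ℝ | cof z Y ≠ 0} := fun Y hY =>
      (pr_analytic z hY).continuousAt.continuousWithinAt
    exact h1.isOpen_inter_preimage hopen1 hU
  have hu : ∀ j, ∀ Y ∈ Dm, AnalyticAt ℝ (fun Y => dd f z j (pr z Y)) Y := by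
    intro j Y hY
    exact AnalyticAt.fun_comp (g := dd f z j) (f := pr z) (dd_analytic hf z j hY.2)
      (pr_analytic z hY.1)
  have hne : ∀ j, MeasurableSet (Dm ∩ {Y | dd f z j (pr z Y) ≠ 0}) := by
    intro j
    have h1 : ContinuousOn (fun Y => dd f z j (pr z Y)) Dm := fun Y hY =>
      (hu j Y hY).continuousAt.continuousWithinAt
    exact (h1.isOpen_inter_preimage hDo (isOpen_ne (x := (0 : ℝ)))).measurableSet
  have heq : ∀ j, MeasurableSet (Dm ∩ {Y | dd f z j (pr z Y) = 0}) := by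
    intro j
    have h1 : Dm ∩ {Y | dd f z j (pr z Y) = 0} = Dm \ (Dm ∩ {Y | dd f z j (pr z Y) ≠ 0}) := by
      ext Y
      simp only [Set.mem_inter_iff, Set.mem_ofPred_eq, Set.mem_sdiff]
      tauto
    rw [h1]
    exact hDo.measurableSet.diff (hne j)
  set Z : ℕ → Set (Fin n × Fin n → ℝ) := fun e => (Dm ∩ {Y | dd f z (e + 1) (pr z Y) ≠ 0}) ∩
    ⋂ j : Fin (e + 1), (Dm ∩ {Y | dd f z j (pr z Y) = 0}) with hZ
  have hZm : ∀ e, MeasurableSet (Z e) := fun e =>
    (hne (e + 1)).inter (MeasurableSet.iInter fun j => heq j)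
  have hcover : {X | cof z X ≠ 0 ∧ pr z X ∈ U ∧ f (pr z X) = 0 ∧
      ¬ ∀ᶠ τ : ℝ in 𝓝 0, f (pr z X + τ • El z) = 0} ⊆ ⋃ e, Z e := by
    rintro X ⟨h1, h2, h3, h4⟩
    obtain ⟨e, he1, he2⟩ := exists_order hf z h2 h3 h4
    rw [Set.mem_iUnion]
    refine ⟨e, ⟨⟨h1, h2⟩, he2⟩, ?_⟩
    rw [Set.mem_iInter]
    exact fun j => ⟨⟨h1, h2⟩, he1 j (by have := j.2; omega)⟩
  obtain ⟨e, he⟩ : ∃ e, volume (Z e) ≠ 0 := by
    by_contra hall
    push Not at hall
    exact hbad (measure_mono_null hcover (measure_iUnion_null hall))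
  have hZD : ∀ X ∈ Z e, X ∈ Dm := fun X hX => hX.1.1
  have hae : ∀ᵐ X ∂(volume : Measure (Fin n × Fin n → ℝ)).restrict (Z e), ∀ j : ℕ, ∀ M : ℕ,
      j ≤ e → (fun Y => dd f z j (pr z Y)) =O[𝓝 X] fun Y => ‖Y - X‖ ^ M := by
    rw [ae_all_iff]
    intro j
    rw [ae_all_iff]
    intro M
    by_cases hj : j ≤ e
    · have h1 := ae_isBigO_at (volume : Measure (Fin n × Fin n → ℝ)) M (hZm e)
        (u := fun Y => dd f z j (pr z Y)) (fun X hX => (hu j X (hZD X hX)).contDiffAt)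
        (fun X hX => ((Set.mem_iInter.1 hX.2) ⟨j, by omega⟩).2)
      filter_upwards [h1] with X hX _
      exact hX
    · exact Eventually.of_forall fun X h => absurd h hj
  have halg : ∀ᵐ X ∂(volume : Measure (Fin n × Fin n → ℝ)).restrict (Z e),
      AlgebraicIndependent ℚ X := ae_restrict_of_ae (ae_algInd _)
  have hmem : ∀ᵐ X ∂(volume : Measure (Fin n × Fin n → ℝ)).restrict (Z e), X ∈ Z e :=
    ae_restrict_mem (hZm e)
  have hnb : (ae ((volume : Measure (Fin n × Fin n → ℝ)).restrict (Z e))).NeBot := by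
    rw [ae_neBot]
    intro h
    exact he (Measure.restrict_eq_zero.1 h)
  obtain ⟨X, ⟨hX1, hX2⟩, hX3⟩ := ((hae.and halg).and hmem).exists
  exact ⟨X, (hZD X hX3).1, (hZD X hX3).2, hX2, e, hX3.1.2, fun j hj M => hX1 j M hj⟩

theorem exists_local {n : ℕ} (z : Fin n × Fin n) {U : Set (Fin n × Fin n → ℝ)} (hU : IsOpen U)
    {f : (Fin n × Fin n → ℝ) → ℝ} (hf : AnalyticOnNhd ℝ f U)
    (hbad : volume {X | cof z X ≠ 0 ∧ pr z X ∈ U ∧ f (pr z X) = 0 ∧
      ¬ ∀ᶠ τ : ℝ in 𝓝 0, f (pr z X + τ • El z) = 0} ≠ 0) :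
    ∃ X, cof z X ≠ 0 ∧ pr z X ∈ U ∧
      AlgebraicIndependent ℚ (fun s : {s : Fin n × Fin n // s ≠ z} => X s.1) ∧
      ∃ e : ℕ, ∀ N : ℕ, ∃ h : MvPolynomial (Fin n × Fin n) ℝ, eval (pr z X) h ≠ 0 ∧
        (fun x => f x - permF n x ^ (e + 1) * eval x h) =O[𝓝 (pr z X)]
          fun x => ‖x - pr z X‖ ^ (N + 1) := by
  obtain ⟨X, hX1, hX2, hX3, e, he, hO⟩ := exists_point z hU hf hbad
  refine ⟨X, hX1, hX2, hX3.comp _ Subtype.val_injective, e, fun N => ?_⟩
  set c := pr z X with hc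
  have hcc : cof z c ≠ 0 := by rw [hc, cof_pr]; exact hX1
  have hpc : permF n c = 0 := permF_pr z X hX1
  have hprc : pr z c = c := by
    rw [hc]
    conv_lhs => rw [pr_eq z X]
    rw [pr_line z X _ hX1]
  set T : (Fin n × Fin n → ℝ) → ℝ := fun x => permF n x / cof z x with hT
  have hTc : T c = 0 := by simp only [hT, hpc, zero_div]
  have hTa : AnalyticAt ℝ T c := quot_analytic z hcc
  have hTO : T =O[𝓝 c] fun x => ‖x - c‖ := by
    have h1 := hTa.differentiableAt.isBigO_sub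
    rw [hTc] at h1
    simp only [sub_zero] at h1
    exact h1.norm_right
  have hcof : ∀ᶠ x in 𝓝 c, cof z x ≠ 0 :=
    (cof_analytic z c).continuousAt.eventually_ne hcc
  have hprt : Tendsto (pr z) (𝓝 c) (𝓝 c) := by
    have h1 := (pr_analytic z hcc).continuousAt
    unfold ContinuousAt at h1
    rwa [hprc] at h1
  -- powers of the distance
  have hpow : ∀ M, N + 1 ≤ M → (fun x : Fin n × Fin n → ℝ => ‖x - c‖ ^ M) =O[𝓝 c]
      fun x => ‖x - c‖ ^ (N + 1) := by
    intro M hM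
    obtain ⟨k, rfl⟩ := Nat.exists_eq_add_of_le hM
    have h1 := (isBigO_refl (fun x : Fin n × Fin n → ℝ => ‖x - c‖ ^ (N + 1)) (𝓝 c)).mul
      (norm_pow_bdd (c := c) k)
    simp only [← pow_add, mul_one] at h1
    exact h1
  -- the low derivatives
  have hlow : ∀ j ≤ e, (fun x => dd f z j (pr z x)) =O[𝓝 c] fun x => ‖x - c‖ ^ (N + 1) := by
    intro j hj
    have h1 := hO j hj (N + 1)
    have h2 : X = c + T X • El z := (eq_pr_add z X).symm
    have h3 : Tendsto (fun x : Fin n × Fin n → ℝ => x + T X • El z) (𝓝 c) (𝓝 X) := by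
      have h4 : Continuous fun x : Fin n × Fin n → ℝ => x + T X • El z := by fun_prop
      have h5 := h4.tendsto c
      rwa [← h2] at h5
    have h6 := h1.comp_tendsto h3
    refine IsBigO.congr' h6 ?_ ?_
    · filter_upwards [hcof] with x hx
      simp only [Function.comp_apply]
      rw [pr_line z x _ hx]
    · refine Eventually.of_forall fun x => ?_
      simp only [Function.comp_apply]
      have h7 : x + T X • El z - X = x - c := by
        calc x + T X • El z - X = x + T X • El z - (c + T X • El z) := by rw [← h2]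
          _ = x - c := add_sub_add_right_eq_sub _ _ _
      rw [h7]
  -- the expansion on the line
  have hline := taylor_line hU hf z hX2 (e + 1 + N)
  have htend : Tendsto (fun x => (pr z x, T x)) (𝓝 c) (𝓝 (c, 0)) := by
    have h1 : Tendsto T (𝓝 c) (𝓝 0) := by
      have h2 := hTa.continuousAt
      unfold ContinuousAt at h2
      rwa [hTc] at h2
    exact hprt.prodMk_nhds h1
  have hR := hline.comp_tendsto htend
  have hR2 : (fun x => f x - ∑ k ∈ Finset.range (e + 1 + N + 1),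
      ((k.factorial : ℝ))⁻¹ * (T x ^ k * dd f z k (pr z x))) =O[𝓝 c]
      fun x => ‖x - c‖ ^ (N + 1) := by
    have h1 : (fun x => T x ^ (e + 1 + N + 1)) =O[𝓝 c] fun x => ‖x - c‖ ^ (N + 1) :=
      (hTO.pow _).trans (hpow _ (by omega))
    refine IsBigO.trans ?_ h1
    refine IsBigO.congr_left hR fun x => ?_
    simp only [Function.comp_apply]
    rw [eq_pr_add]
  -- the high part
  set H : (Fin n × Fin n → ℝ) → ℝ := fun x => ∑ i ∈ Finset.range (N + 1),
    (((e + 1 + i).factorial : ℝ))⁻¹ * (T x ^ i * dd f z (e + 1 + i) (pr z x)) with hH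
  have hHc : H c ≠ 0 := by
    simp only [hH, hTc, hprc]
    rw [Finset.sum_range_succ']
    simp only [pow_succ, mul_zero, zero_mul, Finset.sum_const_zero, zero_add, pow_zero, one_mul,
      add_zero]
    exact mul_ne_zero (inv_ne_zero (by positivity)) he
  have hHa : AnalyticAt ℝ H c := by
    simp only [hH]
    refine Finset.analyticAt_fun_sum _ fun i _ => ?_
    refine analyticAt_const.mul ((hTa.pow i).mul ?_)
    refine AnalyticAt.fun_comp (g := dd f z (e + 1 + i)) (f := pr z) ?_ (pr_analytic z hcc)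
    rw [hprc]
    exact dd_analytic hf z _ hX2
  set q : (Fin n × Fin n → ℝ) → ℝ := fun x => H x / cof z x ^ (e + 1) with hq
  have hqa : AnalyticAt ℝ q c := hHa.div ((cof_analytic z c).pow _) (pow_ne_zero _ hcc)
  have hqc : q c ≠ 0 := div_ne_zero hHc (pow_ne_zero _ hcc)
  obtain ⟨h, hh⟩ := exists_taylor hqa N
  refine ⟨h, ?_, ?_⟩
  · rw [apx_self hh]
    exact hqc
  · -- the sum of the errors
    have hsplit : ∀ x, ∑ k ∈ Finset.range (e + 1 + N + 1),
        ((k.factorial : ℝ))⁻¹ * (T x ^ k * dd f z k (pr z x)) =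
        ∑ k ∈ Finset.range (e + 1), ((k.factorial : ℝ))⁻¹ * (T x ^ k * dd f z k (pr z x)) +
          T x ^ (e + 1) * H x := by
      intro x
      rw [add_assoc (e + 1) N 1, Finset.sum_range_add]
      congr 1
      simp only [hH]
      rw [Finset.mul_sum]
      refine Finset.sum_congr rfl fun i _ => ?_
      rw [pow_add]
      ring
    have hTb : T =O[𝓝 c] fun _ => (1 : ℝ) := hTa.continuousAt.isBigO_one ℝ
    have hL : (fun x => ∑ k ∈ Finset.range (e + 1),
        ((k.factorial : ℝ))⁻¹ * (T x ^ k * dd f z k (pr z x))) =O[𝓝 c]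
        fun x => ‖x - c‖ ^ (N + 1) := by
      refine IsBigO.fun_sum fun k hk => ?_
      have hk' : k ≤ e := by
        rw [Finset.mem_range] at hk
        omega
      have h1 := (hTb.pow k).mul (hlow k hk')
      simp only [one_pow, one_mul] at h1
      exact h1.const_mul_left _
    have hP : (fun x => permF n x ^ (e + 1) * (q x - eval x h)) =O[𝓝 c]
        fun x => ‖x - c‖ ^ (N + 1) := by
      have h1 : (permF n) =O[𝓝 c] fun _ => (1 : ℝ) :=
        (permF_analytic c).continuousAt.isBigO_one ℝ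
      have h2 := (h1.pow (e + 1)).mul hh
      simp only [one_pow, one_mul] at h2
      exact h2
    refine IsBigO.congr' ((hR2.add hL).add hP) ?_ (EventuallyEq.refl _ _)
    filter_upwards [hcof] with x hx
    rw [hsplit]
    have h1 : T x ^ (e + 1) * H x = permF n x ^ (e + 1) * q x := by
      simp only [hT, hq]
      rw [div_pow]
      ring
    rw [h1]
    ring

end Pool.XMN
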