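import Mathlib

/-!
# XMN, row V: an exotic valuation on the field of Laurent series
-/

set_option autoImplicit false

namespace Pool.XMN

open MvPolynomial

/-- Chevalley: a homomorphism from a subring of a field to a field gives a valuation of the
field -/
theorem exists_valuation_of_hom {R K L : Type} [CommRing R] [Field K] [Field L] (ι : R →+* K)
    (hι : Function.Injective ι) (ψ : R →+* L) :
    ∃ (Γ : Type) (_ : LinearOrderedCommGroupWithZero Γ) (v : Valuation K Γ),
      (∀ a, v (ι a) ≤ 1) ∧ ∀ a, ψ a = 0 → v (ι a) < 1 := by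
  have hR : Nontrivial R := ψ.domain_nontrivial
  let e : R ≃+* ι.range := RingEquiv.ofBijective ι.rangeRestrict
    ⟨fun a b h => hι (congrArg Subtype.val h), ι.rangeRestrict_surjective⟩
  have hI : RingHom.ker (ψ.comp e.symm.toRingHom) ≠ ⊤ := RingHom.ker_ne_top _
  obtain ⟨B, hB, hB'⟩ := Ideal.image_subset_nonunits_valuationSubring _ hI
  refine ⟨B.ValueGroup, inferInstance, B.valuation, fun a => ?_, fun a ha => ?_⟩
  · rw [B.valuation_le_one_iff]
    exact hB ⟨a, rfl⟩
  · rw [← ValuationSubring.mem_nonunits_iff]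
    refine hB' ⟨e a, ?_, rfl⟩
    have : ψ (e.symm (e a)) = 0 := by rw [RingEquiv.symm_apply_apply, ha]
    exact this

theorem exists_val {τ : Type} (C0 : τ → ℝ) (h : AlgebraicIndependent ℚ C0) (C1 : τ → ℚ) :
    ∃ (Γ : Type) (_ : LinearOrderedCommGroupWithZero Γ) (v : Valuation (LaurentSeries ℝ) Γ),
      (∀ s, v (HahnSeries.C (C0 s) - (C1 s : LaurentSeries ℝ)) < 1) ∧
      (∀ q : ℚ, q ≠ 0 → v (q : LaurentSeries ℝ) = 1) ∧
      (∀ f : PowerSeries ℝ, PowerSeries.constantCoeff f = 0 → v (f : LaurentSeries ℝ) < 1) := by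
  let S : Subring (PowerSeries ℝ) :=
    (Algebra.adjoin ℚ (Set.range C0)).toSubring.comap PowerSeries.constantCoeff
  let c : S →+* Algebra.adjoin ℚ (Set.range C0) :=
    { toFun := fun f => ⟨PowerSeries.constantCoeff f.1, f.2⟩
      map_one' := Subtype.ext (map_one _)
      map_mul' := fun a b => Subtype.ext (map_mul _ _ _)
      map_zero' := Subtype.ext (map_zero _)
      map_add' := fun a b => Subtype.ext (map_add _ _ _) }
  let ψ : S →+* ℚ := ((aeval C1 : MvPolynomial τ ℚ →ₐ[ℚ] ℚ) : MvPolynomial τ ℚ →+* ℚ).comp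
    ((h.repr : _ →+* MvPolynomial τ ℚ).comp c)
  let ι : S →+* LaurentSeries ℝ := (HahnSeries.ofPowerSeries ℤ ℝ).comp S.subtype
  obtain ⟨Γ, _, v, h1, h2⟩ := exists_valuation_of_hom ι
    (HahnSeries.ofPowerSeries_injective.comp Subtype.val_injective) ψ
  have hmem : ∀ p : MvPolynomial τ ℚ, aeval C0 p ∈ Algebra.adjoin ℚ (Set.range C0) := by
    intro p
    have := (h.aevalEquiv p).2
    rwa [← h.algebraMap_aevalEquiv p]
  have hkey : ∀ (p : MvPolynomial τ ℚ) (f : PowerSeries ℝ),
      PowerSeries.constantCoeff f = aeval C0 p → aeval C1 p = (0 : ℚ) →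
      v (f : LaurentSeries ℝ) < 1 := by
    intro p f hf hp
    have hfS : f ∈ S := by
      change PowerSeries.constantCoeff f ∈ Algebra.adjoin ℚ (Set.range C0)
      rw [hf]
      exact hmem p
    refine h2 ⟨f, hfS⟩ ?_
    change aeval C1 (h.repr ⟨PowerSeries.constantCoeff f, _⟩) = 0
    have : h.repr ⟨PowerSeries.constantCoeff f, hfS⟩ = p := by
      apply h
      rw [h.aeval_repr]
      exact hf
    rw [this, hp]
  have hC : ∀ a : ℝ, ((PowerSeries.C a : PowerSeries ℝ) : LaurentSeries ℝ) = HahnSeries.C a :=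
    fun a => HahnSeries.ofPowerSeries_C a
  have hrat : ∀ q : ℚ, (q : LaurentSeries ℝ) =
      ((PowerSeries.C (q : ℝ) : PowerSeries ℝ) : LaurentSeries ℝ) := by
    intro q
    rw [hC, map_ratCast]
  have hchar : CharZero (LaurentSeries ℝ) :=
    charZero_of_injective_ringHom (HahnSeries.C : ℝ →+* LaurentSeries ℝ).injective
  have hle : ∀ q : ℚ, v (q : LaurentSeries ℝ) ≤ 1 := by
    intro q
    rw [hrat]
    refine h1 ⟨PowerSeries.C (q : ℝ), ?_⟩
    change PowerSeries.constantCoeff (PowerSeries.C (q : ℝ)) ∈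
      Algebra.adjoin ℚ (Set.range C0)
    rw [PowerSeries.constantCoeff_C]
    exact Subalgebra.algebraMap_mem _ q
  refine ⟨Γ, inferInstance, v, fun s => ?_, fun q hq => ?_, fun f hf => ?_⟩
  · have := hkey (X s - C (C1 s)) (PowerSeries.C (C0 s) - PowerSeries.C ((C1 s : ℚ) : ℝ))
      (by simp) (by simp)
    rwa [map_sub, hC, ← hrat] at this
  · refine le_antisymm (hle q) ?_
    have h3 := hle q⁻¹
    have h4 : v (q : LaurentSeries ℝ) * v ((q⁻¹ : ℚ) : LaurentSeries ℝ) = 1 := by
      rw [← map_mul, ← Rat.cast_mul, mul_inv_cancel₀ hq, Rat.cast_one, map_one]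
    by_contra h5
    have h6 : v (q : LaurentSeries ℝ) * v ((q⁻¹ : ℚ) : LaurentSeries ℝ) < 1 :=
      mul_lt_one_of_lt_of_le (not_le.1 h5) h3
    rw [h4] at h6
    exact lt_irrefl _ h6
  · exact hkey 0 f (by simpa using hf) (by simp)

end Pool.XMN
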