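import Pool.Agent.XMN.Close
import Pool.Agent.XMN.Extract3
import Pool.Agent.XMN.Val
import Pool.Agent.XMN.Local
import Pool.Agent.XM.Generic
import Pool.Agent.CDep.Lift

/-!
# XMN: assembly
-/

set_option autoImplicit false

namespace Pool.XMN

open Finset MvPolynomial Filter Topology Asymptotics Pool.XN Pool.SM Pool.Agent.Helper41.CD
open MeasureTheory

/-- a gate of a circuit is in the class -/
theorem gate_cls {σ K : Type} [Fintype σ] [Field K] {d w s S : ℕ} (hw : 1 ≤ w)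
    (hS : s + Fintype.card σ + 1 ≤ S) {Q : Fin s → MvPolynomial σ K}
    (hQ : Pool.QPIT.IsCircuitW (d + 1) w Q) (g : Fin s) : Q g ∈ Cls w w S (d + 1) := by
  obtain ⟨f, hf, hfQ⟩ := Pool.QPIT.circuit_sumW hw hS hQ g
  obtain ⟨F, hF, hFf⟩ := Pool.XD.exists_sum_prod (T := S) (S := S) (ι := Fin (s + 1)) (by omega)
    (by rw [Fintype.card_fin]; omega) (Pool.QPIT.zero_mem' w w S d) (fun i => ∏ j, f i j)
    (fun i => ⟨f i, hf i, rfl⟩)
  rw [← hfQ, ← hFf]
  exact Pool.QPIT.sum_prodW hw d F hF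

section perm

variable {n m : ℕ}

theorem hat_permP (C0 : Fin n × Fin n → ℝ) (z : Fin n × Fin n)
    (D : Fin n × Fin n → Option (Fin m × Fin m)) :
    hat C0 z D (Pool.CDep.permP n ℝ) = map PowerSeries.C (Mx C0 z D 0) +
      C PowerSeries.X * map PowerSeries.C (Mx C0 z D 1 - Mx C0 z D 0) := by
  unfold hat
  rw [Pool.XM.aeval_permP, map_sub, map_Mx, map_Mx, map_zero, map_one]
  have h := perm_aff_at z (Matrix.of fun i j => C (PowerSeries.C (C0 (i, j))) +
    ((D (i, j)).elim 0 X : MvPolynomial (Fin m × Fin m) (PowerSeries ℝ)))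
    (C PowerSeries.X)
  have h0 : Mx (fun s => PowerSeries.C (C0 s)) z D 0 =
      (Matrix.of fun i j => C (PowerSeries.C (C0 (i, j))) +
        ((D (i, j)).elim 0 X : MvPolynomial (Fin m × Fin m) (PowerSeries ℝ))).permanent := by
    unfold Mx
    congr 1
    ext1 i j
    rw [Matrix.of_apply, Matrix.of_apply]
    split_ifs <;> rw [add_zero]
  rw [h0]
  exact h

/-- the permanent is affine in the entry -/
theorem permF_aff (z : Fin n × Fin n) (X : Fin n × Fin n → ℝ) (τ : ℝ) :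
    permF n (X + τ • El z) = permF n X + τ * cof z X := by
  have h := perm_aff_at z (Matrix.of fun i j => X (i, j)) τ
  have h1 : ∀ t : ℝ, permF n (X + t • El z) =
      (Matrix.of fun i j => (Matrix.of fun i j => X (i, j)) i j +
        if (i, j) = z then t else 0).permanent := by
    intro t
    unfold permF
    congr 1
    ext1 i j
    rw [Matrix.of_apply, Matrix.of_apply, Matrix.of_apply, Pi.add_apply, Pi.smul_apply, El,
      Pi.single_apply, smul_eq_mul, mul_ite, mul_one, mul_zero]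
  rw [h1, h]
  unfold cof
  have h2 := h1 1
  rw [one_smul] at h2
  rw [h2]
  rfl

theorem cof_add (z : Fin n × Fin n) (X : Fin n × Fin n → ℝ) (τ : ℝ) :
    cof z (X + τ • El z) = cof z X := by
  have h1 := permF_aff z X (τ + 1)
  have h2 := permF_aff z X τ
  unfold cof at h1 h2 ⊢
  have h3 : X + τ • El z + El z = X + (τ + 1) • El z := by rw [add_smul, one_smul, add_assoc]
  rw [h3, h1, h2]
  ring

theorem pr_of_ne (z : Fin n × Fin n) (X : Fin n × Fin n → ℝ) {s : Fin n × Fin n} (h : s ≠ z) :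
    pr z X s = X s := by
  rw [pr, Pi.sub_apply, Pi.smul_apply, El, Pi.single_eq_of_ne h, smul_zero, sub_zero]

theorem constantCoeff_cof (C0 : Fin n × Fin n → ℝ) (z : Fin n × Fin n)
    (D : Fin n × Fin n → Option (Fin m × Fin m)) :
    constantCoeff (Mx C0 z D 1 - Mx C0 z D 0) = cof z C0 := by
  have h1 : ∀ t : ℝ, permF n (C0 + t • El z) =
      (Matrix.of fun i j => C0 (i, j) + if (i, j) = z then t else 0).permanent := by
    intro t
    unfold permF
    congr 1
    ext1 i j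
    rw [Matrix.of_apply, Matrix.of_apply, Pi.add_apply, Pi.smul_apply, El,
      Pi.single_apply, smul_eq_mul, mul_ite, mul_one, mul_zero]
  rw [map_sub, constantCoeff_Mx, constantCoeff_Mx, map_one, map_zero, ← h1, ← h1, one_smul,
    zero_smul, add_zero]
  rfl

theorem constantCoeff_perm (C0 : Fin n × Fin n → ℝ) (z : Fin n × Fin n)
    (D : Fin n × Fin n → Option (Fin m × Fin m)) :
    constantCoeff (Mx C0 z D 0) = permF n C0 := by
  rw [constantCoeff_Mx, map_zero]
  unfold permF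
  congr 1
  ext1 i j
  rw [Matrix.of_apply, Matrix.of_apply]
  split_ifs <;> rw [add_zero]

end perm

theorem permP_homog {m : ℕ} {F : Type} [CommRing F] : (Pool.CDep.permP m F).IsHomogeneous m := by
  unfold Pool.CDep.permP Matrix.permanent
  refine IsHomogeneous.sum _ _ _ fun σ _ => ?_
  have h1 := IsHomogeneous.prod (Finset.univ : Finset (Fin m))
    (fun i => (X (σ i, i) : MvPolynomial (Fin m × Fin m) F)) (fun _ => 1)
    (fun i _ => isHomogeneous_X F (σ i, i))
  simpa using h1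

/-- **the reduction** -/
theorem main_step {n m d w s : ℕ} (hw : 1 ≤ w) (hm : 1 ≤ m) (hn : 3 * m + 1 ≤ n)
    (z : Fin n × Fin n) {U : Set (Fin n × Fin n → ℝ)} (hU : IsOpen U)
    {P : Fin s → (Fin n × Fin n → ℝ) → ℝ} (hP : IsCircuitOn U (d + 1) w P) (g : Fin s)
    (Y : Fin n × Fin n → ℝ) (hcof : cof z Y ≠ 0) (hX : pr z Y ∈ U)
    (hind : AlgebraicIndependent ℚ (fun s : {s : Fin n × Fin n // s ≠ z} => Y s.1)) (e : ℕ)
    (hloc : ∀ N : ℕ, ∃ h : MvPolynomial (Fin n × Fin n) ℝ, eval (pr z Y) h ≠ 0 ∧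
        (fun x => P g x - permF n x ^ (e + 1) * eval x h) =O[𝓝 (pr z Y)]
          fun x => ‖x - pr z Y‖ ^ (N + 1)) :
    ∃ (Γ : Type) (_ : LinearOrderedCommGroupWithZero Γ) (v : Valuation (LaurentSeries ℝ) Γ)
      (f : Fin ((m + 1) * (m + 1)) → MvPolynomial (Fin m × Fin m) (LaurentSeries ℝ)),
      (∀ a : ℕ, a ≠ 0 → v a = 1) ∧ (∀ i, f i ∈ Cls w w (s + n ^ 2 + 1) (d + 1)) ∧
      ∀ δ, v (coeff δ ((∑ i, f i) - Pool.CDep.permP m (LaurentSeries ℝ))) < 1 := by
  classical
  obtain ⟨C1, D, hz, hDz, hg⟩ := gadget_at m n hm hn z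
  set C0 := pr z Y with hC0
  have hperm : permF n C0 = 0 := permF_pr z Y hcof
  obtain ⟨Γ, _, v, hv1, hv2, hv3⟩ := exists_val _ hind (fun s => C1 s.1)
  have hv1' : ∀ s, s ≠ z → v (HahnSeries.C (C0 s) - (C1 s : LaurentSeries ℝ)) < 1 := by
    intro s hs
    rw [hC0, pr_of_ne z Y hs]
    exact hv1 ⟨s, hs⟩
  have hc : constantCoeff (Mx C0 z D 1 - Mx C0 z D 0) ≠ 0 := by
    rw [constantCoeff_cof, cof_pr]
    exact hcof
  obtain ⟨h, hh, hO⟩ := hloc ((e + 2) * m)
  obtain ⟨Q, hQ, hQP⟩ := (taylor_circuit hU hP).2 C0 hX ((e + 2) * m)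
  have hzero : ∀ u, u.degree ≤ (e + 2) * m →
      coeff u (aeval (fun s => X s + C (C0 s)) (Q g - Pool.CDep.permP n ℝ ^ (e + 1) * h)) = 0 := by
    refine coeff_shift_eq_zero _ C0 _ ?_
    have h1 := hO.sub (hQP g)
    refine h1.congr_left fun x => ?_
    rw [map_sub, map_mul, map_pow, eval_permP]
    ring
  obtain ⟨R, φ, hφ, hR⟩ := extract m e hm (Q g) (Pool.CDep.permP n ℝ) h C0 z D (Mx C0 z D 0)
    (Mx C0 z D 1 - Mx C0 z D 0) hh (by rw [constantCoeff_perm, hperm]) hc hzero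
    (hat_permP C0 z D)
  let ι : Fin ((m + 1) * (m + 1)) ≃ Fin (m + 1) × Fin (m + 1) := finProdFinEquiv.symm
  refine ⟨Γ, inferInstance, v, fun i => Polynomial.aeval (aeval (φ (ι i))
    (map (HahnSeries.C : ℝ →+* LaurentSeries ℝ) (Q g))) (R (ι i)), ?_, ?_, ?_⟩
  · intro a ha
    have := hv2 a (by exact_mod_cast ha)
    rwa [Rat.cast_natCast] at this
  · intro i
    refine Pool.QPIT.compW _ ?_ _
    refine Pool.XD.cls_aeval _ (hφ _) ?_
    refine Pool.CDep.cls_map _ _ ?_
    refine gate_cls hw ?_ hQ g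
    rw [Fintype.card_prod, Fintype.card_fin]
    nlinarith
  · intro δ
    obtain ⟨r, ⟨r0, hr0, hr0'⟩, hr⟩ := hR δ
    have hsum : ∑ i, Polynomial.aeval (aeval (φ (ι i))
        (map (HahnSeries.C : ℝ →+* LaurentSeries ℝ) (Q g))) (R (ι i)) =
        ∑ j, Polynomial.aeval (aeval (φ j)
        (map (HahnSeries.C : ℝ →+* LaurentSeries ℝ) (Q g))) (R j) :=
      Equiv.sum_comp ι fun j => Polynomial.aeval (aeval (φ j)
        (map (HahnSeries.C : ℝ →+* LaurentSeries ℝ) (Q g))) (R j)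
    rw [coeff_sub, hsum, hr, add_sub_right_comm]
    have hvr : v r < 1 := by
      rw [← hr0']
      exact hv3 r0 hr0
    refine lt_of_le_of_lt (Valuation.map_add v _ _) (max_lt ?_ hvr)
    by_cases hδ : δ.degree = m
    · rw [if_pos hδ]
      exact close_ratio v hm z C1 D hz hg C0 hperm hv1' hv2 hc δ
    · rw [if_neg hδ]
      have h5 : coeff δ (Pool.CDep.permP m (LaurentSeries ℝ)) = 0 := by
        exact permP_homog.coeff_eq_zero hδ
      rw [h5, map_zero, sub_zero, map_zero]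
      exact zero_lt_one

end Pool.XMN
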