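import Pool.Agent.XMN.Final

/-!
# XMN: from lines to neighbourhoods
-/

set_option autoImplicit false

namespace Pool.XMN

open Finset MvPolynomial Filter Topology Asymptotics Pool.XN Pool.SM
open MeasureTheory

/-- an analytic function which vanishes to infinite order at a point is zero near the point -/
theorem eventually_zero_of_isBigO {E : Type} [NormedAddCommGroup E] [NormedSpace ℝ E] {f : E → ℝ}
    {c : E} (hf : AnalyticAt ℝ f c) (h : ∀ N : ℕ, f =O[𝓝 c] fun x => ‖x - c‖ ^ N) :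
    ∀ᶠ y in 𝓝 c, f y = 0 := by
  obtain ⟨p, r, hp⟩ := hf
  have hz : ∀ k, ∀ y : E, (p k fun _ => y) = 0 := by
    intro k
    induction k using Nat.strong_induction_on with
    | _ k ih =>
      have psum : p.partialSum (k + 1) = fun y => p k fun _ => y := by
        funext z
        refine Finset.sum_eq_single _ (fun b hb hnb => ?_) fun hn => ?_
        · have := Finset.mem_range_succ_iff.mp hb
          exact ih b (this.lt_of_ne hnb) z
        · exact absurd (Finset.mem_range.mpr (Nat.lt_succ_self k)) hn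
      have h1 := hp.hasFPowerSeriesAt.isBigO_sub_partialSum_pow (k + 1)
      rw [psum] at h1
      have h2 : (fun y : E => f (c + y)) =O[𝓝 0] fun y => ‖y‖ ^ (k + 1) := by
        have h3 : Tendsto (fun y : E => c + y) (𝓝 0) (𝓝 c) := by
          have h4 : Continuous fun y : E => c + y := by fun_prop
          simpa using h4.tendsto 0
        have h4 := (h (k + 1)).comp_tendsto h3
        refine h4.congr_right fun y => ?_
        simp [Function.comp]
      have h4 : (fun y : E => p k fun _ => y) =O[𝓝 0] fun y => ‖y‖ ^ (k + 1) := by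
        refine (h2.sub h1).congr_left fun y => ?_
        ring
      exact h4.continuousMultilinearMap_apply_eq_zero
  have h5 : ∀ᶠ y in 𝓝 c, y ∈ Metric.eball c r := Metric.eball_mem_nhds _ hp.r_pos
  filter_upwards [h5] with y hy
  have h6 := hp.hasSum_sub hy
  simp only [hz] at h6
  exact h6.unique hasSum_zero

/-- a monomial which is small of higher order is zero -/
theorem eq_zero_of_isBigO_mul_pow {a : ℝ} (j : ℕ)
    (h : (fun t : ℝ => a * t ^ j) =O[𝓝 0] fun t => t ^ (j + 1)) : a = 0 := by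
  obtain ⟨K, hK⟩ := h.bound
  have h1 : ∀ᶠ t : ℝ in 𝓝[≠] 0, |a| ≤ K * |t| := by
    have h2 := hK.filter_mono (nhdsWithin_le_nhds (s := {(0 : ℝ)}ᶜ))
    filter_upwards [h2, self_mem_nhdsWithin] with t ht ht0
    have ht0' : t ≠ 0 := ht0
    rw [Real.norm_eq_abs, Real.norm_eq_abs, abs_mul, pow_succ, abs_mul, abs_pow] at ht
    have h3 : 0 < |t| ^ j := pow_pos (abs_pos.2 ht0') j
    have h4 : |a| * |t| ^ j ≤ (K * |t|) * |t| ^ j := by linarith
    exact le_of_mul_le_mul_right h4 h3
  have h2 : Tendsto (fun t : ℝ => K * |t|) (𝓝[≠] 0) (𝓝 0) := by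
    have h3 : Continuous fun t : ℝ => K * |t| := by fun_prop
    have h4 := h3.tendsto 0
    simp only [abs_zero, mul_zero] at h4
    exact h4.mono_left nhdsWithin_le_nhds
  have h3 : |a| ≤ 0 := ge_of_tendsto h2 h1
  exact abs_eq_zero.1 (le_antisymm h3 (abs_nonneg a))

variable {n : ℕ}

theorem dd_eq_zero {U : Set (Fin n × Fin n → ℝ)} (hU : IsOpen U) {f : (Fin n × Fin n → ℝ) → ℝ}
    (hf : AnalyticOnNhd ℝ f U) (z : Fin n × Fin n) {c : Fin n × Fin n → ℝ} (hc : c ∈ U)
    (hl : ∀ᶠ τ : ℝ in 𝓝 0, f (c + τ • El z) = 0) (j : ℕ) : dd f z j c = 0 := by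
  induction j using Nat.strong_induction_on with
  | _ j ih =>
    have h1 := taylor_line hU hf z hc j
    have h2 : Tendsto (fun t : ℝ => (c, t)) (𝓝 0) (𝓝 (c, 0)) :=
      tendsto_const_nhds.prodMk_nhds tendsto_id
    have h3 := h1.comp_tendsto h2
    have h4 : (fun t : ℝ => ((j.factorial : ℝ))⁻¹ * dd f z j c * t ^ j) =O[𝓝 0]
        fun t => t ^ (j + 1) := by
      refine IsBigO.congr' h3.neg_left ?_ (EventuallyEq.refl _ _)
      filter_upwards [hl] with t ht
      simp only [Function.comp_apply]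
      rw [ht, Finset.sum_range_succ, Finset.sum_eq_zero]
      · ring
      · intro k hk
        rw [ih k (Finset.mem_range.1 hk)]
        ring
    have h5 := eq_zero_of_isBigO_mul_pow j h4
    rcases mul_eq_zero.1 h5 with h6 | h6
    · exact absurd h6 (inv_ne_zero (by positivity))
    · exact h6

/-- if all the derivatives on the lines vanish to infinite order at the point then the function
does -/
theorem isBigO_of_dd (z : Fin n × Fin n) {U : Set (Fin n × Fin n → ℝ)} (hU : IsOpen U)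
    {f : (Fin n × Fin n → ℝ) → ℝ} (hf : AnalyticOnNhd ℝ f U) {X : Fin n × Fin n → ℝ}
    (hX1 : cof z X ≠ 0) (hX2 : pr z X ∈ U)
    (hO : ∀ j M : ℕ, (fun Y => dd f z j (pr z Y)) =O[𝓝 X] fun Y => ‖Y - X‖ ^ M) (N : ℕ) :
    f =O[𝓝 (pr z X)] fun x => ‖x - pr z X‖ ^ (N + 1) := by
  set c := pr z X with hc
  have hcc : cof z c ≠ 0 := by rw [hc, cof_pr]; exact hX1
  have hpc : permF n c = 0 := permF_pr z X hX1
  have hprc : pr z c = c := by
    rw [hc]
    conv_lhs => rw [pr_eq z X]
    rw [pr_line z X _ hX1]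
  set T : (Fin n × Fin n → ℝ) → ℝ := fun x => permF n x / cof z x with hT
  have hTc : T c = 0 := by simp only [hT, hpc, zero_div]
  have hTa : AnalyticAt ℝ T c := quot_analytic z hcc
  have hTO : T =O[𝓝 c] fun x => ‖x - c‖ := by
    have h1 := hTa.differentiableAt.isBigO_sub
    rw [hTc] at h1
    simp only [sub_zero] at h1
    exact h1.norm_right
  have hcof : ∀ᶠ x in 𝓝 c, cof z x ≠ 0 :=
    (cof_analytic z c).continuousAt.eventually_ne hcc
  have hprt : Tendsto (pr z) (𝓝 c) (𝓝 c) := by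
    have h1 := (pr_analytic z hcc).continuousAt
    unfold ContinuousAt at h1
    rwa [hprc] at h1
  have hlow : ∀ j, (fun x => dd f z j (pr z x)) =O[𝓝 c] fun x => ‖x - c‖ ^ (N + 1) := by
    intro j
    have h1 := hO j (N + 1)
    have h2 : X = c + T X • El z := (eq_pr_add z X).symm
    have h3 : Tendsto (fun x : Fin n × Fin n → ℝ => x + T X • El z) (𝓝 c) (𝓝 X) := by
      have h4 : Continuous fun x : Fin n × Fin n → ℝ => x + T X • El z := by fun_prop
      have h5 := h4.tendsto c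
      rwa [← h2] at h5
    have h6 := h1.comp_tendsto h3
    refine IsBigO.congr' h6 ?_ ?_
    · filter_upwards [hcof] with x hx
      simp only [Function.comp_apply]
      rw [pr_line z x _ hx]
    · refine Eventually.of_forall fun x => ?_
      simp only [Function.comp_apply]
      have h7 : x + T X • El z - X = x - c := by
        calc x + T X • El z - X = x + T X • El z - (c + T X • El z) := by rw [← h2]
          _ = x - c := add_sub_add_right_eq_sub _ _ _
      rw [h7]
  have hline := taylor_line hU hf z hX2 N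
  have htend : Tendsto (fun x => (pr z x, T x)) (𝓝 c) (𝓝 (c, 0)) := by
    have h1 : Tendsto T (𝓝 c) (𝓝 0) := by
      have h2 := hTa.continuousAt
      unfold ContinuousAt at h2
      rwa [hTc] at h2
    exact hprt.prodMk_nhds h1
  have hR := hline.comp_tendsto htend
  have hR2 : (fun x => f x - ∑ k ∈ Finset.range (N + 1),
      ((k.factorial : ℝ))⁻¹ * (T x ^ k * dd f z k (pr z x))) =O[𝓝 c]
      fun x => ‖x - c‖ ^ (N + 1) := by
    have h1 : (fun x => T x ^ (N + 1)) =O[𝓝 c] fun x => ‖x - c‖ ^ (N + 1) := hTO.pow _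
    refine IsBigO.trans ?_ h1
    refine IsBigO.congr_left hR fun x => ?_
    simp only [Function.comp_apply]
    rw [eq_pr_add]
  have hTb : T =O[𝓝 c] fun _ => (1 : ℝ) := hTa.continuousAt.isBigO_one ℝ
  have hL : (fun x => ∑ k ∈ Finset.range (N + 1),
      ((k.factorial : ℝ))⁻¹ * (T x ^ k * dd f z k (pr z x))) =O[𝓝 c]
      fun x => ‖x - c‖ ^ (N + 1) := by
    refine IsBigO.fun_sum fun k hk => ?_
    have h1 := (hTb.pow k).mul (hlow k)
    simp only [one_pow, one_mul] at h1
    exact h1.const_mul_left _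
  refine (hR2.add hL).congr_left fun x => ?_
  ring

/-- **from lines to neighbourhoods** -/
theorem ae_nhds (z : Fin n × Fin n) {U : Set (Fin n × Fin n → ℝ)} (hU : IsOpen U)
    {f : (Fin n × Fin n → ℝ) → ℝ} (hf : AnalyticOnNhd ℝ f U) :
    ∀ᵐ X : Fin n × Fin n → ℝ, cof z X ≠ 0 → pr z X ∈ U →
      (∀ᶠ t : ℝ in 𝓝 0, f (pr z X + t • El z) = 0) → ∀ᶠ y in 𝓝 (pr z X), f y = 0 := by
  classical
  set Dm : Set (Fin n × Fin n → ℝ) := {Y | cof z Y ≠ 0 ∧ pr z Y ∈ U} with hDm
  have hcofc : Continuous (cof z) :=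
    continuous_iff_continuousAt.2 fun Y => (cof_analytic z Y).continuousAt
  have hopen1 : IsOpen {Y : Fin n × Fin n → ℝ | cof z Y ≠ 0} :=
    isOpen_ne_fun hcofc continuous_const
  have hDo : IsOpen Dm := by
    have h1 : ContinuousOn (pr z) {Y : Fin n × Fin n → ℝ | cof z Y ≠ 0} := fun Y hY =>
      (pr_analytic z hY).continuousAt.continuousWithinAt
    exact h1.isOpen_inter_preimage hopen1 hU
  have hu : ∀ j, ∀ Y ∈ Dm, AnalyticAt ℝ (fun Y => dd f z j (pr z Y)) Y := by
    intro j Y hY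
    exact AnalyticAt.fun_comp (g := dd f z j) (f := pr z) (dd_analytic hf z j hY.2)
      (pr_analytic z hY.1)
  have hne : ∀ j, MeasurableSet (Dm ∩ {Y | dd f z j (pr z Y) ≠ 0}) := by
    intro j
    have h1 : ContinuousOn (fun Y => dd f z j (pr z Y)) Dm := fun Y hY =>
      (hu j Y hY).continuousAt.continuousWithinAt
    exact (h1.isOpen_inter_preimage hDo (isOpen_ne (x := (0 : ℝ)))).measurableSet
  have heq : ∀ j, MeasurableSet (Dm ∩ {Y | dd f z j (pr z Y) = 0}) := by
    intro j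
    have h1 : Dm ∩ {Y | dd f z j (pr z Y) = 0} = Dm \ (Dm ∩ {Y | dd f z j (pr z Y) ≠ 0}) := by
      ext Y
      simp only [Set.mem_inter_iff, Set.mem_ofPred_eq, Set.mem_sdiff]
      tauto
    rw [h1]
    exact hDo.measurableSet.diff (hne j)
  have hZm : MeasurableSet (⋂ j : ℕ, (Dm ∩ {Y | dd f z j (pr z Y) = 0})) :=
    MeasurableSet.iInter fun j => heq j
  have hae : ∀ᵐ X ∂(volume : Measure (Fin n × Fin n → ℝ)).restrict
      (⋂ j : ℕ, (Dm ∩ {Y | dd f z j (pr z Y) = 0})), ∀ j : ℕ, ∀ M : ℕ,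
      (fun Y => dd f z j (pr z Y)) =O[𝓝 X] fun Y => ‖Y - X‖ ^ M := by
    rw [ae_all_iff]
    intro j
    rw [ae_all_iff]
    intro M
    exact ae_isBigO_at (volume : Measure (Fin n × Fin n → ℝ)) M hZm
      (u := fun Y => dd f z j (pr z Y))
      (fun X hX => (hu j X (Set.mem_iInter.1 hX j).1).contDiffAt)
      (fun X hX => (Set.mem_iInter.1 hX j).2)
  rw [ae_restrict_iff' hZm] at hae
  filter_upwards [hae] with X hX h1 h2 h3
  have hXZ : X ∈ ⋂ j : ℕ, (Dm ∩ {Y | dd f z j (pr z Y) = 0}) :=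
    Set.mem_iInter.2 fun j => ⟨⟨h1, h2⟩, dd_eq_zero hU hf z h2 h3 j⟩
  refine eventually_zero_of_isBigO (hf _ h2) fun N => ?_
  rcases Nat.eq_zero_or_pos N with rfl | hN
  · simp only [pow_zero]
    exact (hf _ h2).continuousAt.isBigO_one ℝ
  · obtain ⟨N, rfl⟩ : ∃ l, N = l + 1 := ⟨N - 1, by omega⟩
    exact isBigO_of_dd z hU hf h1 h2 (hX hXZ) N

/-- one circuit with analytic gates: the signs are constant near the zero -/
theorem tests_nhds : ∃ c : ℝ, 0 < c ∧ ∀ (n d w s : ℕ)
    (U : Set (Fin n × Fin n → ℝ)) (P : Fin s → (Fin n × Fin n → ℝ) → ℝ), 1 ≤ d → 1 ≤ w →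
    IsOpen U → IsCircuitOn U d w P →
    (s : ℝ) + (n : ℝ) ^ w < Real.exp (c * (n : ℝ) ^ (1 / ((Nat.fib (2 * d + 3) : ℝ) - 1))) →
    ∀ᵐ X : Fin n × Fin n → ℝ, ∀ z, cof z X ≠ 0 ∧ (pr z X ∈ U → ∀ g,
      ∀ᶠ y in 𝓝 (pr z X), SignType.sign (P g y) = SignType.sign (P g (pr z X))) := by
  obtain ⟨c, hc, h⟩ := tests
  refine ⟨c, hc, fun n d w s U P hd hw hU hP hlt => ?_⟩
  have han := (taylor_circuit hU hP).1
  have h1 := ae_all_iff.2 fun z => ae_all_iff.2 fun g => ae_nhds z hU (han g)
  have h2 := ae_all_iff.2 fun z => h n d w s z U P hd hw hU hP hlt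
  filter_upwards [h1, h2] with X hX1 hX z
  refine ⟨(hX z).1, fun hi g => ?_⟩
  rcases (hX z).2 hi g with h3 | h3
  · have hcont : ContinuousAt (P g) (pr z X) := (han g _ hi).continuousAt
    rcases lt_or_gt_of_ne h3 with h7 | h7
    · filter_upwards [hcont.eventually_lt continuousAt_const h7] with y hy
      rw [sign_neg hy, sign_neg h7]
    · filter_upwards [continuousAt_const.eventually_lt hcont h7] with y hy
      rw [sign_pos hy, sign_pos h7]
  · have h4 := hX1 z g (hX z).1 hi h3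
    have h5 := h4.self_of_nhds
    filter_upwards [h4] with y hy
    rw [hy, h5]

end Pool.XMN
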