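import Pool.Agent.XN.Final
import Pool.Agent.XN.Net
import Pool.Agent.XMN.Final

/-!
# XMN: the two parts of the theorem on circuits with smooth gates
-/

set_option autoImplicit false

namespace Pool.XMN

open Finset MeasureTheory Topology Filter

/-- `f` is, at each point, equal to one of countably many functions of class `C ^ m` -/
def Piecewise (m : ℕ) {w : ℕ} (f : (Fin w → ℝ) → ℝ) : Prop :=
  ∃ g : ℕ → (Fin w → ℝ) → ℝ, (∀ i, ContDiff ℝ m (g i)) ∧ ∀ y, ∃ i, f y = g i y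

/-- circuits with piecewise smooth gates -/
def IsCircuitS {σ : Type} [Fintype σ] (m d w : ℕ) {s : ℕ} (P : Fin s → (σ → ℝ) → ℝ) : Prop :=
  ∃ depth : Fin s → ℕ, ∀ g, depth g ≤ d ∧
    ((∃ (a₀ : ℝ) (a : σ → ℝ) (c : Fin s → ℝ), (∀ h, c h ≠ 0 → h < g ∧ depth h ≤ depth g) ∧
        ∀ x, P g x = a₀ + ∑ v, a v * x v + ∑ h, c h * P h x) ∨
     (∃ (a₀ : ℝ) (a : σ → ℕ) (e : Fin s → ℕ), 0 < depth g ∧
        (∀ h, e h ≠ 0 → h < g ∧ depth h < depth g) ∧
        ∀ x, P g x = a₀ * (∏ v, x v ^ a v) * ∏ h, P h x ^ e h) ∨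
     (∃ (t : Fin w → Fin s) (f : (Fin w → ℝ) → ℝ), 0 < depth g ∧ Piecewise m f ∧
        (∀ i, t i < g ∧ depth (t i) < depth g) ∧ ∀ x, P g x = f fun i => P (t i) x))

/-- the first part -/
theorem part_one : ∃ c : ℝ, 0 < c ∧
    ∀ (n m d w s : ℕ) (P : ℕ → Fin s → (Fin n × Fin n → ℝ) → ℝ), m ≤ n → 1 ≤ d → 1 ≤ w →
      (∀ i, IsCircuitS m d w (P i)) →
      (s : ℝ) + (n : ℝ) ^ w < Real.exp (c * (m : ℝ) ^ (1 / ((Nat.fib (2 * d + 2) : ℝ) - 1))) →
      IsMeagre {X | ∃ i g, P i g X = (Matrix.of fun a b => X (a, b)).permanent} ∧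
        volume {X | ∃ i g, P i g X = (Matrix.of fun a b => X (a, b)).permanent} = 0 := by
  obtain ⟨c, hc, h⟩ := Pool.XN.null_xp
  refine ⟨c, hc, fun n m d w s P hmn hd hw hP hlt => ?_⟩
  obtain ⟨k, rfl⟩ : ∃ k, d = k + 1 := ⟨d - 1, by omega⟩
  rcases Nat.eq_zero_or_pos s with rfl | hs
  · have h1 : {X : Fin n × Fin n → ℝ | ∃ (i : ℕ) (g : Fin 0),
        P i g X = (Matrix.of fun a b => X (a, b)).permanent} = ∅ := by
      ext X
      simp
    rw [h1]
    exact ⟨IsMeagre.empty, measure_empty⟩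
  have h3 : 3 ≤ Nat.fib (2 * k + 4) := by
    have : Nat.fib 4 ≤ Nat.fib (2 * k + 4) := Nat.fib_mono (by omega)
    exact this
  have e1 : ((Nat.fib (2 * k + 4) - 2 : ℕ) : ℝ) + 1 = (Nat.fib (2 * (k + 1) + 2) : ℝ) - 1 := by
    rw [show 2 * (k + 1) + 2 = 2 * k + 4 by ring, Nat.cast_sub (by omega)]
    push_cast
    ring
  rcases Nat.eq_zero_or_pos m with rfl | hm
  · exfalso
    have h4 : (0 : ℝ) < 1 / ((Nat.fib (2 * (k + 1) + 2) : ℝ) - 1) := by
      rw [← e1]
      positivity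
    rw [Nat.cast_zero, Real.zero_rpow h4.ne', mul_zero, Real.exp_zero] at hlt
    have h5 : (1 : ℝ) ≤ s := by exact_mod_cast hs
    have h6 : (0 : ℝ) ≤ (n : ℝ) ^ w := by positivity
    linarith
  obtain ⟨m, rfl⟩ : ∃ l, m = l + 1 := ⟨m - 1, by omega⟩
  obtain ⟨r, rfl⟩ : ∃ r, n = m + r := ⟨n - m, by omega⟩
  have hnet : ∀ i, Pool.XN.IsNet (fun φ => Pool.SM.PS (m + 1) φ) (k + 1) w (P i) := by
    intro i
    obtain ⟨depth, hdepth⟩ := hP i
    refine ⟨depth, fun g => ⟨(hdepth g).1, ?_⟩⟩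
    rcases (hdepth g).2 with ⟨a₀, a, e, h1, h2⟩ | ⟨a₀, a, e, h0, h1, h2⟩ | ⟨t, f, h0, hf, h1, h2⟩
    · exact Or.inl ⟨a₀, a, e, h1, funext h2⟩
    · exact Or.inr (Or.inl ⟨a₀, a, e, h0, h1, funext h2⟩)
    · exact Or.inr (Or.inr ⟨t, f, h0, h1, hf, funext h2⟩)
  choose G hG hGP using fun i => Pool.XN.net_sum (S := s + (m + r) ^ 2 + 1) hw
    (by rw [Fintype.card_prod, Fintype.card_fin, sq]) (hnet i)
  have hE := fun i g l => h k m r w s (G i g l) (by omega) hw hs (hG i g l) (by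
    rw [e1]
    exact_mod_cast hlt)
  have hsub : {X : Fin (m + r) × Fin (m + r) → ℝ | ∃ i g, P i g X =
      (Matrix.of fun a b => X (a, b)).permanent} ⊆
      ⋃ (p : ℕ × Fin s × ℕ), {x | ∑ a, ∏ b, G p.1 p.2.1 p.2.2 a b x =
        Pool.XN.permF (m + r) x} := by
    rintro X ⟨i, g, hX⟩
    obtain ⟨l, hl⟩ := hGP i g X
    exact Set.mem_iUnion.2 ⟨(i, g, l), hl.symm.trans hX⟩
  refine ⟨(isMeagre_iUnion fun p => IsNowhereDense.isMeagre ?_).mono hsub,
    measure_mono_null hsub (measure_iUnion_null fun p => (hE _ _ _).2)⟩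
  rw [(hE p.1 p.2.1 p.2.2).1.isNowhereDense_iff]
  exact Measure.interior_eq_empty_of_null (hE p.1 p.2.1 p.2.2).2

/-- the second part -/
theorem part_two : ∃ c : ℝ, 0 < c ∧
    ∀ (n d w s : ℕ) (U : ℕ → Set (Fin n × Fin n → ℝ)) (P : ℕ → Fin s → (Fin n × Fin n → ℝ) → ℝ),
      1 ≤ d → 1 ≤ w → (∀ i, IsOpen (U i)) → (∀ i, IsCircuitOn (U i) d w (P i)) →
      (s : ℝ) + (n : ℝ) ^ w < Real.exp (c * (n : ℝ) ^ (1 / ((Nat.fib (2 * d + 3) : ℝ) - 1))) →
      ∀ᵐ X : Fin n × Fin n → ℝ, ∀ z, ∃ a t₀ : ℝ, a ≠ 0 ∧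
        (∀ t, (Matrix.of fun i j => X (i, j) + if (i, j) = z then t else 0).permanent =
          a * (t - t₀)) ∧
        ∀ i, X + Pi.single z t₀ ∈ U i → ∀ g, ∀ᶠ t in 𝓝 t₀,
          SignType.sign (P i g (X + Pi.single z t)) =
            SignType.sign (P i g (X + Pi.single z t₀)) := by
  obtain ⟨c, hc, h⟩ := tests
  refine ⟨c, hc, fun n d w s U P hd hw hU hP hlt => ?_⟩
  have h1 : ∀ z : Fin n × Fin n, ∀ i : ℕ, ∀ᵐ X : Fin n × Fin n → ℝ, cof z X ≠ 0 ∧
      (pr z X ∈ U i → ∀ g, P i g (pr z X) ≠ 0 ∨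
        ∀ᶠ τ : ℝ in 𝓝 0, P i g (pr z X + τ • El z) = 0) :=
    fun z i => h n d w s z (U i) (P i) hd hw (hU i) (hP i) hlt
  have h2 := ae_all_iff.2 fun z => ae_all_iff.2 (h1 z)
  filter_upwards [h2] with X hX z
  have hcof := (hX z 0).1
  have hEl : ∀ t : ℝ, t • El z = Pi.single z t := by
    intro t
    rw [El, ← Pi.single_smul, smul_eq_mul, mul_one]
  have hperm : ∀ t, (Matrix.of fun i j => X (i, j) + if (i, j) = z then t else 0).permanent =
      Pool.XN.permF n (X + t • El z) := by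
    intro t
    unfold Pool.XN.permF
    congr 1
    ext i j
    rw [hEl, Matrix.of_apply, Matrix.of_apply, Pi.add_apply, Pi.single_apply]
  set t₀ : ℝ := -(Pool.XN.permF n X / cof z X) with ht₀
  have hpr : pr z X = X + Pi.single z t₀ := by
    rw [pr, ← hEl, ht₀, neg_smul, sub_eq_add_neg]
  refine ⟨cof z X, t₀, hcof, fun t => ?_, fun i hi g => ?_⟩
  · rw [hperm, permF_aff, ht₀]
    field_simp
    ring
  · rw [← hpr] at hi
    have hadd : ∀ t : ℝ, X + Pi.single z t = pr z X + (t - t₀) • El z := by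
      intro t
      rw [hpr, hEl, add_assoc, ← Pi.single_add, add_sub_cancel]
    rcases (hX z i).2 hi g with h3 | h3
    · -- the gate is not zero
      have han : ContinuousAt (P i g) (pr z X) :=
        ((taylor_circuit (hU i) (hP i)).1 g _ hi).continuousAt
      have hcont : ContinuousAt (fun t : ℝ => P i g (X + Pi.single z t)) t₀ := by
        have h4 : ContinuousAt (fun t : ℝ => X + (Pi.single z t : Fin n × Fin n → ℝ)) t₀ := by
          have h5 : Continuous fun t : ℝ => X + (t • El z) := by fun_prop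
          simp only [hEl] at h5
          exact h5.continuousAt
        have h6 : ContinuousAt (P i g) (X + Pi.single z t₀) := by
          rw [← hpr]
          exact han
        exact ContinuousAt.comp (f := fun t : ℝ => X + (Pi.single z t : Fin n × Fin n → ℝ)) h6 h4
      rw [hpr] at h3
      rcases lt_or_gt_of_ne h3 with h7 | h7
      · filter_upwards [hcont.eventually_lt continuousAt_const h7] with t ht
        rw [sign_neg ht, sign_neg h7]
      · filter_upwards [continuousAt_const.eventually_lt hcont h7] with t ht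
        rw [sign_pos ht, sign_pos h7]
    · -- the gate is zero near the point
      have h4 : Tendsto (fun t : ℝ => t - t₀) (𝓝 t₀) (𝓝 0) := by
        have h5 : Continuous fun t : ℝ => t - t₀ := by fun_prop
        simpa using h5.tendsto t₀
      have h5 := h3.self_of_nhds
      rw [zero_smul, add_zero, hpr] at h5
      filter_upwards [h4.eventually h3] with t ht
      rw [hadd t, ht, h5]

end Pool.XMN
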