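import Pool.Agent.XMN.Defs
import Pool.Agent.XN.Null
import Pool.Agent.QPIT.CircW
import Pool.Agent.SM.Apx

/-!
# XMN, row T (helper43): Taylor polynomials of circuits with analytic gates, and the algebraic
independence of the entries of almost every point
-/

set_option autoImplicit false

namespace Pool.XMN

open Finset MvPolynomial Filter Topology Asymptotics Pool.XN Pool.SM
open MeasureTheory

/-- for almost all `X` the entries are algebraically independent -/
theorem ae_algInd (τ : Type) [Fintype τ] : ∀ᵐ X : τ → ℝ, AlgebraicIndependent ℚ X := by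
  have hc : Countable (MvPolynomial τ ℚ) := by
    rw [← Cardinal.mk_le_aleph0_iff]
    refine le_trans MvPolynomial.cardinalMk_le_max ?_
    refine max_le (max_le ?_ ?_) le_rfl
    · exact Cardinal.mk_le_aleph0
    · exact Cardinal.mk_le_aleph0
  have h1 : ∀ᵐ X : τ → ℝ, ∀ p : MvPolynomial τ ℚ, p ≠ 0 →
      eval X (map (algebraMap ℚ ℝ) p) ≠ 0 := by
    rw [ae_all_iff]
    intro p
    by_cases hp : p = 0
    · exact Eventually.of_forall fun X h => absurd hp h
    · have h2 : map (algebraMap ℚ ℝ) p ≠ 0 := by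
        intro h
        apply hp
        apply map_injective (algebraMap ℚ ℝ) (algebraMap ℚ ℝ).injective
        rw [h, map_zero]
      filter_upwards [ae_eval_ne_zero _ h2] with X hX _
      exact hX
  filter_upwards [h1] with X hX
  rw [algebraicIndependent_iff]
  intro p hp
  by_contra hne
  apply hX p hne
  rw [eval_map, ← aeval_def]
  exact hp

/-- the value of a multilinear map on the diagonal is a polynomial -/
theorem eval_mlin {τ : Type} [Fintype τ] [DecidableEq τ] {k : ℕ}
    (p : ContinuousMultilinearMap ℝ (fun _ : Fin k => τ → ℝ) ℝ) (y0 x : τ → ℝ) :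
    eval x (∑ f : Fin k → τ, C (p fun j => Pi.single (f j) 1) *
      ∏ j, (X (f j) - C (y0 (f j)))) = p fun _ => x - y0 := by
  have h1 : (fun _ : Fin k => x - y0) = fun _ : Fin k => ∑ i : τ,
      (x i - y0 i) • (Pi.single i (1 : ℝ) : τ → ℝ) := by
    funext _
    funext i
    simp [Finset.sum_apply, Pi.single_apply]
  rw [h1, ContinuousMultilinearMap.map_sum, map_sum]
  refine Finset.sum_congr rfl fun f _ => ?_
  rw [ContinuousMultilinearMap.map_smul_univ, map_mul, eval_C, map_prod, smul_eq_mul, mul_comm]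
  simp

/-- Taylor polynomials of analytic functions -/
theorem exists_taylor {τ : Type} [Fintype τ] {f : (τ → ℝ) → ℝ} {y0 : τ → ℝ}
    (hf : AnalyticAt ℝ f y0) (N : ℕ) : ∃ H : MvPolynomial τ ℝ, Apx N y0 f H := by
  classical
  obtain ⟨p, hp⟩ := hf
  refine ⟨∑ k ∈ Finset.range (N + 1), ∑ f : Fin k → τ, C (p k fun j => Pi.single (f j) 1) *
      ∏ j, (X (f j) - C (y0 (f j))), ?_⟩
  unfold Apx
  have h1 := hp.isBigO_sub_partialSum_pow (N + 1)
  have h2 : Tendsto (fun x : τ → ℝ => x - y0) (𝓝 y0) (𝓝 0) := by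
    have : Continuous fun x : τ → ℝ => x - y0 := by fun_prop
    simpa using this.tendsto y0
  have h3 := h1.comp_tendsto h2
  refine (h3.congr_left fun x => ?_)
  simp only [Function.comp_apply, FormalMultilinearSeries.partialSum]
  rw [map_sum, add_sub_cancel]
  congr 1
  exact Finset.sum_congr rfl fun k _ => (eval_mlin (p k) y0 x).symm

theorem apx_congr {σ : Type} [Fintype σ] {N : ℕ} {c : σ → ℝ} {f g : (σ → ℝ) → ℝ}
    {P : MvPolynomial σ ℝ} (h : Apx N c f P) (hfg : ∀ᶠ x in 𝓝 c, g x = f x) : Apx N c g P := by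
  refine IsBigO.congr' h ?_ (EventuallyEq.refl _ _)
  filter_upwards [hfg] with x hx
  rw [hx]

theorem apx_self {σ : Type} [Fintype σ] {N : ℕ} {c : σ → ℝ} {f : (σ → ℝ) → ℝ}
    {P : MvPolynomial σ ℝ} (h : Apx N c f P) : eval c P = f c :=
  tendsto_nhds_unique (h.tendsto.mono_left (pure_le_nhds c)) (tendsto_pure_nhds f c)

theorem apx_pow {σ : Type} [Fintype σ] {N : ℕ} {c : σ → ℝ} {f : (σ → ℝ) → ℝ}
    {P : MvPolynomial σ ℝ} (h : Apx N c f P) (e : ℕ) : Apx N c (fun x => f x ^ e) (P ^ e) := by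
  have h1 := Apx.prod (N := N) (c := c) (Finset.range e) (fun _ => f) (fun _ => P)
    (fun _ _ => h)
  simpa only [Finset.prod_const, Finset.card_range] using h1

/-- all the gates are analytic -/
theorem circuit_analytic {σ : Type} [Fintype σ] {U : Set (σ → ℝ)} (hU : IsOpen U) {d w s : ℕ}
    {P : Fin s → (σ → ℝ) → ℝ} (hP : IsCircuitOn U d w P) (g : Fin s) :
    AnalyticOnNhd ℝ (P g) U := by
  obtain ⟨depth, hP⟩ := hP
  induction hk : (g : ℕ) using Nat.strong_induction_on generalizing g with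
  | _ k ih =>
    have ih' : ∀ h : Fin s, h < g → AnalyticOnNhd ℝ (P h) U := by
      intro h hh
      exact ih h (by rw [← hk]; exact hh) h rfl
    intro x hx
    have hev : ∀ᶠ y in 𝓝 x, y ∈ U := hU.mem_nhds hx
    rcases (hP g).2 with ⟨a₀, a, c, hc, hf⟩ | ⟨a₀, a, e, _, he, hf⟩ | ⟨t, f, _, ht, hf⟩
    · have h1 : AnalyticAt ℝ (fun y => a₀ + ∑ v, a v * y v + ∑ h, c h * P h y) x := by
        refine AnalyticAt.add (AnalyticAt.add analyticAt_const ?_) ?_
        · refine Finset.analyticAt_fun_sum _ fun v _ => ?_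
          exact analyticAt_const.mul ((ContinuousLinearMap.proj (R := ℝ) v).analyticAt x)
        · refine Finset.analyticAt_fun_sum _ fun h _ => ?_
          by_cases hch : c h = 0
          · simp only [hch, zero_mul]
            exact analyticAt_const
          · exact analyticAt_const.mul (ih' h (hc h hch).1 x hx)
      refine h1.congr ?_
      filter_upwards [hev] with y hy
      exact (hf y hy).symm
    · have h1 : AnalyticAt ℝ (fun y => a₀ * (∏ v, y v ^ a v) * ∏ h, P h y ^ e h) x := by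
        refine AnalyticAt.mul (AnalyticAt.mul analyticAt_const ?_) ?_
        · refine Finset.analyticAt_fun_prod _ fun v _ => ?_
          exact ((ContinuousLinearMap.proj (R := ℝ) v).analyticAt x).pow _
        · refine Finset.analyticAt_fun_prod _ fun h _ => ?_
          by_cases hch : e h = 0
          · simp only [hch, pow_zero]
            exact analyticAt_const
          · exact (ih' h (he h hch).1 x hx).pow _
      refine h1.congr ?_
      filter_upwards [hev] with y hy
      exact (hf y hy).symm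
    · have h1 : AnalyticAt ℝ (fun y => fun i => P (t i) y) x :=
        analyticAt_pi_iff.2 fun i => ih' (t i) (ht i).1 x hx
      have h2 : AnalyticAt ℝ (f ∘ fun y => fun i => P (t i) y) x :=
        AnalyticAt.comp (hf x hx).1 h1
      refine h2.congr ?_
      filter_upwards [hev] with y hy
      exact (hf y hy).2.symm

/-- the clause of the gate `g` of a circuit of polynomials -/
def Cl {σ : Type} [Fintype σ] (w : ℕ) {s : ℕ} (lev : Fin s → ℕ) (Q : Fin s → MvPolynomial σ ℝ)
    (g : Fin s) : Prop :=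
  ((∃ (a₀ : ℝ) (a : σ → ℝ) (c : Fin s → ℝ), (∀ h, c h ≠ 0 → h < g ∧ lev h ≤ lev g) ∧
      Q g = C a₀ + ∑ v, C (a v) * X v + ∑ h, C (c h) * Q h) ∨
   (∃ (a₀ : ℝ) (a : σ → ℕ) (e : Fin s → ℕ), 0 < lev g ∧
      (∀ h, e h ≠ 0 → h < g ∧ lev h < lev g) ∧
      Q g = C a₀ * (∏ v, X v ^ a v) * ∏ h, Q h ^ e h) ∨
   (∃ (t : Fin w → Fin s) (H : MvPolynomial (Fin w) ℝ), 0 < lev g ∧
      (∀ i, t i < g ∧ lev (t i) < lev g) ∧ Q g = aeval (fun i => Q (t i)) H))

theorem Cl.congr {σ : Type} [Fintype σ] {w s : ℕ} {lev : Fin s → ℕ}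
    {Q Q' : Fin s → MvPolynomial σ ℝ} {g : Fin s} (h : Cl w lev Q g)
    (hQ : ∀ h, h ≤ g → Q' h = Q h) : Cl w lev Q' g := by
  rcases h with ⟨a₀, a, c, hc, hf⟩ | ⟨a₀, a, e, h0, he, hf⟩ | ⟨t, H, h0, ht, hf⟩
  · refine Or.inl ⟨a₀, a, c, hc, ?_⟩
    rw [hQ g le_rfl, hf]
    congr 1
    refine Finset.sum_congr rfl fun h _ => ?_
    by_cases hch : c h = 0
    · rw [hch, C_0, zero_mul, zero_mul]
    · rw [hQ h (hc h hch).1.le]
  · refine Or.inr (Or.inl ⟨a₀, a, e, h0, he, ?_⟩)
    rw [hQ g le_rfl, hf]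
    congr 1
    refine Finset.prod_congr rfl fun h _ => ?_
    by_cases hch : e h = 0
    · rw [hch, pow_zero, pow_zero]
    · rw [hQ h (he h hch).1.le]
  · refine Or.inr (Or.inr ⟨t, H, h0, ht, ?_⟩)
    rw [hQ g le_rfl, hf]
    congr 1
    congr 1
    funext i
    exact (hQ (t i) (ht i).1.le).symm

theorem taylor_aux {σ : Type} [Fintype σ] {U : Set (σ → ℝ)} (hU : IsOpen U) {w s : ℕ}
    {P : Fin s → (σ → ℝ) → ℝ} {depth : Fin s → ℕ}
    (hP : ∀ g, ((∃ (a₀ : ℝ) (a : σ → ℝ) (c : Fin s → ℝ),
          (∀ h, c h ≠ 0 → h < g ∧ depth h ≤ depth g) ∧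
          ∀ x ∈ U, P g x = a₀ + ∑ v, a v * x v + ∑ h, c h * P h x) ∨
        (∃ (a₀ : ℝ) (a : σ → ℕ) (e : Fin s → ℕ), 0 < depth g ∧
          (∀ h, e h ≠ 0 → h < g ∧ depth h < depth g) ∧
          ∀ x ∈ U, P g x = a₀ * (∏ v, x v ^ a v) * ∏ h, P h x ^ e h) ∨
        (∃ (t : Fin w → Fin s) (f : (Fin w → ℝ) → ℝ), 0 < depth g ∧
          (∀ i, t i < g ∧ depth (t i) < depth g) ∧
          ∀ x ∈ U, AnalyticAt ℝ f (fun i => P (t i) x) ∧ P g x = f fun i => P (t i) x)))
    {c : σ → ℝ} (hcU : c ∈ U) (N : ℕ) (k : ℕ) :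
    ∃ Q : Fin s → MvPolynomial σ ℝ, ∀ g : Fin s, (g : ℕ) < k →
      Cl w depth Q g ∧ Apx N c (P g) (Q g) := by
  induction k with
  | zero => exact ⟨fun _ => 0, fun g hg => absurd hg (Nat.not_lt_zero _)⟩
  | succ k ih =>
    obtain ⟨Q, hQ⟩ := ih
    by_cases hks : k < s
    swap
    · exact ⟨Q, fun g hg => hQ g (by have := g.2; omega)⟩
    obtain ⟨g, hg⟩ : ∃ g : Fin s, (g : ℕ) = k := ⟨⟨k, hks⟩, rfl⟩
    have hev : ∀ᶠ y in 𝓝 c, y ∈ U := hU.mem_nhds hcU
    have hlow : ∀ h : Fin s, h < g → Apx N c (P h) (Q h) := fun h hh =>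
      (hQ h (by rw [← hg]; exact hh)).2
    -- it is enough to find a value at `g`
    suffices hsuff : ∃ R : MvPolynomial σ ℝ, Cl w depth (Function.update Q g R) g ∧
        Apx N c (P g) R by
      obtain ⟨R, hR1, hR2⟩ := hsuff
      refine ⟨Function.update Q g R, fun g' hg' => ?_⟩
      by_cases hgg : g' = g
      · subst hgg
        rw [Function.update_self]
        exact ⟨hR1, hR2⟩
      · have hlt : (g' : ℕ) < k := by
          have : (g' : ℕ) ≠ k := fun h => hgg (Fin.ext (h.trans hg.symm))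
          omega
        rw [Function.update_of_ne hgg]
        refine ⟨(hQ g' hlt).1.congr fun h hh => ?_, (hQ g' hlt).2⟩
        rw [Function.update_of_ne]
        rintro rfl
        have : (h : ℕ) ≤ (g' : ℕ) := hh
        omega
    have hupd : ∀ (R : MvPolynomial σ ℝ) (h : Fin s), h < g → Function.update Q g R h = Q h := by
      intro R h hh
      rw [Function.update_of_ne (ne_of_lt hh)]
    rcases hP g with ⟨a₀, a, b, hb, hf⟩ | ⟨a₀, a, e, h0, he, hf⟩ | ⟨t, f, h0, ht, hf⟩
    · refine ⟨C a₀ + ∑ v, C (a v) * X v + ∑ h, C (b h) * Q h, Or.inl ⟨a₀, a, b, hb, ?_⟩, ?_⟩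
      · rw [Function.update_self]
        congr 1
        refine Finset.sum_congr rfl fun h _ => ?_
        by_cases hbh : b h = 0
        · rw [hbh, C_0, zero_mul, zero_mul]
        · rw [hupd _ h (hb h hbh).1]
      · have h1 : Apx N c (fun x => a₀ + ∑ v, a v * x v + ∑ h, b h * P h x)
            (C a₀ + ∑ v, C (a v) * X v + ∑ h, C (b h) * Q h) := by
          refine Apx.add ?_ ?_
          · have h2 := Apx.poly (N := N) (c := c) (C a₀ + ∑ v, C (a v) * X v)
            refine apx_congr h2 (Eventually.of_forall fun x => ?_)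
            simp
          · refine Apx.sum _ _ _ fun h _ => ?_
            by_cases hbh : b h = 0
            · rw [hbh, C_0, zero_mul]
              have h3 := Apx.poly (N := N) (c := c) (0 : MvPolynomial σ ℝ)
              refine apx_congr h3 (Eventually.of_forall fun x => ?_)
              simp
            · have h3 := (Apx.poly (N := N) (c := c) (C (b h) : MvPolynomial σ ℝ)).mul
                (hlow h (hb h hbh).1)
              refine apx_congr h3 (Eventually.of_forall fun x => ?_)
              simp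
        refine apx_congr h1 ?_
        filter_upwards [hev] with x hx
        exact hf x hx
    · refine ⟨C a₀ * (∏ v, X v ^ a v) * ∏ h, Q h ^ e h, Or.inr (Or.inl ⟨a₀, a, e, h0, he, ?_⟩), ?_⟩
      · rw [Function.update_self]
        congr 1
        refine Finset.prod_congr rfl fun h _ => ?_
        by_cases heh : e h = 0
        · rw [heh, pow_zero, pow_zero]
        · rw [hupd _ h (he h heh).1]
      · have h1 : Apx N c (fun x => a₀ * (∏ v, x v ^ a v) * ∏ h, P h x ^ e h)
            (C a₀ * (∏ v, X v ^ a v) * ∏ h, Q h ^ e h) := by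
          refine Apx.mul ?_ ?_
          · have h2 := Apx.poly (N := N) (c := c) (C a₀ * (∏ v, X v ^ a v))
            refine apx_congr h2 (Eventually.of_forall fun x => ?_)
            simp
          · refine Apx.prod _ _ _ fun h _ => ?_
            by_cases heh : e h = 0
            · rw [heh, pow_zero]
              have h3 := Apx.poly (N := N) (c := c) (1 : MvPolynomial σ ℝ)
              refine apx_congr h3 (Eventually.of_forall fun x => ?_)
              simp
            · exact apx_pow (hlow h (he h heh).1) (e h)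
        refine apx_congr h1 ?_
        filter_upwards [hev] with x hx
        exact hf x hx
    · obtain ⟨H, hH⟩ := exists_taylor (hf c hcU).1 N
      refine ⟨aeval (fun i => Q (t i)) H, Or.inr (Or.inr ⟨t, H, h0, ht, ?_⟩), ?_⟩
      · rw [Function.update_self]
        congr 1
        congr 1
        funext i
        exact (hupd _ (t i) (ht i).1).symm
      · have hval : (fun i => eval c (Q (t i))) = fun i => P (t i) c := by
          funext i
          exact apx_self (hlow (t i) (ht i).1)
        have h1 : Apx N c (fun x => f fun i => P (t i) x) (aeval (fun i => Q (t i)) H) := by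
          refine Apx.comp (fun i => hlow (t i) (ht i).1) ?_
          rw [hval]
          exact hH
        refine apx_congr h1 ?_
        filter_upwards [hev] with x hx
        exact (hf x hx).2

/-! ## Row T -/
theorem taylor_circuit {σ : Type} [Fintype σ] {U : Set (σ → ℝ)} (hU : IsOpen U) {d w s : ℕ}
    {P : Fin s → (σ → ℝ) → ℝ} (hP : IsCircuitOn U d w P) :
    (∀ g, AnalyticOnNhd ℝ (P g) U) ∧ ∀ c ∈ U, ∀ N, ∃ Q : Fin s → MvPolynomial σ ℝ,
      Pool.QPIT.IsCircuitW d w Q ∧ ∀ g, Apx N c (P g) (Q g) := by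
  refine ⟨fun g => circuit_analytic hU hP g, fun c hc N => ?_⟩
  obtain ⟨depth, hP⟩ := hP
  obtain ⟨Q, hQ⟩ := taylor_aux hU (fun g => (hP g).2) hc N s
  exact ⟨Q, ⟨depth, fun g => ⟨(hP g).1, (hQ g g.2).1⟩⟩, fun g => (hQ g g.2).2⟩

end Pool.XMN
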