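import Pool.Agent.XMN.Main
import Pool.Agent.XN.Final

/-!
# XMN: the final theorem
-/

set_option autoImplicit false

namespace Pool.XMN

open Finset MvPolynomial Filter Topology Asymptotics Pool.XN Pool.SM Pool.Agent.Helper41.CD
open MeasureTheory

/-- the final numbers -/
theorem num_pow {C : ℝ} (hC : 1 ≤ C) (E n s w : ℕ) (hn : 1 ≤ n) (hs : 1 ≤ s) (hw : 1 ≤ w)
    (h : (n : ℝ) ≤ (C * (Real.log (s + n ^ 2 + 1) + (w + w) * Real.log (2 * n))) ^ (E + 1)) :
    Real.exp (1 / (12 * C) * (n : ℝ) ^ (1 / ((E : ℝ) + 1))) ≤ s + (n : ℝ) ^ w := by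
  set p : ℝ := 1 / ((E : ℝ) + 1) with hp
  have hC0 : 0 < C := by linarith
  have hE1 : (0 : ℝ) < (E : ℝ) + 1 := by positivity
  have hp0 : 0 < p := by positivity
  have hs1 : (1 : ℝ) ≤ s := by exact_mod_cast hs
  have hw1 : (1 : ℝ) ≤ w := by exact_mod_cast hw
  have hn1 : (1 : ℝ) ≤ n := by exact_mod_cast hn
  have hnw1 : (1 : ℝ) ≤ (n : ℝ) ^ w := one_le_pow₀ hn1
  have hsn : (0 : ℝ) < (s : ℝ) + (n : ℝ) ^ w := by positivity
  rcases Nat.lt_or_ge n 2 with hn2 | hn2
  · obtain rfl : n = 1 := by omega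
    rw [Nat.cast_one, Real.one_rpow, one_pow, mul_one]
    have h11 : 1 / (12 * C) ≤ 1 / 12 := by
      refine one_div_le_one_div_of_le (by norm_num) ?_
      linarith
    have h2 : Real.exp (1 / (12 * C)) ≤ Real.exp (Real.log 2) := by
      refine Real.exp_le_exp.2 (h11.trans ?_)
      have := Real.log_two_gt_d9
      linarith
    rw [Real.exp_log (by norm_num)] at h2
    linarith
  have hn2' : (2 : ℝ) ≤ n := by exact_mod_cast hn2
  rw [← Real.le_log_iff_exp_le hsn]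
  set L1 := Real.log ((s : ℝ) + 1) with hL1
  set L2 := Real.log (2 * (n : ℝ)) with hL2
  have hL1' : 0 ≤ L1 := Real.log_nonneg (by linarith)
  have hL2' : 0 ≤ L2 := Real.log_nonneg (by linarith)
  have hwL : L2 ≤ w * L2 := by nlinarith
  have hwL0 : 0 ≤ w * L2 := by positivity
  have e2 : Real.log ((s : ℝ) + n ^ 2 + 1) ≤ L1 + 2 * L2 := by
    have : L1 + 2 * L2 = Real.log (((s : ℝ) + 1) * (2 * n) ^ 2) := by
      rw [Real.log_mul (by positivity) (by positivity), Real.log_pow]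
      push_cast
      ring
    rw [this]
    refine Real.log_le_log (by positivity) ?_
    have h1 : (1 : ℝ) ≤ (n : ℝ) ^ 2 := one_le_pow₀ hn1
    nlinarith [mul_nonneg (show (0 : ℝ) ≤ s by positivity)
      (show (0 : ℝ) ≤ (n : ℝ) ^ 2 by positivity)]
  have hL0 : 0 ≤ 4 * C * (L1 + w * L2) := by positivity
  have h1 : (n : ℝ) ≤ (4 * C * (L1 + w * L2)) ^ (E + 1) := by
    refine h.trans ?_
    have h2 : C * (Real.log ((s : ℝ) + n ^ 2 + 1) + (w + w) * L2) ≤ 4 * C * (L1 + w * L2) := by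
      have : Real.log ((s : ℝ) + n ^ 2 + 1) + (w + w) * L2 ≤ 4 * (L1 + w * L2) := by linarith
      nlinarith
    have h3 : 0 ≤ C * (Real.log ((s : ℝ) + n ^ 2 + 1) + (w + w) * L2) := by
      have : 0 ≤ Real.log ((s : ℝ) + n ^ 2 + 1) := by
        refine Real.log_nonneg ?_
        have : (0 : ℝ) ≤ (n : ℝ) ^ 2 := by positivity
        linarith
      positivity
    exact pow_le_pow_left₀ h3 h2 _
  have h2 : (n : ℝ) ^ p ≤ 4 * C * (L1 + w * L2) := by
    calc (n : ℝ) ^ p ≤ ((4 * C * (L1 + w * L2)) ^ (E + 1)) ^ p :=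
          Real.rpow_le_rpow (by positivity) h1 hp0.le
      _ = 4 * C * (L1 + w * L2) := by
          rw [← Real.rpow_natCast, ← Real.rpow_mul hL0, hp]
          push_cast
          rw [mul_one_div_cancel hE1.ne', Real.rpow_one]
  have h3 : L1 + w * L2 ≤ 3 * Real.log ((s : ℝ) + (n : ℝ) ^ w) := by
    have e3 : 3 * Real.log ((s : ℝ) + (n : ℝ) ^ w) = Real.log (((s : ℝ) + (n : ℝ) ^ w) ^ 3) := by
      rw [Real.log_pow]
      push_cast
      ring
    have e4 : (w : ℝ) * L2 = Real.log ((2 * (n : ℝ)) ^ w) := by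
      rw [Real.log_pow]
    rw [e3, e4, add_comm, ← Real.log_mul (by positivity) (by positivity)]
    refine Real.log_le_log (by positivity) ?_
    have h5 : (s : ℝ) + 1 ≤ s + (n : ℝ) ^ w := by linarith
    have h6 : (2 * (n : ℝ)) ^ w ≤ ((n : ℝ) ^ w) ^ 2 := by
      rw [← pow_mul, mul_comm w 2, pow_mul]
      refine pow_le_pow_left₀ (by positivity) ?_ w
      nlinarith
    have h7 : ((n : ℝ) ^ w) ^ 2 ≤ ((s : ℝ) + (n : ℝ) ^ w) ^ 2 :=
      pow_le_pow_left₀ (by positivity) (by linarith) 2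
    calc (2 * (n : ℝ)) ^ w * ((s : ℝ) + 1)
        ≤ ((s : ℝ) + (n : ℝ) ^ w) ^ 2 * ((s : ℝ) + (n : ℝ) ^ w) :=
          mul_le_mul (h6.trans h7) h5 (by positivity) (by positivity)
      _ = ((s : ℝ) + (n : ℝ) ^ w) ^ 3 := by ring
  have h4 : (n : ℝ) ^ p ≤ 12 * C * Real.log ((s : ℝ) + (n : ℝ) ^ w) := by
    refine h2.trans ?_
    have := mul_le_mul_of_nonneg_left h3 (show 0 ≤ 4 * C by positivity)
    linarith
  rw [div_mul_eq_mul_div, one_mul, div_le_iff₀ (by positivity)]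
  linarith

/-- the bound for the size of the circuit -/
theorem num_bound {C : ℝ} (hC : 1 ≤ C) (E n s w : ℕ) (hn : 1 ≤ n) (hs : 1 ≤ s) (hw : 1 ≤ w)
    (h : ∀ m, 1 ≤ m → 3 * m + 1 ≤ n → (m : ℝ) ≤
      C * (Real.log (((m + 1) * (m + 1) : ℕ) : ℝ) + w * Real.log (2 * m)) *
        (C * (Real.log ((s + n ^ 2 + 1 : ℕ) : ℝ) + (w + w) * Real.log (2 * m))) ^ E) :
    (n : ℝ) ≤ (12 * C * (Real.log (s + n ^ 2 + 1) + (w + w) * Real.log (2 * n))) ^ (E + 1) := by
  have hn1 : (1 : ℝ) ≤ n := by exact_mod_cast hn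
  have hw1 : (1 : ℝ) ≤ w := by exact_mod_cast hw
  set L2 := Real.log (2 * (n : ℝ)) with hL2
  have hL2' : 0.69 ≤ L2 := by
    have h1 : Real.log 2 ≤ L2 := Real.log_le_log (by norm_num) (by linarith)
    have := Real.log_two_gt_d9
    linarith
  have hS0 : 0 ≤ Real.log ((s : ℝ) + n ^ 2 + 1) := by
    refine Real.log_nonneg ?_
    have : (0 : ℝ) ≤ (n : ℝ) ^ 2 := by positivity
    have : (0 : ℝ) ≤ (s : ℝ) := by positivity
    linarith
  set Λ := Real.log ((s : ℝ) + n ^ 2 + 1) + (w + w) * L2 with hΛ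
  have hwL : 0.69 ≤ w * L2 := by nlinarith
  have hΛ1 : 1 ≤ Λ := by
    rw [hΛ]
    nlinarith
  have hCΛ : 1 ≤ C * Λ := by nlinarith
  rcases Nat.lt_or_ge n 4 with hn4 | hn4
  · have h1 : (n : ℝ) ≤ 3 := by
      have : n ≤ 3 := by omega
      exact_mod_cast this
    have h2 : (3 : ℝ) ≤ 12 * C * Λ := by nlinarith
    calc (n : ℝ) ≤ 12 * C * Λ := h1.trans h2
      _ = (12 * C * Λ) ^ 1 := (pow_one _).symm
      _ ≤ (12 * C * Λ) ^ (E + 1) := pow_le_pow_right₀ (by linarith) (by omega)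
  · obtain ⟨m, hm⟩ : ∃ m, m = (n - 1) / 3 := ⟨_, rfl⟩
    have hm1 : 1 ≤ m := by omega
    have hmn : 3 * m + 1 ≤ n := by omega
    have hnm : n ≤ 6 * m := by omega
    have h1 := h m hm1 hmn
    have hm1' : (1 : ℝ) ≤ m := by exact_mod_cast hm1
    have hmn' : 2 * (m : ℝ) ≤ 2 * n := by
      have : m ≤ n := by omega
      have : (m : ℝ) ≤ n := by exact_mod_cast this
      linarith
    have hLm : Real.log (2 * (m : ℝ)) ≤ L2 := Real.log_le_log (by linarith) hmn'
    have hLm0 : 0 ≤ Real.log (2 * (m : ℝ)) := Real.log_nonneg (by linarith)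
    have hT : Real.log (((m + 1) * (m + 1) : ℕ) : ℝ) ≤ 2 * L2 := by
      have : 2 * L2 = Real.log ((2 * (n : ℝ)) ^ 2) := by
        rw [Real.log_pow]; push_cast; ring
      rw [this]
      have h3 : ((m : ℝ) + 1) ≤ 2 * n := by
        have : m + 1 ≤ n := by omega
        have : (m : ℝ) + 1 ≤ n := by exact_mod_cast this
        linarith
      refine Real.log_le_log (by positivity) ?_
      push_cast
      nlinarith
    have e1 : C * (Real.log (((m + 1) * (m + 1) : ℕ) : ℝ) + w * Real.log (2 * m)) ≤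
        2 * C * Λ := by
      have h3 : (w : ℝ) * Real.log (2 * m) ≤ w * L2 := mul_le_mul_of_nonneg_left hLm (by linarith)
      have h4 : 2 * L2 ≤ 2 * (w * L2) := by nlinarith
      have h5 : Real.log (((m + 1) * (m + 1) : ℕ) : ℝ) + w * Real.log (2 * m) ≤ 2 * Λ := by
        rw [hΛ]
        nlinarith
      nlinarith
    have e2 : C * (Real.log ((s + n ^ 2 + 1 : ℕ) : ℝ) + (w + w) * Real.log (2 * m)) ≤
        2 * C * Λ := by
      have h3 : (w : ℝ) * Real.log (2 * m) ≤ w * L2 := mul_le_mul_of_nonneg_left hLm (by linarith)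
      have h5 : Real.log ((s + n ^ 2 + 1 : ℕ) : ℝ) + (w + w) * Real.log (2 * m) ≤ Λ := by
        rw [hΛ]
        push_cast
        nlinarith
      nlinarith
    have e3 : 0 ≤ C * (Real.log ((s + n ^ 2 + 1 : ℕ) : ℝ) + (w + w) * Real.log (2 * m)) := by
      have : 0 ≤ Real.log ((s + n ^ 2 + 1 : ℕ) : ℝ) := by
        push_cast
        exact hS0
      positivity
    have e4 : 0 ≤ 2 * C * Λ := by nlinarith
    have h2 : (m : ℝ) ≤ (2 * C * Λ) ^ (E + 1) := by
      refine h1.trans ?_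
      calc _ ≤ 2 * C * Λ * (2 * C * Λ) ^ E :=
            mul_le_mul e1 (pow_le_pow_left₀ e3 e2 E) (pow_nonneg e3 E) e4
        _ = (2 * C * Λ) ^ (E + 1) := by rw [pow_succ]; ring
    have h3 : (n : ℝ) ≤ 6 * m := by exact_mod_cast hnm
    have h6 : (6 : ℝ) ≤ 6 ^ (E + 1) := by
      calc (6 : ℝ) = 6 ^ 1 := (pow_one _).symm
        _ ≤ 6 ^ (E + 1) := pow_le_pow_right₀ (by norm_num) (by omega)
    calc (n : ℝ) ≤ 6 * m := h3
      _ ≤ 6 ^ (E + 1) * (2 * C * Λ) ^ (E + 1) :=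
          mul_le_mul h6 h2 (by positivity) (by positivity)
      _ = (12 * C * Λ) ^ (E + 1) := by rw [← mul_pow]; congr 1; ring

/-- the cofactor is not zero almost everywhere -/
theorem ae_cof_ne_zero {n : ℕ} (z : Fin n × Fin n) :
    ∀ᵐ X : Fin n × Fin n → ℝ, cof z X ≠ 0 := by
  classical
  have hev : ∀ Y : Fin n × Fin n → ℝ, eval Y (aeval (fun s => X s + C (El z s))
      (Pool.CDep.permP n ℝ) - Pool.CDep.permP n ℝ) = cof z Y := by
    intro Y
    rw [map_sub, eval_shift, eval_permP, eval_permP]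
    rfl
  have hne : aeval (fun s => X s + C (El z s)) (Pool.CDep.permP n ℝ) -
      Pool.CDep.permP n ℝ ≠ 0 := by
    intro h0
    set π : Equiv.Perm (Fin n) := Equiv.swap z.1 z.2 with hπ
    have hπz : π z.2 = z.1 := Equiv.swap_apply_right _ _
    set Y : Fin n × Fin n → ℝ := fun s => if s = z then 0 else if s.1 = π s.2 then 1 else 0
      with hY
    have h1 := hev Y
    rw [h0, map_zero] at h1
    have h2 : permF n Y = 0 := by
      unfold permF Matrix.permanent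
      refine sum_eq_zero fun σ _ => prod_eq_zero (mem_univ z.2) ?_
      rw [Matrix.of_apply, hY]
      show (if (σ z.2, z.2) = z then (0 : ℝ) else if σ z.2 = π z.2 then 1 else 0) = 0
      rw [hπz]
      by_cases h3 : (σ z.2, z.2) = z
      · rw [if_pos h3]
      · rw [if_neg h3, if_neg]
        intro h4
        exact h3 (Prod.ext h4 rfl)
    have h3 : permF n (Y + El z) = 1 := by
      have h4 : (Matrix.of fun i j => (Y + El z) (i, j)) =
          (1 : Matrix (Fin n) (Fin n) ℝ).submatrix id π := by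
        ext i j
        rw [Matrix.of_apply, Matrix.submatrix_apply, Matrix.one_apply, Pi.add_apply, hY, El,
          Pi.single_apply]
        show (if (i, j) = z then (0 : ℝ) else if i = π j then 1 else 0) +
          (if (i, j) = z then 1 else 0) = if i = π j then 1 else 0
        by_cases h5 : (i, j) = z
        · have h6 : i = π j := by
            have h7 : i = z.1 := congrArg Prod.fst h5
            have h8 : j = z.2 := congrArg Prod.snd h5
            rw [h7, h8, hπz]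
          rw [if_pos h5, if_pos h5, if_pos h6, zero_add]
        · rw [if_neg h5, if_neg h5, add_zero]
      unfold permF
      rw [h4]
      have h5 := Matrix.permanent_permute_rows π (1 : Matrix (Fin n) (Fin n) ℝ)
      rw [Matrix.permanent_one] at h5
      exact h5
    unfold cof at h1
    rw [h2, h3] at h1
    norm_num at h1
  filter_upwards [ae_eval_ne_zero _ hne] with Y hY
  rwa [hev] at hY

/-- the bound for sums of single members of the class, with the row B as a hypothesis -/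
def XpSingle : Prop := ∃ C : ℝ, 1 ≤ C ∧ ∀ (k : ℕ)
      (K Γ : Type) [Field K] [LinearOrderedCommGroupWithZero Γ] (v : Valuation K Γ)
      (n T S w w0 : ℕ) (f : Fin T → MvPolynomial (Fin n × Fin n) K),
      (∀ a : ℕ, a ≠ 0 → v a = 1) → 2 ≤ S → 1 ≤ w → 1 ≤ w0 →
      (∀ i, f i ∈ Cls w0 w S (k + 1)) →
      (∀ m, v (MvPolynomial.coeff m ((∑ i, f i) - Pool.CDep.permP n K)) < 1) →
      (n : ℝ) ≤ C * (Real.log T + w * Real.log (2 * n)) *
        (C * (Real.log S + (w + w0) * Real.log (2 * n))) ^ (Nat.fib (2 * k + 5) - 2)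

/-- **tests by circuits with analytic gates** -/
theorem tests_of (hB : XpSingle) : ∃ c : ℝ, 0 < c ∧ ∀ (n d w s : ℕ) (z : Fin n × Fin n)
    (U : Set (Fin n × Fin n → ℝ)) (P : Fin s → (Fin n × Fin n → ℝ) → ℝ), 1 ≤ d → 1 ≤ w →
    IsOpen U → IsCircuitOn U d w P →
    (s : ℝ) + (n : ℝ) ^ w < Real.exp (c * (n : ℝ) ^ (1 / ((Nat.fib (2 * d + 3) : ℝ) - 1))) →
    ∀ᵐ X : Fin n × Fin n → ℝ, cof z X ≠ 0 ∧ (pr z X ∈ U → ∀ g, P g (pr z X) ≠ 0 ∨
      ∀ᶠ τ : ℝ in 𝓝 0, P g (pr z X + τ • El z) = 0) := by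
  obtain ⟨C, hC, hB⟩ := hB
  refine ⟨1 / (12 * (12 * C)), by positivity, ?_⟩
  intro n d w s z U P hd hw hU hP hlt
  obtain ⟨k, rfl⟩ : ∃ k, d = k + 1 := ⟨d - 1, by omega⟩
  have hn : 1 ≤ n := by
    have := z.1.2
    omega
  -- the cofactor
  have hcof := ae_cof_ne_zero z
  -- every gate
  have hgate : ∀ g : Fin s, ∀ᵐ X : Fin n × Fin n → ℝ, ¬ (cof z X ≠ 0 ∧ pr z X ∈ U ∧
      P g (pr z X) = 0 ∧ ¬ ∀ᶠ τ : ℝ in 𝓝 0, P g (pr z X + τ • El z) = 0) := by
    intro g
    rw [ae_iff]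
    by_contra hne
    simp only [not_not] at hne
    have hs : 1 ≤ s := by
      have := g.2
      omega
    obtain ⟨X, hX1, hX2, hX3, e, hloc⟩ := exists_local z hU ((taylor_circuit hU hP).1 g) hne
    have h1 : ∀ m, 1 ≤ m → 3 * m + 1 ≤ n → (m : ℝ) ≤
        C * (Real.log (((m + 1) * (m + 1) : ℕ) : ℝ) + w * Real.log (2 * m)) *
          (C * (Real.log ((s + n ^ 2 + 1 : ℕ) : ℝ) + (w + w) * Real.log (2 * m))) ^
            (Nat.fib (2 * k + 5) - 2) := by
      intro m hm hmn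
      obtain ⟨Γ, _, v, f, hv, hf, hδ⟩ := main_step hw hm hmn z hU hP g X hX1 hX2 hX3 e hloc
      exact hB k (LaurentSeries ℝ) Γ v m _ _ w w f hv (by omega) hw hw hf hδ
    have h2 := num_bound hC _ n s w hn hs hw h1
    have h3 := num_pow (C := 12 * C) (by linarith) _ n s w hn hs hw h2
    have hfib : 2 ≤ Nat.fib (2 * k + 5) := by
      have : Nat.fib 3 ≤ Nat.fib (2 * k + 5) := Nat.fib_mono (by omega)
      exact this
    have h4 : (((Nat.fib (2 * k + 5) - 2 : ℕ) : ℝ) + 1) = (Nat.fib (2 * (k + 1) + 3) : ℝ) - 1 := by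
      rw [Nat.cast_sub hfib, show 2 * (k + 1) + 3 = 2 * k + 5 by ring]
      push_cast
      ring
    rw [h4] at h3
    exact absurd hlt (not_lt.2 h3)
  rw [← ae_all_iff] at hgate
  filter_upwards [hcof, hgate] with X h1 h2
  refine ⟨h1, fun hX g => ?_⟩
  by_contra hcon
  rw [not_or, not_not] at hcon
  exact h2 g ⟨h1, hX, hcon.1, hcon.2⟩

end Pool.XMN
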